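import Pool.Agent.W2helper69.U.MS2

/-! The mean square hypothesis in the range `μ < η + c`, `2 μ < 1 + η + c`. -/

set_option autoImplicit false

open Complex Filter Topology Set MeasureTheory
open scoped BigOperators ComplexConjugate

namespace Pool.Agent.W2helper69.U

open H370 H370.A2 H370.AS H370.SI Pool.Agent.W2helper69.PS

/-- the correlation of the Dirichlet polynomial -/
noncomputable def Wc (a : ℕ → ℂ) (x : ℝ) (N : ℕ) (w1 w2 t u : ℝ) : ℝ :=
  ‖∫ v in (t + w1)..(t + w2), conj (Pol (bb a x) N v) * Pol (bb a x) N (v + u)‖ ^ 2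

lemma Wc_cont (a : ℕ → ℂ) (x : ℝ) (N : ℕ) (w1 w2 : ℝ) :
    Continuous fun z : ℝ × ℝ => Wc a x N w1 w2 z.1 z.2 := by
  unfold Wc
  simp_rw [corr_pol]
  have h2 : Continuous fun q : ℝ × ℝ => ∑ n ∈ Finset.Icc 1 N,
      (bb a x n * (cn (bb a x) N w1 w2 q.1 n * qq n q.1)) * qq n q.2 := by
    refine continuous_finsetSum _ fun n hn => ?_
    have hn1 := (Finset.mem_Icc.1 hn).1
    exact (continuous_const.mul (((cn_cont (bb a x) N w1 w2 hn1).comp continuous_fst).mul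
      ((qq_cont hn1).comp continuous_fst))).mul ((qq_cont hn1).comp continuous_snd)
  exact h2.norm.pow 2

lemma mv_alg {U V W X Y k M S I : ℝ} (hU : 0 ≤ U) (hV : 0 ≤ V) (hW : 0 ≤ W) (hX : 0 < X)
    (hY : 0 < Y) (hk : 1 ≤ k) (hM0 : 0 ≤ M) (hM : M ≤ k ^ 2 * X) (hS0 : 0 ≤ S) (hS : S ≤ k ^ 3)
    (hI : I ≤ (U + M) * (S * ((V + M) * (2 * k ^ 2 * Y * ((W + M) * W))))) :
    I ≤ 2 * k ^ 11 * ((U + X) * (V + X) * (W + X) * W * Y) := by
  have hk2 : 1 ≤ k ^ 2 := one_le_pow₀ hk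
  have hk0 : 0 < k := by linarith
  have hMX : ∀ z : ℝ, 0 ≤ z → z + M ≤ k ^ 2 * (z + X) := by
    intro z hz
    have : z ≤ k ^ 2 * z := le_mul_of_one_le_left hz hk2
    linarith
  have i1 := hMX U hU
  have i2 := hMX V hV
  have i3 := hMX W hW
  refine hI.trans ?_
  calc _ ≤ (k ^ 2 * (U + X)) * (k ^ 3 * ((k ^ 2 * (V + X)) * (2 * k ^ 2 * Y *
          ((k ^ 2 * (W + X)) * W)))) := by gcongr
    _ = _ := by ring

/-- the mean square of the correlation of the truncated prime sums -/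
theorem pol_ms {a : ℕ → ℂ} (ha : ∀ n, ‖a n‖ ≤ ArithmeticFunction.vonMangoldt n)
    (κ : ℝ) (hκ : 0 < κ) (hκ1 : κ ≤ 1) : ∃ L0 : ℝ, 40 ≤ L0 ∧ ∀ L : ℝ, L0 ≤ L →
    ∀ x : ℝ, 0 ≤ x → x ≤ 4 * L → ∃ N : ℕ,
      (∀ t : ℝ, ‖H370.PP a x t - ∑ n ∈ Finset.Icc 1 N, pterm a x t n‖ ≤ Real.exp (-(4 * L))) ∧
      ∀ T1 T2 p q w1 w2 : ℝ, T1 ≤ T2 → p ≤ q → w1 ≤ w2 →
        ∫ t in T1..T2, ∫ u in p..q, Wc a x N w1 w2 t u ≤
          2 * Real.exp (κ * L) ^ 11 * ((q - p + Real.exp x) * (T2 - T1 + Real.exp x) *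
            (w2 - w1 + Real.exp x) * (w2 - w1) * Real.exp (-x)) := by
  obtain ⟨L1, hL1, htr⟩ := trunc_par κ hκ hκ1
  obtain ⟨L2, hL2, hVV⟩ := VV_crude κ hκ hκ1
  refine ⟨max L1 L2, hL1.trans (le_max_left _ _), fun L hL x hx hx4 => ?_⟩
  have hLL1 : L1 ≤ L := (le_max_left _ _).trans hL
  have hLL2 : L2 ≤ L := (le_max_right _ _).trans hL
  have hL40 : 40 ≤ L := hL1.trans hLL1
  obtain ⟨hk36, hkt, h3⟩ := htr L hLL1
  obtain ⟨N, hN1, hNx, hN8, hNl, hNE⟩ := h3 x hx hx4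
  have hVx := hVV L hLL2 x hx hx4
  clear h3 htr hVV
  have hκL : 0 ≤ κ * L := by positivity
  refine ⟨N, fun t => (PP_trunc ha x t (κ * L) N hκL hNx).trans hNE, ?_⟩
  have ek2 : Real.exp (x + 2 * (κ * L)) = Real.exp (κ * L) ^ 2 * Real.exp x := by
    rw [← Real.exp_nat_mul, ← Real.exp_add]; congr 1; push_cast; ring
  rw [ek2] at hN8
  have hk36' : 36 ≤ Real.exp (κ * L) := by
    refine le_trans ?_ hk36
    have : 1 ≤ L ^ 2 := one_le_pow₀ (by linarith)
    linarith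
  set X := Real.exp x with hX
  set Y := Real.exp (-x) with hY
  have hX0 : 0 < X := Real.exp_pos _
  have hY0 : 0 < Y := Real.exp_pos _
  set k := Real.exp (κ * L) with hk
  have hk1 : 1 ≤ k := by linarith
  have hlogN : 0 ≤ Real.log N := Real.log_natCast_nonneg N
  have hB : ∀ n ∈ Finset.Icc 1 N, ‖bb a x n‖ ^ 2 ≤ 2 * k ^ 2 * Y := by
    intro n hn
    refine (bb_sq_bound ha x (κ * L) hκL N n hn).trans ?_
    have f1 : (Real.log N) ^ 2 * Real.exp (κ * L - x) ≤ k ^ 2 * Y := by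
      have : Real.exp (κ * L - x) = k * Y := by rw [hk, hY, ← Real.exp_add]; congr 1
      rw [this]
      calc (Real.log N) ^ 2 * (k * Y) ≤ k * (k * Y) := by gcongr
        _ = _ := by ring
    have f2 : 4 * Real.exp (-(κ * L) ^ 2) ≤ k ^ 2 * Y := by
      have f3 : Real.exp (-(κ * L) ^ 2) ≤ Y := by
        have f5 := Real.exp_le_exp.1 hkt
        rw [hY]
        apply Real.exp_le_exp.2
        linarith
      have f6 : (4 : ℝ) ≤ k ^ 2 :=
        (by linarith : (4 : ℝ) ≤ k).trans (le_self_pow₀ hk1 (by norm_num))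
      exact mul_le_mul f6 f3 (Real.exp_pos _).le (by positivity)
    linarith
  have hsum : ∑ n ∈ Finset.Icc 1 N, ‖bb a x n‖ ^ 2 ≤ k ^ 3 := (bb_sq_le ha x N).trans hVx
  intro T1 T2 p q w1 w2 hT hpq hw
  have hmv := two_mv (bb a x) N hN1 (2 * k ^ 2 * Y) hB hT hpq hw
  exact mv_alg (by linarith) (by linarith) (by linarith) hX0 hY0 hk1 (by positivity) hN8
    (Finset.sum_nonneg fun _ _ => by positivity) hsum hmv

lemma trunc_sq {D W E C0 C1 H : ℝ} (hD0 : 0 ≤ D) (hD : D ≤ W + C1 * E * H)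
    (hC0 : C0 = C1 ^ 2) : D ^ 2 ≤ 2 * W ^ 2 + 2 * C0 * (H ^ 2 * E ^ 2) := by
  have h1 : D ^ 2 ≤ (W + C1 * E * H) ^ 2 := pow_le_pow_left₀ hD0 hD 2
  refine h1.trans ((two_sq _ _).trans (le_of_eq ?_))
  rw [hC0]; ring

lemma int2_le {D W : ℝ → ℝ → ℝ} {R : ℝ} (hD : Continuous fun z : ℝ × ℝ => D z.1 z.2)
    (hW : Continuous fun z : ℝ × ℝ => W z.1 z.2) (h : ∀ t u, D t u ≤ 2 * W t u + R)
    {T1 T2 p q : ℝ} (hT : T1 ≤ T2) (hpq : p ≤ q) :
    ∫ t in T1..T2, ∫ u in p..q, D t u ≤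
      2 * (∫ t in T1..T2, ∫ u in p..q, W t u) + (T2 - T1) * ((q - p) * R) := by
  have hWt : ∀ t : ℝ, Continuous fun u : ℝ => W t u := fun t =>
    hW.comp (by fun_prop : Continuous fun u : ℝ => ((t, u) : ℝ × ℝ))
  have hDt : ∀ t : ℝ, Continuous fun u : ℝ => D t u := fun t =>
    hD.comp (by fun_prop : Continuous fun u : ℝ => ((t, u) : ℝ × ℝ))
  have hWcc : Continuous fun t : ℝ => ∫ u in p..q, W t u :=
    intervalIntegral.continuous_parametric_intervalIntegral_of_continuous' hW _ _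
  have hDcc : Continuous fun t : ℝ => ∫ u in p..q, D t u :=
    intervalIntegral.continuous_parametric_intervalIntegral_of_continuous' hD _ _
  calc ∫ t in T1..T2, ∫ u in p..q, D t u ≤
      ∫ t in T1..T2, (2 * (∫ u in p..q, W t u) + (q - p) * R) := by
        refine intervalIntegral.integral_mono_on hT (hDcc.intervalIntegrable _ _)
          (((continuous_const.mul hWcc).add continuous_const).intervalIntegrable _ _)
          fun t _ => ?_
        calc ∫ u in p..q, D t u ≤ ∫ u in p..q, (2 * W t u + R) :=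
              intervalIntegral.integral_mono_on hpq ((hDt t).intervalIntegrable _ _)
                (((continuous_const.mul (hWt t)).add continuous_const).intervalIntegrable _ _)
                fun u _ => h t u
          _ = _ := by
              rw [intervalIntegral.integral_add, intervalIntegral.integral_const_mul,
                intervalIntegral.integral_const, smul_eq_mul]
              · exact (continuous_const.mul (hWt t)).intervalIntegrable _ _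
              · exact continuous_const.intervalIntegrable _ _
    _ = _ := by
        rw [intervalIntegral.integral_add, intervalIntegral.integral_const_mul,
          intervalIntegral.integral_const, smul_eq_mul]
        · exact (continuous_const.mul hWcc).intervalIntegrable _ _
        · exact continuous_const.intervalIntegrable _ _

lemma Dsq_cont {a : ℕ → ℂ} (ha : ∀ n, ‖a n‖ ≤ ArithmeticFunction.vonMangoldt n) (x w1 w2 : ℝ) :
    Continuous fun z : ℝ × ℝ => ‖Dp a (z.1 + w1) (z.1 + w2) x z.2‖ ^ 2 := by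
  have e1 : ∀ z : ℝ × ℝ, Dp a (z.1 + w1) (z.1 + w2) x z.2 = Dc a x w1 w2 (x, z.1, z.2) := fun z =>
    Dp_eq le_rfl w1 w2 z.1 z.2
  simp_rw [e1]
  exact ((Dc_cont ha x w1 w2).comp
    (by fun_prop : Continuous fun z : ℝ × ℝ => ((x, z.1, z.2) : ℝ × ℝ × ℝ))).norm.pow 2

lemma ES_alg {x L C1 : ℝ} (hL : 40 ≤ L) (hx32 : x ≤ 3 / 2 * L)
    (hC1 : C1 = 2 * (2 * S2 * Real.exp 2) + 1) :
    Real.exp (-(4 * L)) * (2 * (2 * S2 * Real.exp (2 + 2 * x)) + 1) ≤ C1 * Real.exp (-L) := by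
  have hS := S2_one
  have j1 : 2 * S2 * Real.exp (2 + 2 * x) ≤ 2 * S2 * Real.exp 2 * Real.exp (3 * L) := by
    rw [Real.exp_add, ← mul_assoc]
    have : Real.exp (2 * x) ≤ Real.exp (3 * L) := Real.exp_le_exp.2 (by linarith)
    gcongr
  have j2 : (1 : ℝ) ≤ Real.exp (3 * L) := Real.one_le_exp (by linarith)
  calc _ ≤ Real.exp (-(4 * L)) * (2 * (2 * S2 * Real.exp 2 * Real.exp (3 * L)) +
        Real.exp (3 * L)) := by gcongr
    _ = C1 * (Real.exp (-(4 * L)) * Real.exp (3 * L)) := by rw [hC1]; ring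
    _ = _ := by rw [← Real.exp_add]; congr 2; ring

/-- the mean square of the correlation of the prime sums in two variables -/
theorem Dp_ms2 {a : ℕ → ℂ} (ha : ∀ n, ‖a n‖ ≤ ArithmeticFunction.vonMangoldt n)
    (κ : ℝ) (hκ : 0 < κ) (hκ1 : κ ≤ 1) : ∃ C0 L0 : ℝ, 0 ≤ C0 ∧ 40 ≤ L0 ∧ ∀ L : ℝ, L0 ≤ L →
    ∀ x : ℝ, 0 ≤ x → x ≤ 3 / 2 * L →
      ∀ T1 T2 p q w1 w2 : ℝ, T1 ≤ T2 → p ≤ q → w1 ≤ w2 →
        ∫ t in T1..T2, ∫ u in p..q, ‖Dp a (t + w1) (t + w2) x u‖ ^ 2 ≤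
          2 * (2 * Real.exp (κ * L) ^ 11 * ((q - p + Real.exp x) * (T2 - T1 + Real.exp x) *
            (w2 - w1 + Real.exp x) * (w2 - w1) * Real.exp (-x))) +
          2 * C0 * ((T2 - T1) * ((q - p) * ((w2 - w1) ^ 2 * Real.exp (-L) ^ 2))) := by
  have hS := S2_one
  obtain ⟨L1, hL1, hpm⟩ := pol_ms ha κ hκ hκ1
  obtain ⟨C1, hC1⟩ : ∃ C1 : ℝ, C1 = 2 * (2 * S2 * Real.exp 2) + 1 := ⟨_, rfl⟩
  refine ⟨C1 ^ 2, L1, by positivity, hL1, fun L hL x hx hx32 => ?_⟩
  have hL40 : 40 ≤ L := hL1.trans hL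
  obtain ⟨N, hEtr, hmv⟩ := hpm L hL x hx (by linarith)
  intro T1 T2 p q w1 w2 hT hpq hw
  have hmv1 := hmv T1 T2 p q w1 w2 hT hpq hw
  clear hmv hpm
  have hEt1 : Real.exp (-(4 * L)) ≤ 1 := Real.exp_le_one_iff.2 (by linarith)
  have hES := ES_alg hL40 hx32 hC1
  have hpt : ∀ t u : ℝ, ‖Dp a (t + w1) (t + w2) x u‖ ^ 2 ≤
      2 * Wc a x N w1 w2 t u + 2 * C1 ^ 2 * ((w2 - w1) ^ 2 * Real.exp (-L) ^ 2) := by
    intro t u
    have j1 := Dp_trunc ha (x := x) (v1 := t + w1) (v2 := t + w2) (u := u) (N := N)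
      (by linarith) hEt1 hEtr (fun t => PP_bound ha x t)
    have j3 : t + w2 - (t + w1) = w2 - w1 := by ring
    rw [j3] at j1
    exact trunc_sq (norm_nonneg _) (j1.trans (add_le_add le_rfl
      (mul_le_mul_of_nonneg_right hES (by linarith)))) rfl
  have hfin := int2_le (D := fun t u => ‖Dp a (t + w1) (t + w2) x u‖ ^ 2)
    (W := fun t u => Wc a x N w1 w2 t u) (Dsq_cont ha x w1 w2) (Wc_cont a x N w1 w2) hpt hT hpq
  refine hfin.trans ?_
  have h9 : (T2 - T1) * ((q - p) * (2 * C1 ^ 2 * ((w2 - w1) ^ 2 * Real.exp (-L) ^ 2))) =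
      2 * C1 ^ 2 * ((T2 - T1) * ((q - p) * ((w2 - w1) ^ 2 * Real.exp (-L) ^ 2))) := by ring
  rw [h9]
  exact add_le_add (mul_le_mul_of_nonneg_left hmv1 (by norm_num)) le_rfl

lemma eight_terms {T U H X Y E R : ℝ} (hT : 0 < T) (hU : 0 < U) (hH : 0 < H)
    (hXY : X * Y = 1) (hYE : Y ≤ E) (h1 : 1 ≤ H * E) (h2 : 1 ≤ U * E)
    (h3 : 1 ≤ T * E) (h4 : X ≤ T * H * E) (h5 : X ≤ U * H * E) (h6 : X ≤ T * U * E)
    (h7 : X ^ 2 ≤ T * U * H * E) (hR : R = T * U * H ^ 2 * E) :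
    (U + X) * (T + X) * (H + X) * H * Y ≤ 8 * R := by
  have e1 : (U + X) * (T + X) * (H + X) * H * Y = U * T * H ^ 2 * Y + U * T * H * (X * Y) +
      U * H ^ 2 * (X * Y) + U * H * (X * (X * Y)) + T * H ^ 2 * (X * Y) + T * H * (X * (X * Y)) +
      H ^ 2 * (X * (X * Y)) + H * (X ^ 2 * (X * Y)) := by ring
  rw [e1, hXY, hR]
  have a1 : U * T * H ^ 2 * Y ≤ U * T * H ^ 2 * E := by gcongr
  have a2 : U * T * H * 1 ≤ U * T * H * (H * E) := by gcongr
  have a3 : U * H ^ 2 * 1 ≤ U * H ^ 2 * (T * E) := by gcongr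
  have a4 : U * H * (X * 1) ≤ U * H * ((T * H * E) * 1) := by gcongr
  have a5 : T * H ^ 2 * 1 ≤ T * H ^ 2 * (U * E) := by gcongr
  have a6 : T * H * (X * 1) ≤ T * H * ((U * H * E) * 1) := by gcongr
  have a7 : H ^ 2 * (X * 1) ≤ H ^ 2 * ((T * U * E) * 1) := by gcongr
  have a8 : H * (X ^ 2 * 1) ≤ H * ((T * U * H * E) * 1) := by gcongr
  linarith

lemma exp_ineqs {T U H L x α0 η c μ δ : ℝ} (hL : 0 < L) (hTe : T = Real.exp L)
    (hH : Real.exp (η * L) ≤ H) (hU : Real.exp (c * L) ≤ U) (hxα : α0 * L ≤ x) (hxμ : x ≤ μ * L)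
    (d1 : 2 * δ ≤ α0) (d2 : 2 * δ ≤ η) (d3 : 2 * δ ≤ c) (d4 : 2 * δ ≤ 1 / 2)
    (d5 : 2 * δ ≤ 1 + η - μ) (d6 : 2 * δ ≤ η + c - μ) (d7 : 2 * δ ≤ 1 + c - μ)
    (d8 : 2 * δ ≤ 1 + η + c - 2 * μ) :
    (U + Real.exp x) * (T + Real.exp x) * (H + Real.exp x) * H * Real.exp (-x) ≤
      8 * (T * U * H ^ 2 * Real.exp (-(2 * δ * L))) := by
  have hT0 : 0 < T := by rw [hTe]; exact Real.exp_pos _
  have hH0 : 0 < H := lt_of_lt_of_le (Real.exp_pos _) hH
  have hU0 : 0 < U := lt_of_lt_of_le (Real.exp_pos _) hU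
  set E := Real.exp (-(2 * δ * L)) with hE
  have hE0 : 0 < E := Real.exp_pos _
  have key : ∀ y z : ℝ, y ≤ z → Real.exp (y * L) ≤ Real.exp (z * L) := fun y z h =>
    Real.exp_le_exp.2 (mul_le_mul_of_nonneg_right h hL.le)
  have eE : E = Real.exp ((-(2 * δ)) * L) := by rw [hE]; congr 1; ring
  have eT : T = Real.exp (1 * L) := by rw [hTe, one_mul]
  have hX : Real.exp x ≤ Real.exp (μ * L) := Real.exp_le_exp.2 hxμ
  have ex : ∀ y z : ℝ, Real.exp ((y + z) * L) = Real.exp (y * L) * Real.exp (z * L) := fun y z => by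
    rw [← Real.exp_add]; congr 1; ring
  refine eight_terms hT0 hU0 hH0 (by rw [← Real.exp_add]; simp) ?_ ?_ ?_ ?_ ?_ ?_ ?_ ?_ rfl
  · rw [hE]
    apply Real.exp_le_exp.2
    have := mul_le_mul_of_nonneg_right d1 hL.le
    linarith
  · have h := key 0 (η + -(2 * δ)) (by linarith)
    rw [zero_mul, Real.exp_zero, ex, ← eE] at h
    exact h.trans (mul_le_mul_of_nonneg_right hH hE0.le)
  · have h := key 0 (c + -(2 * δ)) (by linarith)
    rw [zero_mul, Real.exp_zero, ex, ← eE] at h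
    exact h.trans (mul_le_mul_of_nonneg_right hU hE0.le)
  · have h := key 0 (1 + -(2 * δ)) (by linarith)
    rw [zero_mul, Real.exp_zero, ex, ← eE, ← eT] at h
    exact h
  · have h := key μ (1 + η + -(2 * δ)) (by linarith)
    rw [ex, ex, ← eE, ← eT] at h
    refine (hX.trans h).trans ?_
    gcongr
  · have h := key μ (c + η + -(2 * δ)) (by linarith)
    rw [ex, ex, ← eE] at h
    refine (hX.trans h).trans ?_
    gcongr
  · have h := key μ (1 + c + -(2 * δ)) (by linarith)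
    rw [ex, ex, ← eE, ← eT] at h
    refine (hX.trans h).trans ?_
    gcongr
  · have h := key (μ + μ) (1 + c + η + -(2 * δ)) (by linarith)
    rw [ex μ μ, ex, ex, ex, ← eE, ← eT] at h
    calc Real.exp x ^ 2 = Real.exp x * Real.exp x := by ring
      _ ≤ Real.exp (μ * L) * Real.exp (μ * L) := by gcongr
      _ ≤ _ := h
      _ ≤ _ := by gcongr

lemma exists_delta {α0 η c μ : ℝ} (hα0 : 0 < α0) (hη : 0 < η) (hη1 : η ≤ 1) (hc : 0 < c)
    (hc1 : c ≤ 1) (h1 : μ < η + c) (h2 : 2 * μ < 1 + η + c) :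
    ∃ δ : ℝ, 0 < δ ∧ 2 * δ ≤ α0 ∧ 2 * δ ≤ η ∧
      2 * δ ≤ c ∧ 2 * δ ≤ 1 / 2 ∧ 2 * δ ≤ 1 + η - μ ∧ 2 * δ ≤ η + c - μ ∧ 2 * δ ≤ 1 + c - μ ∧
      2 * δ ≤ 1 + η + c - 2 * μ := by
  have g1 : 0 < 1 + η - μ := by linarith
  have g2 : 0 < 1 + c - μ := by linarith
  set m := min (min (min α0 η) (min c (1 / 2))) (min (min (1 + η - μ) (η + c - μ))
    (min (1 + c - μ) (1 + η + c - 2 * μ))) with hm
  have hm0 : 0 < m := lt_min (lt_min (lt_min hα0 hη) (lt_min hc (by norm_num)))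
    (lt_min (lt_min g1 (by linarith)) (lt_min g2 (by linarith)))
  refine ⟨m / 2, by positivity, ?_, ?_, ?_, ?_, ?_, ?_, ?_, ?_⟩
  · have : m ≤ α0 := (min_le_left _ _).trans ((min_le_left _ _).trans (min_le_left _ _))
    linarith
  · have : m ≤ η := (min_le_left _ _).trans ((min_le_left _ _).trans (min_le_right _ _))
    linarith
  · have : m ≤ c := (min_le_left _ _).trans ((min_le_right _ _).trans (min_le_left _ _))
    linarith
  · have : m ≤ 1 / 2 := (min_le_left _ _).trans ((min_le_right _ _).trans (min_le_right _ _))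
    linarith
  · have : m ≤ 1 + η - μ := (min_le_right _ _).trans ((min_le_left _ _).trans (min_le_left _ _))
    linarith
  · have : m ≤ η + c - μ := (min_le_right _ _).trans ((min_le_left _ _).trans (min_le_right _ _))
    linarith
  · have : m ≤ 1 + c - μ := (min_le_right _ _).trans ((min_le_right _ _).trans (min_le_left _ _))
    linarith
  · have : m ≤ 1 + η + c - 2 * μ :=
      (min_le_right _ _).trans ((min_le_right _ _).trans (min_le_right _ _))
    linarith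

lemma last_alg {I k J R C0 G A Z : ℝ} (hI : I ≤ 2 * (2 * k ^ 11 * J) + 2 * C0 * Z)
    (hJ : J ≤ 8 * R) (hZ : Z ≤ R) (hk : 1 ≤ k) (hC0 : 0 ≤ C0) (hR : 0 ≤ R) (hkA : k ^ 11 ≤ A)
    (hA : 64 + 4 * C0 ≤ A) (hG : G = A * (A * R)) : I ≤ G := by
  have hk11 : 1 ≤ k ^ 11 := one_le_pow₀ hk
  calc I ≤ 2 * (2 * k ^ 11 * (8 * R)) + 2 * C0 * (1 * R) := by
        refine hI.trans ?_
        gcongr
        linarith
    _ ≤ 2 * (2 * k ^ 11 * (8 * R)) + 2 * C0 * (k ^ 11 * R) := by gcongr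
    _ = k ^ 11 * ((32 + 2 * C0) * R) := by ring
    _ ≤ A * (A * R) := by
        have h0 : 32 + 2 * C0 ≤ A := by linarith
        have h01 : 0 ≤ A := by linarith
        gcongr
    _ = G := hG.symm

theorem msh_two {a : ℕ → ℂ} (ha : ∀ n, ‖a n‖ ≤ ArithmeticFunction.vonMangoldt n)
    (η c μ : ℝ) (hη : 0 < η) (hη1 : η ≤ 1) (hc : 0 < c) (hc1 : c ≤ 1)
    (h1 : μ < η + c) (h2 : 2 * μ < 1 + η + c) : MSH a η c μ := by
  intro α0 hα0
  obtain ⟨δ, hδ, d1, d2, d3, d4, d5, d6, d7, d8⟩ := exists_delta hα0 hη hη1 hc hc1 h1 h2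
  set κ : ℝ := min (δ / 26) 1 with hκd
  have hκ : 0 < κ := lt_min (by positivity) one_pos
  have hκ1 : κ ≤ 1 := min_le_right _ _
  have hκδ : 11 * κ ≤ δ / 2 := by
    have : κ ≤ δ / 26 := min_le_left _ _
    linarith
  obtain ⟨C0, L1, hC0, hL1, hms⟩ := Dp_ms2 ha κ hκ hκ1
  obtain ⟨L3, hL3, hpe⟩ := poly_le_exp (64 + 4 * C0) (δ / 2) (by positivity)
  obtain ⟨T3, hT3⟩ := (Real.tendsto_log_atTop.eventually_ge_atTop
    (max L1 (max L3 (24 / η ^ 4)))).exists_forall_of_atTop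
  refine ⟨δ, max 10 T3, hδ, le_max_left _ _, fun T hT H hH hHT p q hp hq hU x hxα hxμ => ?_⟩
  have hTT3 : T3 ≤ T := (le_max_right _ _).trans hT
  have hT10 : 10 ≤ T := (le_max_left _ _).trans hT
  have hTpos : 0 < T := by linarith
  have hLbig := hT3 T hTT3
  set L := Real.log T with hL
  have hLL1 : L1 ≤ L := (le_max_left _ _).trans hLbig
  have hLL3 : L3 ≤ L := ((le_max_left _ _).trans (le_max_right _ _)).trans hLbig
  have hL40 : 40 ≤ L := hL1.trans hLL1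
  obtain ⟨hcube, -⟩ := cube_le_exp hη hη1 (((le_max_right _ _).trans (le_max_right _ _)).trans hLbig)
  have hL0 : 0 < L := by linarith
  have h2L : 2 * L ≤ H := by
    refine le_trans ?_ (hcube.trans hH)
    have : 2 ≤ L ^ 2 := by
      have := mul_le_mul hL40 hL40 (by norm_num) hL0.le
      rw [pow_two]
      linarith
    calc 2 * L ≤ L ^ 2 * L := by gcongr
      _ = L ^ 3 := by ring
  have hH0 : 0 < H := by linarith
  have hx : 0 ≤ x := le_trans (by positivity) hxα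
  have hx32 : x ≤ 3 / 2 * L := by
    refine hxμ.trans (mul_le_mul_of_nonneg_right ?_ hL0.le)
    linarith
  have hTe : T = Real.exp L := by rw [hL, Real.exp_log hTpos]
  have hU0 : 0 < q - p := lt_of_lt_of_le (Real.exp_pos _) hU
  have hm := hms L hLL1 x hx hx32 T (2 * T) p q L (H - L) (by linarith) (by linarith) (by linarith)
  have hei := exp_ineqs hL0 hTe hH hU hxα hxμ d1 d2 d3 d4 d5 d6 d7 d8
  have e1 : 2 * T - T = T := by ring
  rw [e1] at hm
  have hk1 : 1 ≤ Real.exp (κ * L) := Real.one_le_exp (by positivity)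
  refine last_alg (A := Real.exp (δ / 2 * L)) (R := T * (q - p) * H ^ 2 * Real.exp (-(2 * δ * L)))
    hm ?_ ?_ hk1 hC0 (by positivity) ?_ ?_ ?_
  · refine le_trans ?_ hei
    have i1 : 0 ≤ H - L - L := by linarith
    have i2 : H - L - L ≤ H := by linarith
    have i3 : 0 ≤ H - L - L + Real.exp x := by positivity
    gcongr
  · have i1 : 0 ≤ H - L - L := by linarith
    have i2 : H - L - L ≤ H := by linarith
    have i3 : Real.exp (-L) ^ 2 ≤ Real.exp (-(2 * δ * L)) := by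
      rw [← Real.exp_nat_mul]
      apply Real.exp_le_exp.2
      push_cast
      have := mul_le_mul_of_nonneg_right d4 hL0.le
      linarith
    calc T * ((q - p) * ((H - L - L) ^ 2 * Real.exp (-L) ^ 2)) ≤
        T * ((q - p) * (H ^ 2 * Real.exp (-(2 * δ * L)))) := by gcongr
      _ = _ := by ring
  · rw [← Real.exp_nat_mul]
    apply Real.exp_le_exp.2
    push_cast
    have := mul_le_mul_of_nonneg_right hκδ hL0.le
    linarith
  · refine le_trans ?_ (hpe L hLL3)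
    have : 1 ≤ L ^ 3 := one_le_pow₀ (by linarith)
    calc (64 + 4 * C0) = (64 + 4 * C0) * 1 := by ring
      _ ≤ _ := by gcongr
  · have : Real.exp (δ / 2 * L) * (Real.exp (δ / 2 * L) * (T * (q - p) * H ^ 2 *
        Real.exp (-(2 * δ * L)))) = T * (q - p) * H ^ 2 *
        (Real.exp (δ / 2 * L) * Real.exp (δ / 2 * L) * Real.exp (-(2 * δ * L))) := by ring
    rw [this, ← Real.exp_add, ← Real.exp_add]
    congr 2
    ring

end Pool.Agent.W2helper69.U
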