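import Pool.Agent.W2helper69.U.Large

/-! Joint continuity of the prime sum and of the correlation. -/

set_option autoImplicit false

open Complex Filter Topology Set MeasureTheory
open scoped BigOperators ComplexConjugate

namespace Pool.Agent.W2helper69.U

open H370 H370.A2 H370.AS H370.SI Pool.Agent.W2helper69.PS

variable {a : ℕ → ℂ} (ha : ∀ n, ‖a n‖ ≤ ArithmeticFunction.vonMangoldt n)

include ha in
lemma PP_cont2 (R : ℝ) : Continuous fun p : ℝ × ℝ => H370.PP a (min p.1 R) p.2 := by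
  simp_rw [PP_eq]
  refine continuous_tsum (u := fun n : ℕ => 2 * Real.exp (2 + 2 * R) * (1 / (n : ℝ) ^ 2))
    (fun n => ?_) (sum_inv_sq.mul_left _) (fun n p => ?_)
  · unfold pterm
    have h1 : Continuous fun p : ℝ × ℝ => min p.1 R := continuous_fst.min continuous_const
    have h2 : Continuous fun p : ℝ × ℝ => ((min p.1 R : ℝ) : ℂ) := Complex.continuous_ofReal.comp h1
    fun_prop
  · rw [norm_pterm]
    refine (pt_le ha _ n).trans ?_
    have : min p.1 R ≤ R := min_le_right _ _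
    gcongr

/-- the correlation of the prime sums, as a function of `x`, `t`, `u` -/
noncomputable def Dc (a : ℕ → ℂ) (R v1 v2 : ℝ) (p : ℝ × ℝ × ℝ) : ℂ :=
  ∫ s in v1..v2, conj (H370.PP a (min p.1 R) (p.2.1 + s)) * H370.PP a (min p.1 R) (p.2.1 + s + p.2.2)

include ha in
lemma Dc_cont (R v1 v2 : ℝ) : Continuous fun p : ℝ × ℝ × ℝ => Dc a R v1 v2 p := by
  unfold Dc
  apply intervalIntegral.continuous_parametric_intervalIntegral_of_continuous'
  have hP := PP_cont2 ha R
  have h1 : Continuous fun q : (ℝ × ℝ × ℝ) × ℝ => ((q.1.1, q.1.2.1 + q.2) : ℝ × ℝ) := by fun_prop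
  have h2 : Continuous fun q : (ℝ × ℝ × ℝ) × ℝ =>
      ((q.1.1, q.1.2.1 + q.2 + q.1.2.2) : ℝ × ℝ) := by fun_prop
  have h3 := hP.comp h1
  have h4 := hP.comp h2
  exact (Complex.continuous_conj.comp h3).mul h4

lemma Dp_eq {R x : ℝ} (hx : x ≤ R) (v1 v2 t u : ℝ) :
    Dp a (t + v1) (t + v2) x u = Dc a R v1 v2 (x, t, u) := by
  unfold Dp Dc
  simp only
  rw [min_eq_left hx]
  have h := intervalIntegral.integral_comp_add_left
    (fun v => conj (H370.PP a x v) * H370.PP a x (v + u)) t (a := v1) (b := v2)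
  rw [← h]

/-- the mean square over `x` -/
noncomputable def GG2 (a : ℕ → ℂ) (R v1 v2 A B : ℝ) (p : ℝ × ℝ) : ℝ :=
  ∫ x in A..B, ‖Dc a R v1 v2 (x, p.1, p.2)‖ ^ 2

include ha in
lemma GG2_cont (R v1 v2 A B : ℝ) : Continuous fun p : ℝ × ℝ => GG2 a R v1 v2 A B p := by
  unfold GG2
  apply intervalIntegral.continuous_parametric_intervalIntegral_of_continuous'
  have h1 : Continuous fun q : (ℝ × ℝ) × ℝ => ((q.2, q.1.1, q.1.2) : ℝ × ℝ × ℝ) := by fun_prop
  have h2 := ((Dc_cont ha R v1 v2).comp h1).norm.pow 2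
  exact h2

lemma GG2_nonneg (R v1 v2 : ℝ) {A B : ℝ} (hAB : A ≤ B) (p : ℝ × ℝ) :
    0 ≤ GG2 a R v1 v2 A B p :=
  intervalIntegral.integral_nonneg hAB fun _ _ => by positivity

/-- Fubini for continuous functions of three variables -/
lemma fub3 {f : ℝ × ℝ × ℝ → ℝ} (hf : Continuous f) {A B T1 T2 u0 u1 S : ℝ} (hAB : A ≤ B)
    (hS : ∀ x ∈ Set.Icc A B, ∫ t in T1..T2, ∫ u in u0..u1, f (x, t, u) ≤ S) :
    ∫ t in T1..T2, ∫ u in u0..u1, ∫ x in A..B, f (x, t, u) ≤ (B - A) * S := by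
  have e1 : ∀ t : ℝ, ∫ u in u0..u1, ∫ x in A..B, f (x, t, u) =
      ∫ x in A..B, ∫ u in u0..u1, f (x, t, u) := by
    intro t
    rw [MeasureTheory.intervalIntegral_intervalIntegral_swap]
    have h1 : Continuous fun q : ℝ × ℝ => f (q.2, t, q.1) := hf.comp (by fun_prop)
    exact (h1.continuousOn.integrableOn_compact (isCompact_uIcc.prod isCompact_uIcc)).mono_set
      (Set.prod_mono Set.uIoc_subset_uIcc Set.uIoc_subset_uIcc)
  simp_rw [e1]
  have hin : Continuous fun q : ℝ × ℝ => ∫ u in u0..u1, f (q.1, q.2, u) := by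
    apply intervalIntegral.continuous_parametric_intervalIntegral_of_continuous'
    have h1 : Continuous fun q : (ℝ × ℝ) × ℝ => f (q.1.1, q.1.2, q.2) := hf.comp (by fun_prop)
    exact h1
  rw [MeasureTheory.intervalIntegral_intervalIntegral_swap]
  · have hc : Continuous fun x => ∫ t in T1..T2, ∫ u in u0..u1, f (x, t, u) := by
      apply intervalIntegral.continuous_parametric_intervalIntegral_of_continuous'
      exact hin
    calc ∫ x in A..B, ∫ t in T1..T2, ∫ u in u0..u1, f (x, t, u) ≤ ∫ _ in A..B, S :=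
          intervalIntegral.integral_mono_on hAB (hc.intervalIntegrable _ _)
            (continuous_const.intervalIntegrable _ _) hS
      _ = _ := by rw [intervalIntegral.integral_const, smul_eq_mul]
  · have h1 : Continuous (Function.uncurry fun t x => ∫ u in u0..u1, f (x, t, u)) :=
      hin.comp (by fun_prop : Continuous fun q : ℝ × ℝ => ((q.2, q.1) : ℝ × ℝ))
    exact (h1.continuousOn.integrableOn_compact (isCompact_uIcc.prod isCompact_uIcc)).mono_set
      (Set.prod_mono Set.uIoc_subset_uIcc Set.uIoc_subset_uIcc)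

/-- the Markov inequality in the plane -/
lemma markov2 {f : ℝ × ℝ → ℝ} (hf : Continuous f) (hf0 : ∀ p, 0 ≤ f p) {T1 T2 u0 u1 y : ℝ}
    (hT : T1 ≤ T2) (hu : u0 ≤ u1) (hy : 0 < y) :
    volume {p : ℝ × ℝ | p.1 ∈ Set.Icc T1 T2 ∧ p.2 ∈ Set.Icc u0 u1 ∧ y ≤ f p} ≤
      ENNReal.ofReal ((∫ t in T1..T2, ∫ u in u0..u1, f (t, u)) / y) := by
  set K : Set (ℝ × ℝ) := Set.Icc T1 T2 ×ˢ Set.Icc u0 u1 with hK
  have hKc : IsCompact K := isCompact_Icc.prod isCompact_Icc
  have hint : IntegrableOn f K volume := hf.continuousOn.integrableOn_compact hKc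
  have hmk := mul_meas_ge_le_integral_of_nonneg (μ := volume.restrict K)
    (f := f) (Eventually.of_forall hf0) hint y
  have hmeas : MeasurableSet {p : ℝ × ℝ | y ≤ f p} := measurableSet_le measurable_const hf.measurable
  have hset : {p : ℝ × ℝ | p.1 ∈ Set.Icc T1 T2 ∧ p.2 ∈ Set.Icc u0 u1 ∧ y ≤ f p} =
      {p : ℝ × ℝ | y ≤ f p} ∩ K := by
    ext p
    simp only [Set.mem_ofPred_eq, Set.mem_inter_iff, hK, Set.mem_prod]
    tauto
  have hfin : volume ({p : ℝ × ℝ | y ≤ f p} ∩ K) ≠ ⊤ :=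
    measure_ne_top_of_subset Set.inter_subset_right hKc.measure_lt_top.ne
  have h6 : (volume.restrict K).real {p : ℝ × ℝ | y ≤ f p} =
      (volume ({p : ℝ × ℝ | y ≤ f p} ∩ K)).toReal := by
    rw [measureReal_def, Measure.restrict_apply hmeas]
  have h7 : ∫ p in K, f p = ∫ t in T1..T2, ∫ u in u0..u1, f (t, u) := by
    rw [hK, Measure.volume_eq_prod, setIntegral_prod _ (by rw [← Measure.volume_eq_prod]; exact hint),
      integral_Icc_eq_integral_Ioc, ← intervalIntegral.integral_of_le hT]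
    refine intervalIntegral.integral_congr fun t _ => ?_
    rw [integral_Icc_eq_integral_Ioc, ← intervalIntegral.integral_of_le hu]
  rw [h6, h7] at hmk
  rw [hset, ← ENNReal.ofReal_toReal hfin]
  apply ENNReal.ofReal_le_ofReal
  rw [le_div_iff₀ hy]
  linarith

end Pool.Agent.W2helper69.U
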