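import Pool.Agent.W2helper69.U.Red
import Pool.Agent.W2helper69.PS.Core

/-! The smooth pair sum at almost all distances, from a mean square hypothesis. -/

set_option autoImplicit false

open Complex Filter Topology Set MeasureTheory
open scoped BigOperators ComplexConjugate

namespace Pool.Agent.W2helper69.U

open H370 H370.A2 H370.AS H370.SI Pool.Agent.W2helper69.PS

lemma e_int2 (B : ℝ) (hB : 0 ≤ B) : ∫ x in (0 : ℝ)..B, Real.exp (2 * x - x ^ 2 / 2) ≤ 32 := by
  have hi : Integrable fun x : ℝ => 8 * Real.exp (-(1 / 2) * (x - 2) ^ 2) :=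
    ((integrable_exp_neg_mul_sq (by norm_num : (0 : ℝ) < 1 / 2)).comp_sub_right 2).const_mul 8
  have h1 : ∀ x : ℝ, Real.exp (2 * x - x ^ 2 / 2) ≤ 8 * Real.exp (-(1 / 2) * (x - 2) ^ 2) := by
    intro x
    have h2 : 2 * x - x ^ 2 / 2 = 2 + -(1 / 2) * (x - 2) ^ 2 := by ring
    rw [h2, Real.exp_add]
    have h3 : Real.exp 2 ≤ 8 := by
      have h5 : Real.exp 2 = Real.exp 1 * Real.exp 1 := by rw [← Real.exp_add]; norm_num
      have := Real.exp_one_lt_d9
      have := Real.exp_pos 1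
      rw [h5]
      nlinarith
    gcongr
  calc ∫ x in (0 : ℝ)..B, Real.exp (2 * x - x ^ 2 / 2) ≤
      ∫ x in (0 : ℝ)..B, 8 * Real.exp (-(1 / 2) * (x - 2) ^ 2) := by
        refine intervalIntegral.integral_mono_on hB
          ((by fun_prop : Continuous fun x : ℝ => Real.exp (2 * x - x ^ 2 / 2)).intervalIntegrable
            _ _) (hi.intervalIntegrable) fun x _ => h1 x
    _ ≤ ∫ x : ℝ, 8 * Real.exp (-(1 / 2) * (x - 2) ^ 2) := by
        rw [intervalIntegral.integral_of_le hB]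
        exact setIntegral_le_integral hi (Filter.Eventually.of_forall fun x => by positivity)
    _ = 8 * Real.sqrt (Real.pi / (1 / 2)) := by
        rw [integral_const_mul, integral_sub_right_eq_self
          (fun x : ℝ => Real.exp (-(1 / 2) * x ^ 2)) 2, integral_gaussian]
    _ ≤ 32 := by
        have h5 : Real.sqrt (Real.pi / (1 / 2)) ≤ 4 := by
          rw [Real.sqrt_le_left (by norm_num)]
          have := Real.pi_lt_four
          linarith
        linarith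

/-- the integral over small `x` -/
lemma Qu_small_int {F : ℂ → ℂ} (hF : GoodL F) {a : ℕ → ℂ}
    (ha : ∀ n, ‖a n‖ ≤ ArithmeticFunction.vonMangoldt n)
    (hld : ∀ s : ℂ, 1 < s.re → 1 ≤ s.im → deriv F s / F s = - ∑' n : ℕ, a n * (n : ℂ) ^ (-s))
    {τ : ℝ} (hτ : 0 ≤ τ) (hτ1 : τ ≤ 1 / 2) (η : ℝ) (hη : 0 < η) (hη1 : η ≤ 1) :
    ∃ C : ℝ, 0 < C ∧ ∀ α0 : ℝ, 0 < α0 → α0 ≤ η / 2 → ∃ T0 : ℝ, 10 ≤ T0 ∧ ∀ T : ℝ, T0 ≤ T →
      ∀ t H u : ℝ, T + 1 ≤ t → 0 ≤ u →
      t + u + H ≤ 16 * T - 1 → Real.exp (η * Real.log T) ≤ H →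
      Near F τ (Real.log T) t (t + H) → Near F τ (Real.log T) (t + u) (t + u + H) →
      ∫ x in (0 : ℝ)..(α0 * Real.log T), ‖Qu F T t H x u‖ ≤
        C * (H * (Real.log T + α0 ^ 2 * Real.log T ^ 2)) := by
  obtain ⟨C, T1, hC, hT1, hQ⟩ := Qu_small hF ha hld hτ hτ1 η hη hη1
  obtain ⟨C3, hC3, hV⟩ := VV_int
  refine ⟨C * (33 + C3), by positivity, fun α0 hα0 hα1 => ?_⟩
  obtain ⟨T3, hT3⟩ := (Real.tendsto_log_atTop.eventually_ge_atTop
    (1 + 1 / α0)).exists_forall_of_atTop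
  refine ⟨max T1 T3, hT1.trans (le_max_left _ _), fun T hT t H u ht hu htH hH hn1 hn2 => ?_⟩
  have hTT1 : T1 ≤ T := (le_max_left _ _).trans hT
  have hTT3 : T3 ≤ T := (le_max_right _ _).trans hT
  have hLbig := hT3 T hTT3
  set L := Real.log T with hL
  have h1a : 0 < 1 / α0 := by positivity
  have hL1 : 1 ≤ L := by linarith
  have hαL : 1 ≤ α0 * L := by
    have : 1 / α0 ≤ L := by linarith
    rw [div_le_iff₀ hα0] at this
    linarith
  have hH0 : 0 < H := lt_of_lt_of_le (Real.exp_pos _) hH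
  set B := α0 * L with hB
  have hB0 : 0 ≤ B := by linarith
  have hc := (Qu_cont F T t H u).norm
  have hVc : IntervalIntegrable VV volume 0 B := by
    apply ContinuousOn.intervalIntegrable
    apply (VV_cont B).mono
    rw [Set.uIcc_of_le hB0]
    exact fun x hx => hx.2
  have hec : IntervalIntegrable (fun x : ℝ => L * Real.exp (2 * x - x ^ 2 / 2)) volume 0 B :=
    (by fun_prop : Continuous fun x : ℝ => L * Real.exp (2 * x - x ^ 2 / 2)).intervalIntegrable _ _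
  have hone : IntervalIntegrable (fun _ : ℝ => (1 : ℝ)) volume 0 B :=
    continuous_const.intervalIntegrable _ _
  have h1 : ∫ x in (0 : ℝ)..B, ‖Qu F T t H x u‖ ≤
      ∫ x in (0 : ℝ)..B, (C * H) * (L * Real.exp (2 * x - x ^ 2 / 2) + VV x + 1) := by
    refine intervalIntegral.integral_mono_on hB0 (hc.intervalIntegrable _ _)
      (((hec.add hVc).add hone).const_mul _) fun x hx => ?_
    refine (hQ T hTT1 t H u ht hu htH hH hn1 hn2 x hx.1 ?_).trans (le_of_eq (by ring))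
    calc x ≤ B := hx.2
      _ ≤ η / 2 * L := by rw [hB]; gcongr
  refine h1.trans ?_
  rw [intervalIntegral.integral_const_mul, intervalIntegral.integral_add (hec.add hVc) hone,
    intervalIntegral.integral_add hec hVc, intervalIntegral.integral_const_mul,
    intervalIntegral.integral_const, smul_eq_mul, mul_one, sub_zero]
  have h2 := e_int2 B hB0
  have h3 := hV B (by linarith)
  have hα1' : α0 ≤ 1 := by linarith
  have hBL : B ≤ L := by rw [hB]; nlinarith
  have h4 : L * (∫ x in (0 : ℝ)..B, Real.exp (2 * x - x ^ 2 / 2)) + (∫ x in (0 : ℝ)..B, VV x) + B ≤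
      (33 + C3) * (L + α0 ^ 2 * L ^ 2) := by
    have h5 : L * (∫ x in (0 : ℝ)..B, Real.exp (2 * x - x ^ 2 / 2)) ≤ L * 32 := by gcongr
    have h6 : B ^ 2 = α0 ^ 2 * L ^ 2 := by rw [hB]; ring
    rw [h6] at h3
    have h7 : 0 ≤ α0 ^ 2 * L ^ 2 := by positivity
    have h8 : 0 ≤ C3 * L := by positivity
    nlinarith
  calc C * H * _ ≤ C * H * ((33 + C3) * (L + α0 ^ 2 * L ^ 2)) := by gcongr
    _ = _ := by ring

/-- the mean square hypothesis: the correlation of the prime sums is small in mean square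
over the plane region `[T, 2T] × [p, q]` -/
def MSH (a : ℕ → ℂ) (η c μ : ℝ) : Prop :=
  ∀ α0 : ℝ, 0 < α0 → ∃ δ T0 : ℝ, 0 < δ ∧ 10 ≤ T0 ∧ ∀ T : ℝ, T0 ≤ T → ∀ H : ℝ,
    Real.exp (η * Real.log T) ≤ H → H ≤ T → ∀ p q : ℝ, 0 ≤ p → q ≤ T →
    Real.exp (c * Real.log T) ≤ q - p → ∀ x : ℝ, α0 * Real.log T ≤ x → x ≤ μ * Real.log T →
    ∫ t in T..(2 * T), ∫ u in p..q,
      ‖Dp a (t + Real.log T) (t + (H - Real.log T)) x u‖ ^ 2 ≤
      T * (q - p) * H ^ 2 * Real.exp (-(δ * Real.log T))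

theorem coreU {F : ℂ → ℂ} (hF : GoodL F) {a : ℕ → ℂ}
    (ha : ∀ n, ‖a n‖ ≤ ArithmeticFunction.vonMangoldt n)
    (hld : ∀ s : ℂ, 1 < s.re → 1 ≤ s.im → deriv F s / F s = - ∑' n : ℕ, a n * (n : ℂ) ^ (-s))
    {τ : ℝ} (hτ : 0 ≤ τ) (η c μ ε : ℝ) (hη : 0 < η) (hη1 : η ≤ 1) (hτη : 16 * τ ≤ η)
    (hμ : 0 < μ) (hμ4 : μ ≤ 4) (hMS : MSH a η c μ) (hε : 0 < ε)
    (ψ : ℝ → ℝ) (hψ : Continuous ψ) (hz : ∀ x, μ ≤ |x| → ψ x = 0) :
    ∃ δ : ℝ, 0 < δ ∧ ∃ T0 : ℝ, 10 ≤ T0 ∧ ∀ T : ℝ, T0 ≤ T → ∀ H : ℝ,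
      Real.exp (η * Real.log T) ≤ H → H ≤ T → ∀ p q : ℝ, 0 ≤ p → q ≤ T →
      Real.exp (c * Real.log T) ≤ q - p →
      volume {z : ℝ × ℝ | (z.1 ∈ Set.Icc (T + 1) (2 * T) ∧ z.2 ∈ Set.Icc p q) ∧
        (Near F τ (Real.log T) z.1 (z.1 + H) ∧
          Near F τ (Real.log T) (z.1 + z.2) (z.1 + z.2 + H)) ∧
        ¬ (‖(∫ α in (-μ)..μ, (ψ α : ℂ) * FN F z.1 H z.2 T α) - (ψ 0 : ℂ)‖ ≤ ε)} ≤
        ENNReal.ofReal (T * (q - p) * Real.exp (-(δ * Real.log T))) := by
  obtain ⟨M, hM0, hMb⟩ := bdd_of_supp hψ hz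
  obtain ⟨K, hK, hlip⟩ := cont_dev hψ hMb (ε / 8) (by positivity)
  obtain ⟨Cq, hCq, hQs⟩ := Qu_small_int hF ha hld hτ (by linarith) η hη hη1
  set α0 : ℝ := min (min (η / 2) μ) (min 1 (ε / (64 * M * Cq))) with hα0d
  have hα0 : 0 < α0 := by
    rw [hα0d]
    exact lt_min (lt_min (by positivity) hμ) (lt_min one_pos (by positivity))
  have hα0η : α0 ≤ η / 2 := (min_le_left _ _).trans (min_le_left _ _)
  have hα0μ : α0 ≤ μ := (min_le_left _ _).trans (min_le_right _ _)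
  have hα01 : α0 ≤ 1 := (min_le_right _ _).trans (min_le_left _ _)
  have hα0ε : α0 ≤ ε / (64 * M * Cq) := (min_le_right _ _).trans (min_le_right _ _)
  have hα0sq : 8 * M * Cq * α0 ^ 2 ≤ ε / 8 := by
    have h1 : α0 ^ 2 ≤ α0 := by nlinarith
    calc 8 * M * Cq * α0 ^ 2 ≤ 8 * M * Cq * (ε / (64 * M * Cq)) := by
          gcongr
          exact h1.trans hα0ε
      _ = ε / 8 := by field_simp; norm_num
  obtain ⟨T6, hT6, hQs6⟩ := hQs α0 hα0 hα0η
  set δ1 : ℝ := min (η / 4) (α0 / 2) with hδ1d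
  have hδ1 : 0 < δ1 := lt_min (by positivity) (by positivity)
  have hδ1η : 4 * δ1 ≤ η := by have := min_le_left (η / 4) (α0 / 2); linarith
  have hδ1α : 2 * δ1 ≤ α0 := by have := min_le_right (η / 4) (α0 / 2); linarith
  obtain ⟨T7, hT7, hQl⟩ := Qu_large hF ha hld hτ η α0 δ1 hη hη1 hτη hδ1 hδ1η hδ1α
  obtain ⟨δ2, T5, hδ2, hT5, hms⟩ := hMS α0 hα0
  set ε1 : ℝ := ε / (64 * M) with hε1
  have hε10 : 0 < ε1 := by positivity
  obtain ⟨T8, hT8⟩ := (Real.tendsto_log_atTop.eventually_ge_atTop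
    (max (max 1 (64 * M * Cq / ε)) (max (64 * M * μ / ε) (max (32 * K / ε) (μ / ε1))))).exists_forall_of_atTop
  refine ⟨δ2, hδ2, max (max T5 T6) (max T7 T8),
    hT5.trans ((le_max_left _ _).trans (le_max_left _ _)),
    fun T hT H hH hHT p q hp hq hU => ?_⟩
  have hTT5 : T5 ≤ T := ((le_max_left _ _).trans (le_max_left _ _)).trans hT
  have hTT6 : T6 ≤ T := ((le_max_right _ _).trans (le_max_left _ _)).trans hT
  have hTT7 : T7 ≤ T := ((le_max_left _ _).trans (le_max_right _ _)).trans hT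
  have hTT8 : T8 ≤ T := ((le_max_right _ _).trans (le_max_right _ _)).trans hT
  have hT10 : 10 ≤ T := hT5.trans hTT5
  have hLbig := hT8 T hTT8
  set L := Real.log T with hL
  have hL1 : 1 ≤ L := ((le_max_left _ _).trans (le_max_left _ _)).trans hLbig
  have hLC : 64 * M * Cq / ε ≤ L := ((le_max_right _ _).trans (le_max_left _ _)).trans hLbig
  have hLM : 64 * M * μ / ε ≤ L := ((le_max_left _ _).trans (le_max_right _ _)).trans hLbig
  have hLK : 32 * K / ε ≤ L :=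
    (((le_max_left _ _).trans (le_max_right _ _)).trans (le_max_right _ _)).trans hLbig
  have hLμ : μ / ε1 ≤ L :=
    (((le_max_right _ _).trans (le_max_right _ _)).trans (le_max_right _ _)).trans hLbig
  rw [div_le_iff₀ hε] at hLC hLM hLK
  rw [div_le_iff₀ hε10] at hLμ
  have hL0 : 0 < L := by linarith
  have hH0 : 0 < H := lt_of_lt_of_le (Real.exp_pos _) hH
  have hpq : 0 < q - p := lt_of_lt_of_le (Real.exp_pos _) hU
  set A := α0 * L with hA
  set B := μ * L with hB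
  have hA0 : 0 ≤ A := by positivity
  have hAB : A ≤ B := by rw [hA, hB]; gcongr
  have hB4 : B ≤ 4 * L := by rw [hB]; gcongr
  -- the mean square
  set S : ℝ := T * (q - p) * H ^ 2 * Real.exp (-(δ2 * L)) with hS
  set G : ℝ × ℝ → ℝ := GG2 a (4 * L) L (H - L) A B with hG
  have hGc : Continuous G := GG2_cont ha _ _ _ _ _
  have hG0 : ∀ z, 0 ≤ G z := fun z => GG2_nonneg _ _ _ hAB z
  have hGint : ∫ t in T..(2 * T), ∫ u in p..q, G (t, u) ≤ (B - A) * S := by
    have h1 := fub3 (f := fun z : ℝ × ℝ × ℝ => ‖Dc a (4 * L) L (H - L) z‖ ^ 2)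
      ((Dc_cont ha (4 * L) L (H - L)).norm.pow 2) (T1 := T) (T2 := 2 * T) (u0 := p) (u1 := q)
      (S := S) hAB
    refine h1 fun x hx => ?_
    have h2 := hms T hTT5 H hH hHT p q hp hq hU x hx.1 hx.2
    refine le_trans (le_of_eq ?_) h2
    refine intervalIntegral.integral_congr fun t _ => ?_
    refine intervalIntegral.integral_congr fun u _ => ?_
    show ‖Dc a (4 * L) L (H - L) (x, t, u)‖ ^ 2 = ‖Dp a (t + L) (t + (H - L)) x u‖ ^ 2
    rw [Dp_eq (hx.2.trans hB4)]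
  set y : ℝ := (ε1 * H * L ^ 2) ^ 2 / (μ * L) with hy
  have hy0 : 0 < y := by positivity
  have hmk := markov2 hGc hG0 (T1 := T) (T2 := 2 * T) (by linarith) (by linarith : p ≤ q) hy0
  refine (measure_mono (fun z hz' => ?_)).trans (hmk.trans (ENNReal.ofReal_le_ofReal ?_))
  · obtain ⟨⟨hz1, hz2⟩, ⟨hn1, hn2⟩, hbad⟩ := hz'
    refine ⟨⟨by linarith [hz1.1], hz1.2⟩, hz2, ?_⟩
    by_contra hcon
    push Not at hcon
    apply hbad
    obtain ⟨t, u⟩ := z
    simp only at hz1 hz2 hn1 hn2 hcon ⊢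
    have hu0 : 0 ≤ u := hp.trans hz2.1
    have htu : t + u + H ≤ 16 * T - 1 := by linarith [hz1.2, hz2.2]
    have ht1 : 1 ≤ t := by linarith [hz1.1]
    have hred := psi_red hF hψ hK hlip hz hμ hMb (t := t) (H := H) (u := u) (T := T) ht1
      (by linarith) hH0 (by linarith)
    rw [← hL] at hred
    refine hred.trans ?_
    have m1 := hQs6 T hTT6 t H u hz1.1 hu0 htu hH hn1 hn2
    rw [← hL, ← hA] at m1
    have hQc := Qu_cont F T t H u
    have hsplit : ∫ x in (0 : ℝ)..B, ‖Qu F T t H x u‖ =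
        (∫ x in (0 : ℝ)..A, ‖Qu F T t H x u‖) + ∫ x in A..B, ‖Qu F T t H x u‖ :=
      (intervalIntegral.integral_add_adjacent_intervals (hQc.norm.intervalIntegrable _ _)
        (hQc.norm.intervalIntegrable _ _)).symm
    have hDcx : Continuous fun x : ℝ => Dc a (4 * L) L (H - L) (x, t, u) :=
      (Dc_cont ha (4 * L) L (H - L)).comp (by fun_prop : Continuous fun x : ℝ => (x, t, u))
    have m2 : ∫ x in A..B, ‖Qu F T t H x u‖ ≤
        ∫ x in A..B, (‖Dc a (4 * L) L (H - L) (x, t, u)‖ + H * Real.exp (-(δ1 * L))) := by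
      refine intervalIntegral.integral_mono_on hAB (hQc.norm.intervalIntegrable _ _)
        ((hDcx.norm.add continuous_const).intervalIntegrable _ _) fun x hx => ?_
      have h1 := hQl T hTT7 t H u hz1.1 hu0 htu hH hn1 hn2 x hx.1 (hx.2.trans hB4)
      rw [← hL, show t + H - L = t + (H - L) by ring, Dp_eq (hx.2.trans hB4)] at h1
      exact h1
    rw [intervalIntegral.integral_add (hDcx.norm.intervalIntegrable _ _)
      (continuous_const.intervalIntegrable _ _), intervalIntegral.integral_const, smul_eq_mul] at m2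
    have m3 := int_sq_le hDcx A B hAB
    have hGz : ∫ x in A..B, ‖Dc a (4 * L) L (H - L) (x, t, u)‖ ^ 2 = G (t, u) := rfl
    rw [hGz] at m3
    have m4 : ∫ x in A..B, ‖Dc a (4 * L) L (H - L) (x, t, u)‖ ≤ ε1 * H * L ^ 2 := by
      have h1 : (∫ x in A..B, ‖Dc a (4 * L) L (H - L) (x, t, u)‖) ^ 2 ≤ (ε1 * H * L ^ 2) ^ 2 := by
        refine m3.trans ?_
        have h2 : (B - A) * G (t, u) ≤ B * y := by
          have h3 := hG0 (t, u)
          have h4 : B - A ≤ B := by linarith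
          have h5 : 0 ≤ B := by linarith
          calc _ ≤ B * G (t, u) := by gcongr
            _ ≤ B * y := by gcongr
        refine h2.trans (le_of_eq ?_)
        rw [hB, hy]
        field_simp
      exact le_of_sq_le_sq h1 (by positivity)
    have m5 : (B - A) * (H * Real.exp (-(δ1 * L))) ≤ μ * L * H := by
      have h1 : Real.exp (-(δ1 * L)) ≤ 1 := Real.exp_le_one_iff.2 (by
        have : 0 ≤ δ1 * L := by positivity
        linarith)
      calc (B - A) * (H * Real.exp (-(δ1 * L))) ≤ B * (H * 1) := by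
            gcongr
            linarith
        _ = _ := by rw [hB]; ring
    have hI : 8 * M / (H * L ^ 2) * (∫ x in (0 : ℝ)..B, ‖Qu F T t H x u‖) ≤ ε / 2 := by
      have h1 : (∫ x in (0 : ℝ)..B, ‖Qu F T t H x u‖) ≤
          Cq * (H * (L + α0 ^ 2 * L ^ 2)) + (ε1 * H * L ^ 2 + μ * L * H) := by
        rw [hsplit]
        linarith
      calc 8 * M / (H * L ^ 2) * (∫ x in (0 : ℝ)..B, ‖Qu F T t H x u‖) ≤
          8 * M / (H * L ^ 2) * (Cq * (H * (L + α0 ^ 2 * L ^ 2)) +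
            (ε1 * H * L ^ 2 + μ * L * H)) := by gcongr
        _ = 8 * M * Cq / L + 8 * M * Cq * α0 ^ 2 + 8 * M * ε1 + 8 * M * μ / L := by
            field_simp
            ring
        _ ≤ ε / 8 + ε / 8 + ε / 8 + ε / 8 := by
            have g1 : 8 * M * Cq / L ≤ ε / 8 := by
              rw [div_le_iff₀ hL0]; linarith
            have g2 : 8 * M * μ / L ≤ ε / 8 := by
              rw [div_le_iff₀ hL0]; linarith
            have g3 : 8 * M * ε1 = ε / 8 := by
              rw [hε1]; field_simp; norm_num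
            linarith
        _ = ε / 2 := by ring
    have hKL : 4 * K / L ≤ ε / 8 := by
      rw [div_le_iff₀ hL0]; linarith
    linarith
  · rw [div_le_iff₀ hy0]
    have hS0 : 0 ≤ S := by rw [hS]; have : 0 ≤ T := by linarith
                           positivity
    have f1 : (∫ t in T..(2 * T), ∫ u in p..q, G (t, u)) ≤ B * S := by
      refine hGint.trans ?_
      have : B - A ≤ B := by linarith
      gcongr
    refine f1.trans ?_
    rw [hS, hB, hy]
    have f2 : μ * L * H ^ 2 ≤ (ε1 * H * L ^ 2) ^ 2 / (μ * L) := by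
      rw [le_div_iff₀ (by positivity)]
      have h1 : μ * μ ≤ (L * ε1) * (L * ε1) := by gcongr
      calc μ * L * H ^ 2 * (μ * L) = (μ * μ) * (H ^ 2 * L ^ 2) := by ring
        _ ≤ ((L * ε1) * (L * ε1)) * (H ^ 2 * L ^ 2) := by gcongr
        _ = _ := by ring
    have f3 : 0 ≤ T * (q - p) * Real.exp (-(δ2 * L)) := by
      have : 0 ≤ T := by linarith
      positivity
    calc μ * L * (T * (q - p) * H ^ 2 * Real.exp (-(δ2 * L))) =
        (T * (q - p) * Real.exp (-(δ2 * L))) * (μ * L * H ^ 2) := by ring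
      _ ≤ (T * (q - p) * Real.exp (-(δ2 * L))) * ((ε1 * H * L ^ 2) ^ 2 / (μ * L)) := by gcongr

end Pool.Agent.W2helper69.U
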