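import Pool.Agent.W2helper69.U.Outer

/-! The pair sum at distance `u`, without any hypothesis on the real parts of the zeros. -/

set_option autoImplicit false

open Complex Filter Topology Set MeasureTheory
open scoped BigOperators ComplexConjugate

namespace Pool.Agent.W2helper69.U

open H370 H370.A2 H370.AS H370.SI Pool.Agent.W2helper69.PS

/-- the sum over the pairs of zeros `s`, `s'` with ordinates in `(A, B]` and `(A', B']` of
`exp (x (s' - s - i u)) exp ((s' - s - i u)² / 4)` -/
noncomputable def cu (F : ℂ → ℂ) (A B A' B' x u : ℝ) : ℂ :=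
  ∑ s ∈ Zf F A B, ∑ s' ∈ Zf F A' B', (mult F s : ℂ) * (mult F s' : ℂ) *
    (cexp (I * x * (zz s' - zz s - u)) * cexp (-(zz s' - zz s - u) ^ 2 / 4))

lemma cu_cont (F : ℂ → ℂ) (A B A' B' u : ℝ) : Continuous fun x : ℝ => cu F A B A' B' x u := by
  unfold cu
  fun_prop

section zeros

variable {F : ℂ → ℂ} (hF : GoodL F)

include hF in
lemma conj_AAu {A B : ℝ} (hA : 1 ≤ A) (x v : ℝ) :
    conj (AA F A B x v) = ∑ s ∈ Zf F A B, (mult F s : ℂ) *
      (cexp (-(I * x * zz s)) * cexp (-(zz s - v) ^ 2 / 2)) := by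
  rw [AA_eq hF hA, map_sum, ← sum_refl hF hA (fun s => (mult F s : ℂ) *
      (cexp (-(I * x * zz s)) * cexp (-(zz s - v) ^ 2 / 2)))]
  refine Finset.sum_congr rfl fun s hs => ?_
  rw [mem_Zf hF hA] at hs
  rw [map_mul, hh_conj, Complex.conj_natCast]
  rw [zz_refl, mult_refl hF hs.1 hs.2.1 (by linarith [hs.2.2.1])]

include hF in
theorem corrU_id {A B A' B' : ℝ} (hA : 1 ≤ A) (hA' : 1 ≤ A') (x u : ℝ) :
    Integrable (fun v : ℝ => conj (AA F A B x v) * AA F A' B' x (v + u)) ∧
    ∫ v : ℝ, conj (AA F A B x v) * AA F A' B' x (v + u) =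
      (Real.sqrt Real.pi : ℂ) * cexp (I * x * u) * cu F A B A' B' x u := by
  have h1 : ∀ v : ℝ, conj (AA F A B x v) * AA F A' B' x (v + u) =
      ∑ s ∈ Zf F A B, ∑ s' ∈ Zf F A' B', (mult F s : ℂ) * (mult F s' : ℂ) *
        (cexp (I * x * (zz s' - zz s)) *
        (cexp (-(zz s - v) ^ 2 / 2) * cexp (-((zz s' - u) - v) ^ 2 / 2))) := by
    intro v
    rw [conj_AAu hF hA, AA_eq hF hA', Finset.sum_mul_sum]
    refine Finset.sum_congr rfl fun s _ => Finset.sum_congr rfl fun s' hs' => ?_
    rw [hh_eq]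
    have e1 : cexp (I * x * (zz s' - zz s)) =
        cexp (-(I * x * zz s)) * cexp (I * x * zz s') := by
      rw [← Complex.exp_add]
      congr 1
      ring
    have e2 : -(zz s' - ((v + u : ℝ) : ℂ)) ^ 2 / 2 = -((zz s' - u) - v) ^ 2 / 2 := by
      push_cast
      ring
    rw [e1, e2]
    ring
  simp_rw [h1]
  refine ⟨integrable_finsetSum _ fun s _ => integrable_finsetSum _ fun s' _ =>
    ((gauss_pair_int _ _).const_mul _).const_mul _, ?_⟩
  rw [integral_finsetSum]
  · unfold cu
    rw [Finset.mul_sum]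
    refine Finset.sum_congr rfl fun s _ => ?_
    rw [integral_finsetSum]
    · rw [Finset.mul_sum]
      refine Finset.sum_congr rfl fun s' _ => ?_
      rw [integral_const_mul, integral_const_mul, gauss_pair]
      have e1 : cexp (I * x * (zz s' - zz s)) =
          cexp (I * x * u) * cexp (I * x * (zz s' - zz s - u)) := by
        rw [← Complex.exp_add]
        congr 1
        ring
      have e2 : -(zz s - (zz s' - u)) ^ 2 / 4 = -(zz s' - zz s - u) ^ 2 / 4 := by
        ring
      rw [e1, e2]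
      ring
    · intro s' _
      exact ((gauss_pair_int _ _).const_mul _).const_mul _
  · intro s _
    refine integrable_finsetSum _ fun s' _ => ?_
    exact ((gauss_pair_int _ _).const_mul _).const_mul _

include hF in
lemma cu_neg {A B A' B' : ℝ} (hA : 1 ≤ A) (hA' : 1 ≤ A') (x u : ℝ) :
    cu F A B A' B' (-x) u = conj (cu F A B A' B' x u) := by
  unfold cu
  rw [map_sum, ← sum_refl hF hA]
  refine Finset.sum_congr rfl fun s hs => ?_
  rw [mem_Zf hF hA] at hs
  rw [map_sum, ← sum_refl hF hA']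
  refine Finset.sum_congr rfl fun s' hs' => ?_
  rw [mem_Zf hF hA'] at hs'
  rw [zz_refl, zz_refl, mult_refl hF hs.1 hs.2.1 (by linarith [hs.2.2.1]),
    mult_refl hF hs'.1 hs'.2.1 (by linarith [hs'.2.2.1]), map_mul, map_mul, map_mul,
    Complex.conj_natCast, Complex.conj_natCast, ← Complex.exp_conj, ← Complex.exp_conj]
  congr 2
  · congr 1
    simp
  · congr 1
    simp only [map_div₀, map_neg, map_pow, map_sub, Complex.conj_ofReal, Complex.conj_ofNat]

/-- the shifted outer integral -/
lemma outer_shift (g : ℝ → ℝ) (p q u : ℝ) :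
    ∫ v in (Set.Icc p q)ᶜ, g (v + u) = ∫ v in (Set.Icc (p + u) (q + u))ᶜ, g v := by
  have h := (measurePreserving_add_right volume u).setIntegral_preimage_emb
    (MeasurableEquiv.addRight u).measurableEmbedding g (Set.Icc (p + u) (q + u))ᶜ
  rw [← h]
  congr 2
  ext v
  simp

end zeros

end Pool.Agent.W2helper69.U
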