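import Pool.Agent.W2helper69.U.Form
import Pool.Agent.H345R2.A2.Main2

/-! The exceptional set coming from the zeros far from the line. -/

set_option autoImplicit false

open Complex Filter Topology Set MeasureTheory
open scoped BigOperators ComplexConjugate

namespace Pool.Agent.W2helper69.U

open H370 H370.A2 H370.AS H370.SI Pool.Agent.W2helper69.PS

theorem bad_set {F : ℂ → ℂ} {τ : ℝ} (hB : BZt F τ) : ∃ δ : ℝ, 0 < δ ∧ δ ≤ 1 ∧ ∃ T0 : ℝ, 10 ≤ T0 ∧
    ∀ T : ℝ, T0 ≤ T → ∃ N : Set ℝ, MeasurableSet N ∧ volume N ≤ ENNReal.ofReal (T ^ (1 - δ)) ∧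
      ∀ v : ℝ, v ∈ Set.Icc T (8 * T) → v ∉ N → ∀ s : ℂ, F s = 0 → s.re < 1 →
        |s.im - v| ≤ 3 * Real.log T → s.re ≤ 1 / 2 + τ := by
  obtain ⟨δ0, hδ0, T1, h⟩ := hB
  set δ := min δ0 1 / 2 with hδd
  have hδ : 0 < δ := by rw [hδd]; have := lt_min hδ0 one_pos; positivity
  have hδ1 : δ ≤ 1 := by rw [hδd]; have := min_le_right δ0 1; linarith
  have hδδ : 2 * δ ≤ δ0 := by rw [hδd]; have := min_le_left δ0 1; linarith
  obtain ⟨T2, hT2⟩ := ((tendsto_rpow_atTop hδ).eventually_ge_atTop 12).exists_forall_of_atTop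
  refine ⟨δ, hδ, hδ1, max 10 (max T1 T2), le_max_left _ _, fun T hT => ?_⟩
  have hT10 : 10 ≤ T := (le_max_left _ _).trans hT
  have hTT1 : T1 ≤ T := ((le_max_left _ _).trans (le_max_right _ _)).trans hT
  have hTT2 : T2 ≤ T := ((le_max_right _ _).trans (le_max_right _ _)).trans hT
  have hT0 : 0 < T := by linarith
  set S : ℝ → Set ℝ := fun T' => {t : ℝ | t ∈ Set.Icc T' (2 * T') ∧ ∃ s : ℂ, F s = 0 ∧
    1 / 2 + τ < s.re ∧ s.re < 1 ∧
    (|s.im - t| ≤ 3 * Real.log T' ∨ |s.im - (t + 0)| ≤ 3 * Real.log T')} with hS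
  have hSm : ∀ T' : ℝ, T ≤ T' → T' ≤ 4 * T → volume (S T') ≤ ENNReal.ofReal (4 * T ^ (1 - 2 * δ)) := by
    intro T' h1 h2
    refine (h T' (hTT1.trans h1) 0 le_rfl (by linarith)).trans (ENNReal.ofReal_le_ofReal ?_)
    have hT'1 : 1 ≤ T' := by linarith
    calc T' ^ (1 - δ0) ≤ T' ^ (1 - 2 * δ) := Real.rpow_le_rpow_of_exponent_le hT'1 (by linarith)
      _ ≤ (4 * T) ^ (1 - 2 * δ) := by
          apply Real.rpow_le_rpow (by linarith) h2
          rw [hδd]; have := min_le_right δ0 1; linarith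
      _ = 4 ^ (1 - 2 * δ) * T ^ (1 - 2 * δ) := Real.mul_rpow (by norm_num) hT0.le
      _ ≤ 4 * T ^ (1 - 2 * δ) := by
          have h3 : (4 : ℝ) ^ (1 - 2 * δ) ≤ 4 ^ (1 : ℝ) :=
            Real.rpow_le_rpow_of_exponent_le (by norm_num) (by linarith)
          rw [Real.rpow_one] at h3
          have := Real.rpow_nonneg hT0.le (1 - 2 * δ)
          gcongr
  refine ⟨toMeasurable volume (S T) ∪ (toMeasurable volume (S (2 * T)) ∪
    toMeasurable volume (S (4 * T))), ?_, ?_, ?_⟩
  · exact (measurableSet_toMeasurable _ _).union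
      ((measurableSet_toMeasurable _ _).union (measurableSet_toMeasurable _ _))
  · have h1 := hSm T le_rfl (by linarith)
    have h2 := hSm (2 * T) (by linarith) (by linarith)
    have h3 := hSm (4 * T) (by linarith) le_rfl
    have hnn : 0 ≤ 4 * T ^ (1 - 2 * δ) := by positivity
    calc _ ≤ volume (toMeasurable volume (S T)) + (volume (toMeasurable volume (S (2 * T))) +
          volume (toMeasurable volume (S (4 * T)))) :=
          (measure_union_le _ _).trans (add_le_add le_rfl (measure_union_le _ _))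
      _ ≤ ENNReal.ofReal (4 * T ^ (1 - 2 * δ)) + (ENNReal.ofReal (4 * T ^ (1 - 2 * δ)) +
          ENNReal.ofReal (4 * T ^ (1 - 2 * δ))) := by
          rw [measure_toMeasurable, measure_toMeasurable, measure_toMeasurable]
          exact add_le_add h1 (add_le_add h2 h3)
      _ = ENNReal.ofReal (12 * T ^ (1 - 2 * δ)) := by
          rw [← ENNReal.ofReal_add hnn hnn, ← ENNReal.ofReal_add hnn (by positivity)]
          congr 1; ring
      _ ≤ ENNReal.ofReal (T ^ (1 - δ)) := by
          apply ENNReal.ofReal_le_ofReal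
          have h4 := hT2 T hTT2
          calc 12 * T ^ (1 - 2 * δ) ≤ T ^ δ * T ^ (1 - 2 * δ) := by gcongr
            _ = T ^ (1 - δ) := by rw [← Real.rpow_add hT0]; congr 1; ring
  · intro v hv hvN s hs0 hs1 hsv
    by_contra hcon
    push Not at hcon
    apply hvN
    have hlog : ∀ T' : ℝ, T ≤ T' → 3 * Real.log T ≤ 3 * Real.log T' := by
      intro T' hT'
      have := Real.log_le_log hT0 hT'
      linarith
    rcases le_or_gt v (2 * T) with h1 | h1
    · left
      apply subset_toMeasurable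
      exact ⟨⟨hv.1, h1⟩, s, hs0, hcon, hs1, Or.inl hsv⟩
    · right
      rcases le_or_gt v (4 * T) with h2 | h2
      · left
        apply subset_toMeasurable
        exact ⟨⟨h1.le, by linarith⟩, s, hs0, hcon, hs1, Or.inl (hsv.trans (hlog _ (by linarith)))⟩
      · right
        apply subset_toMeasurable
        exact ⟨⟨h2.le, by linarith [hv.2]⟩, s, hs0, hcon, hs1,
          Or.inl (hsv.trans (hlog _ (by linarith)))⟩

lemma near_of {F : ℂ → ℂ} {τ T : ℝ} {N : Set ℝ} (hL : 0 ≤ Real.log T)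
    (hN : ∀ v : ℝ, v ∈ Set.Icc T (8 * T) → v ∉ N → ∀ s : ℂ, F s = 0 → s.re < 1 →
        |s.im - v| ≤ 3 * Real.log T → s.re ≤ 1 / 2 + τ) {A B : ℝ} (hA : A ∈ Set.Icc T (8 * T))
    (hB : B ∈ Set.Icc T (8 * T)) (hAN : A ∉ N) (hBN : B ∉ N) :
    Near F τ (Real.log T) A B := by
  intro s hs hend
  obtain ⟨h1, h2, h3, h4, h5⟩ := hs
  rcases hend with h | h
  · refine hN A hA hAN s h5 h2 ?_
    rw [abs_le]; constructor <;> linarith
  · refine hN B hB hBN s h5 h2 ?_
    rw [abs_le]; constructor <;> linarith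

/-- the plane measure of a sheared strip -/
lemma vol_shear {N : Set ℝ} (hN : MeasurableSet N) {c : ℝ → ℝ} (hc : Measurable c) (p q : ℝ) :
    volume {z : ℝ × ℝ | z.2 ∈ Set.Icc p q ∧ z.1 + c z.2 ∈ N} ≤
      volume N * ENNReal.ofReal (q - p) := by
  have hmeas : MeasurableSet {z : ℝ × ℝ | z.2 ∈ Set.Icc p q ∧ z.1 + c z.2 ∈ N} := by
    apply MeasurableSet.inter
    · exact measurable_snd measurableSet_Icc
    · exact (measurable_fst.add (hc.comp measurable_snd)) hN
  rw [Measure.volume_eq_prod, Measure.prod_apply_symm hmeas]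
  calc ∫⁻ y : ℝ, volume ((fun x : ℝ => (x, y)) ⁻¹'
        {z : ℝ × ℝ | z.2 ∈ Set.Icc p q ∧ z.1 + c z.2 ∈ N})
      ≤ ∫⁻ y : ℝ, (Set.Icc p q).indicator (fun _ => volume N) y := by
        apply lintegral_mono
        intro y
        simp only
        by_cases hy : y ∈ Set.Icc p q
        · rw [Set.indicator_of_mem hy]
          have h1 : (fun x : ℝ => (x, y)) ⁻¹' {z : ℝ × ℝ | z.2 ∈ Set.Icc p q ∧ z.1 + c z.2 ∈ N} =
              (fun x : ℝ => x + c y) ⁻¹' N := by
            ext x
            simp only [Set.mem_preimage, Set.mem_ofPred_eq]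
            exact ⟨fun h => h.2, fun h => ⟨hy, h⟩⟩
          rw [h1, measure_preimage_add_right]
        · rw [Set.indicator_of_notMem hy]
          have h1 : (fun x : ℝ => (x, y)) ⁻¹' {z : ℝ × ℝ | z.2 ∈ Set.Icc p q ∧ z.1 + c z.2 ∈ N} =
              ∅ := by
            ext x
            simp only [Set.mem_preimage, Set.mem_ofPred_eq, Set.mem_empty_iff_false, iff_false]
            exact fun h => hy h.1
          rw [h1, measure_empty]
    _ = volume N * ENNReal.ofReal (q - p) := by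
        rw [lintegral_indicator measurableSet_Icc, lintegral_const, Measure.restrict_apply
          MeasurableSet.univ, Set.univ_inter, Real.volume_Icc]

end Pool.Agent.W2helper69.U
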