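import Pool.Agent.W2helper69.U.Core
import Pool.Agent.W2helper69.U.Edge

/-! The smooth pair sum at almost all distances. -/

set_option autoImplicit false

open Complex Filter Topology Set MeasureTheory
open scoped BigOperators ComplexConjugate

namespace Pool.Agent.W2helper69.U

open H370 H370.A2 H370.AS H370.SI Pool.Agent.W2helper69.PS

theorem finU {F : ℂ → ℂ} (hF : GoodL F) {a : ℕ → ℂ}
    (ha : ∀ n, ‖a n‖ ≤ ArithmeticFunction.vonMangoldt n)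
    (hld : ∀ s : ℂ, 1 < s.re → 1 ≤ s.im → deriv F s / F s = - ∑' n : ℕ, a n * (n : ℂ) ^ (-s))
    {τ : ℝ} (hτ : 0 ≤ τ) (hB : BZt F τ) (η c μ ε : ℝ) (hη : 0 < η) (hη1 : η ≤ 1)
    (hτη : 16 * τ ≤ η) (hμ : 0 < μ) (hμ4 : μ ≤ 4) (hMS : MSH a η c μ) (hε : 0 < ε)
    (ψ : ℝ → ℝ) (hψ : Continuous ψ) (hz : ∀ x, μ ≤ |x| → ψ x = 0) :
    ∃ δ : ℝ, 0 < δ ∧ ∃ T0 : ℝ, 10 ≤ T0 ∧ ∀ T : ℝ, T0 ≤ T → ∀ H : ℝ, T ^ η ≤ H → H ≤ T →
      ∀ p q : ℝ, 0 ≤ p → q ≤ T → T ^ c ≤ q - p →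
      volume {z : ℝ × ℝ | z.1 ∈ Set.Icc T (2 * T) ∧ z.2 ∈ Set.Icc p q ∧
        ε < ‖(∫ α in (-μ)..μ, (ψ α : ℂ) * FN F z.1 H z.2 T α) - (ψ 0 : ℂ)‖} ≤
        ENNReal.ofReal ((q - p) * T ^ (1 - δ)) := by
  obtain ⟨δ2, hδ2, T1, hT1, hcore⟩ := coreU hF ha hld hτ η c μ ε hη hη1 hτη hμ hμ4 hMS hε ψ hψ hz
  obtain ⟨δ3, hδ3, hδ31, T2, hT2, hbad⟩ := bad_set hB
  set δ : ℝ := min δ2 δ3 / 2 with hδd
  have hδ : 0 < δ := by rw [hδd]; have := lt_min hδ2 hδ3; positivity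
  have d2 : 2 * δ ≤ δ2 := by rw [hδd]; have := min_le_left δ2 δ3; linarith
  have d3 : 2 * δ ≤ δ3 := by rw [hδd]; have := min_le_right δ2 δ3; linarith
  obtain ⟨T3, hT3⟩ := ((tendsto_rpow_atTop hδ).eventually_ge_atTop 6).exists_forall_of_atTop
  refine ⟨δ, hδ, max T1 (max T2 T3), hT1.trans (le_max_left _ _),
    fun T hT H hH hHT p q hp hq hU => ?_⟩
  have hTT1 : T1 ≤ T := (le_max_left _ _).trans hT
  have hTT2 : T2 ≤ T := ((le_max_left _ _).trans (le_max_right _ _)).trans hT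
  have hTT3 : T3 ≤ T := ((le_max_right _ _).trans (le_max_right _ _)).trans hT
  have hT10 : 10 ≤ T := hT1.trans hTT1
  have hT0 : 0 < T := by linarith
  have hexp : ∀ b : ℝ, Real.exp (b * Real.log T) = T ^ b := fun b => by
    rw [Real.rpow_def_of_pos hT0, mul_comm]
  obtain ⟨N, hNm, hNv, hN⟩ := hbad T hTT2
  have hcr := hcore T hTT1 H (by rw [hexp]; exact hH) hHT p q hp hq (by rw [hexp]; exact hU)
  have hL0 : 0 ≤ Real.log T := Real.log_nonneg (by linarith)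
  have hH0 : 0 ≤ H := (Real.rpow_nonneg hT0.le _).trans hH
  have hqp : 0 ≤ q - p := (Real.rpow_nonneg hT0.le _).trans hU
  set S0 : Set (ℝ × ℝ) := Set.Icc T (T + 1) ×ˢ Set.Icc p q with hS0
  set Sc : (ℝ → ℝ) → Set (ℝ × ℝ) := fun c => {z : ℝ × ℝ | z.2 ∈ Set.Icc p q ∧ z.1 + c z.2 ∈ N}
    with hSc
  set Q : Set (ℝ × ℝ) := {z : ℝ × ℝ | (z.1 ∈ Set.Icc (T + 1) (2 * T) ∧ z.2 ∈ Set.Icc p q) ∧
        (Near F τ (Real.log T) z.1 (z.1 + H) ∧
          Near F τ (Real.log T) (z.1 + z.2) (z.1 + z.2 + H)) ∧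
        ¬ (‖(∫ α in (-μ)..μ, (ψ α : ℂ) * FN F z.1 H z.2 T α) - (ψ 0 : ℂ)‖ ≤ ε)} with hQ
  have hsub : {z : ℝ × ℝ | z.1 ∈ Set.Icc T (2 * T) ∧ z.2 ∈ Set.Icc p q ∧
        ε < ‖(∫ α in (-μ)..μ, (ψ α : ℂ) * FN F z.1 H z.2 T α) - (ψ 0 : ℂ)‖} ⊆
      S0 ∪ ((Sc (fun _ => 0) ∪ Sc (fun _ => H)) ∪ ((Sc (fun u => u) ∪ Sc (fun u => u + H)) ∪ Q)) := by
    rintro z ⟨hz1, hz2, hz3⟩
    by_cases h0 : z.1 ≤ T + 1
    · exact Or.inl ⟨⟨hz1.1, h0⟩, hz2⟩
    push Not at h0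
    right
    by_cases h1 : z.1 + 0 ∈ N
    · exact Or.inl (Or.inl ⟨hz2, h1⟩)
    by_cases h2 : z.1 + H ∈ N
    · exact Or.inl (Or.inr ⟨hz2, h2⟩)
    right
    by_cases h3 : z.1 + z.2 ∈ N
    · exact Or.inl (Or.inl ⟨hz2, h3⟩)
    by_cases h4 : z.1 + (z.2 + H) ∈ N
    · exact Or.inl (Or.inr ⟨hz2, h4⟩)
    right
    have e0 : z.1 + 0 = z.1 := add_zero _
    have e4 : z.1 + (z.2 + H) = z.1 + z.2 + H := by ring
    rw [e0] at h1
    rw [e4] at h4
    have i1 : z.1 ∈ Set.Icc T (8 * T) := ⟨hz1.1, by linarith [hz1.2]⟩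
    have i2 : z.1 + H ∈ Set.Icc T (8 * T) := ⟨by linarith [hz1.1], by linarith [hz1.2]⟩
    have i3 : z.1 + z.2 ∈ Set.Icc T (8 * T) :=
      ⟨by linarith [hz1.1, hz2.1], by linarith [hz1.2, hz2.2]⟩
    have i4 : z.1 + z.2 + H ∈ Set.Icc T (8 * T) :=
      ⟨by linarith [hz1.1, hz2.1], by linarith [hz1.2, hz2.2]⟩
    exact ⟨⟨⟨h0.le, hz1.2⟩, hz2⟩, ⟨near_of hL0 hN i1 i2 h1 h2, near_of hL0 hN i3 i4 h3 h4⟩,
      not_le.2 hz3⟩
  have v0 : volume S0 ≤ ENNReal.ofReal (q - p) := by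
    rw [hS0, Measure.volume_eq_prod, Measure.prod_prod, Real.volume_Icc, Real.volume_Icc]
    have : T + 1 - T = 1 := by ring
    rw [this, ENNReal.ofReal_one, one_mul]
  have vc : ∀ c : ℝ → ℝ, Measurable c → volume (Sc c) ≤ ENNReal.ofReal ((q - p) * T ^ (1 - δ3)) := by
    intro c hc
    refine (vol_shear hNm hc p q).trans ?_
    rw [mul_comm (q - p), ENNReal.ofReal_mul (Real.rpow_nonneg hT0.le _)]
    gcongr
  have c1 := vc (fun _ => 0) measurable_const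
  have c2 := vc (fun _ => H) measurable_const
  have c3 := vc (fun u => u) measurable_id
  have c4 := vc (fun u => u + H) (measurable_id.add_const H)
  have hb : T ^ (1 - δ3) ≤ T ^ (1 - 2 * δ) :=
    Real.rpow_le_rpow_of_exponent_le (by linarith) (by linarith)
  have hb2 : T * Real.exp (-(δ2 * Real.log T)) ≤ T ^ (1 - 2 * δ) := by
    have e1 : Real.exp (-(δ2 * Real.log T)) = T ^ (-δ2) := by rw [← hexp]; congr 1; ring
    rw [e1]
    calc T * T ^ (-δ2) = T ^ (1 - δ2) := by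
          rw [sub_eq_add_neg, Real.rpow_add hT0, Real.rpow_one]
      _ ≤ _ := Real.rpow_le_rpow_of_exponent_le (by linarith) (by linarith)
  have hone : 1 ≤ T ^ (1 - 2 * δ) := by
    apply Real.one_le_rpow (by linarith)
    linarith
  set W := T ^ (1 - 2 * δ) with hW
  have hW0 : 0 ≤ (q - p) * W := by positivity
  have u0 : volume S0 ≤ ENNReal.ofReal ((q - p) * W) := v0.trans (ENNReal.ofReal_le_ofReal (by
    calc q - p = (q - p) * 1 := by ring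
      _ ≤ (q - p) * W := by gcongr))
  have uc : ∀ {x : ENNReal}, x ≤ ENNReal.ofReal ((q - p) * T ^ (1 - δ3)) →
      x ≤ ENNReal.ofReal ((q - p) * W) := fun h => h.trans (ENNReal.ofReal_le_ofReal (by gcongr))
  have uq : volume Q ≤ ENNReal.ofReal ((q - p) * W) := hcr.trans (ENNReal.ofReal_le_ofReal (by
    calc T * (q - p) * Real.exp (-(δ2 * Real.log T)) =
        (q - p) * (T * Real.exp (-(δ2 * Real.log T))) := by ring
      _ ≤ (q - p) * W := by gcongr))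
  calc _ ≤ volume (S0 ∪ ((Sc (fun _ => 0) ∪ Sc (fun _ => H)) ∪
        ((Sc (fun u => u) ∪ Sc (fun u => u + H)) ∪ Q))) := measure_mono hsub
    _ ≤ volume S0 + ((volume (Sc (fun _ => 0)) + volume (Sc (fun _ => H))) +
        ((volume (Sc (fun u => u)) + volume (Sc (fun u => u + H))) + volume Q)) := by
        refine (measure_union_le _ _).trans (add_le_add le_rfl ?_)
        refine (measure_union_le _ _).trans (add_le_add (measure_union_le _ _) ?_)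
        exact (measure_union_le _ _).trans (add_le_add (measure_union_le _ _) le_rfl)
    _ ≤ ENNReal.ofReal ((q - p) * W) + ((ENNReal.ofReal ((q - p) * W) +
          ENNReal.ofReal ((q - p) * W)) + ((ENNReal.ofReal ((q - p) * W) +
          ENNReal.ofReal ((q - p) * W)) + ENNReal.ofReal ((q - p) * W))) :=
        add_le_add u0 (add_le_add (add_le_add (uc c1) (uc c2))
          (add_le_add (add_le_add (uc c3) (uc c4)) uq))
    _ = ENNReal.ofReal (6 * ((q - p) * W)) := by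
        rw [← ENNReal.ofReal_add hW0 hW0, ← ENNReal.ofReal_add (by positivity) hW0,
          ← ENNReal.ofReal_add (by positivity) (by positivity),
          ← ENNReal.ofReal_add hW0 (by positivity)]
        congr 1; ring
    _ ≤ ENNReal.ofReal ((q - p) * T ^ (1 - δ)) := by
        apply ENNReal.ofReal_le_ofReal
        have h6 := hT3 T hTT3
        calc 6 * ((q - p) * W) = (q - p) * (6 * W) := by ring
          _ ≤ (q - p) * (T ^ δ * W) := by gcongr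
          _ = (q - p) * T ^ (1 - δ) := by
              rw [hW, ← Real.rpow_add hT0]; congr 2; ring

end Pool.Agent.W2helper69.U
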