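import Pool.Agent.W2helper69.U.Corr
import Pool.Agent.W2helper69.PS.Quad

/-! The pair sum at distance `u` is the main term plus the correlation of the prime sums. -/

set_option autoImplicit false

open Complex Filter Topology Set MeasureTheory
open scoped BigOperators ComplexConjugate

namespace Pool.Agent.W2helper69.U

open H370 H370.A2 H370.AS H370.SI Pool.Agent.W2helper69.PS

/-- the correlation of the prime sums -/
noncomputable def Dp (a : ℕ → ℂ) (v1 v2 x u : ℝ) : ℂ :=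
  ∫ v in v1..v2, conj (H370.PP a x v) * H370.PP a x (v + u)

/-- no zero near the end points is far to the right -/
def Near (F : ℂ → ℂ) (τ L A B : ℝ) : Prop :=
  ∀ s : ℂ, s ∈ zset F A B → (s.im ≤ A + 2 * L ∨ B - 2 * L ≤ s.im) → s.re ≤ 1 / 2 + τ

/-- the smooth approximation to the sum over the zeros -/
noncomputable def Mm (a : ℕ → ℂ) (L x v : ℝ) : ℂ :=
  (1 / Real.sqrt (2 * Real.pi) : ℝ) * ((L : ℂ) * cexp (I * x * v) * Real.exp (-x ^ 2 / 2) -
    H370.PP a x v)

lemma norm_e (x v : ℝ) : ‖cexp (I * x * v)‖ = 1 := by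
  rw [show I * x * (v : ℂ) = ((x * v : ℝ) : ℂ) * I by push_cast; ring,
    Complex.norm_exp_ofReal_mul_I]

lemma Mm_le (a : ℕ → ℂ) {L : ℝ} (hL : 0 ≤ L) (x v : ℝ) :
    ‖Mm a L x v‖ ≤ L * Real.exp (-x ^ 2 / 2) + ‖H370.PP a x v‖ := by
  have hw0 : 0 < 1 / Real.sqrt (2 * Real.pi) := by positivity
  have hw1 : 1 / Real.sqrt (2 * Real.pi) ≤ 1 := by
    rw [div_le_one (by positivity), Real.le_sqrt (by norm_num) (by positivity)]
    have := Real.pi_gt_three
    linarith
  unfold Mm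
  rw [norm_mul, Complex.norm_real, Real.norm_of_nonneg hw0.le]
  have h1 : ‖(L : ℂ) * cexp (I * x * v) * Real.exp (-x ^ 2 / 2) - H370.PP a x v‖ ≤
      L * Real.exp (-x ^ 2 / 2) + ‖H370.PP a x v‖ := by
    refine (norm_sub_le _ _).trans (le_of_eq ?_)
    congr 1
    rw [norm_mul, norm_mul, Complex.norm_real, Complex.norm_real,
      Real.norm_of_nonneg hL, Real.norm_of_nonneg (Real.exp_pos _).le, norm_e, mul_one]
  calc _ ≤ 1 * (L * Real.exp (-x ^ 2 / 2) + ‖H370.PP a x v‖) := by gcongr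
    _ = _ := one_mul _

lemma Mm_cont {a : ℕ → ℂ} (ha : ∀ n, ‖a n‖ ≤ ArithmeticFunction.vonMangoldt n) (L x : ℝ) :
    Continuous fun v : ℝ => Mm a L x v := by
  have := PP_cont ha x
  unfold Mm
  fun_prop

/-- the product of the approximations -/
lemma Mm_mul {a : ℕ → ℂ} (L x u v : ℝ) :
    conj (Mm a L x v) * Mm a L x (v + u) =
      ((1 / (2 * Real.pi) * (L ^ 2 * Real.exp (-x ^ 2)) : ℝ) : ℂ) * cexp (I * x * u) -
      ((1 / (2 * Real.pi) * (L * Real.exp (-x ^ 2 / 2)) : ℝ) : ℂ) *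
        (cexp (-(I * x * v)) * H370.PP a x (v + u) +
          cexp (I * x * ((v + u : ℝ) : ℂ)) * conj (H370.PP a x v)) +
      ((1 / (2 * Real.pi) : ℝ) : ℂ) * (conj (H370.PP a x v) * H370.PP a x (v + u)) := by
  have e0 : cexp (I * x * ((v + u : ℝ) : ℂ)) = cexp (I * x * v) * cexp (I * x * u) := by
    rw [← Complex.exp_add]; congr 1; push_cast; ring
  have e1 : conj (cexp (I * x * v)) = cexp (-(I * x * v)) := by
    rw [← Complex.exp_conj]
    congr 1
    simp
  have e2 : cexp (-(I * x * v)) * cexp (I * x * v) = 1 := by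
    rw [← Complex.exp_add, neg_add_cancel, Complex.exp_zero]
  have e3 : ((1 / Real.sqrt (2 * Real.pi) : ℝ) : ℂ) * ((1 / Real.sqrt (2 * Real.pi) : ℝ) : ℂ) =
      ((1 / (2 * Real.pi) : ℝ) : ℂ) := by
    rw [← Complex.ofReal_mul]
    congr 1
    rw [div_mul_div_comm, one_mul, Real.mul_self_sqrt (by positivity)]
  have e4 : ((Real.exp (-x ^ 2) : ℝ) : ℂ) =
      ((Real.exp (-x ^ 2 / 2) : ℝ) : ℂ) * ((Real.exp (-x ^ 2 / 2) : ℝ) : ℂ) := by
    rw [← Complex.ofReal_mul, ← Real.exp_add]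
    congr 2
    ring
  unfold Mm
  rw [map_mul, Complex.conj_ofReal, map_sub, map_mul, map_mul, Complex.conj_ofReal,
    Complex.conj_ofReal, e1, e0]
  rw [Complex.ofReal_mul (1 / (2 * Real.pi)) (L ^ 2 * Real.exp (-x ^ 2)),
    Complex.ofReal_mul (1 / (2 * Real.pi)) (L * Real.exp (-x ^ 2 / 2)),
    Complex.ofReal_mul (L ^ 2), Complex.ofReal_mul L, Complex.ofReal_pow, e4, ← e3]
  set w : ℂ := ((1 / Real.sqrt (2 * Real.pi) : ℝ) : ℂ)
  set g : ℂ := ((Real.exp (-x ^ 2 / 2) : ℝ) : ℂ)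
  set E := cexp (I * x * v)
  set E' := cexp (-(I * x * v))
  set E2 := cexp (I * x * u)
  linear_combination (w * w * L ^ 2 * g * g * E2) * e2

theorem formulaU {F : ℂ → ℂ} (hF : GoodL F) {a : ℕ → ℂ}
    (ha : ∀ n, ‖a n‖ ≤ ArithmeticFunction.vonMangoldt n)
    (hld : ∀ s : ℂ, 1 < s.re → 1 ≤ s.im → deriv F s / F s = - ∑' n : ℕ, a n * (n : ℂ) ^ (-s))
    {τ : ℝ} (hτ : 0 ≤ τ) :
    ∃ C T0 : ℝ, 0 < C ∧ 10 ≤ T0 ∧ ∀ T : ℝ, T0 ≤ T → ∀ t H u : ℝ, T + 1 ≤ t → 0 ≤ u →
      t + u + H ≤ 16 * T - 1 → 2 * Real.log T ≤ H →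
      Near F τ (Real.log T) t (t + H) → Near F τ (Real.log T) (t + u) (t + u + H) →
      ∀ x : ℝ, 0 ≤ x → x ≤ 4 * Real.log T →
      ‖(Real.sqrt Real.pi : ℂ) * cexp (I * x * u) * cu F t (t + H) (t + u) (t + u + H) x u -
        ((1 / (2 * Real.pi) * (H * ((Real.log T) ^ 2 * Real.exp (-x ^ 2))) : ℝ) : ℂ) *
          cexp (I * x * u)‖ ≤
      ‖Dp a (t + Real.log T) (t + H - Real.log T) x u‖ +
        C * (Real.exp (2 * τ * x) * Real.log T ^ 3 +
          (Real.log T * Real.exp (-x ^ 2 / 2) + Real.exp (-x)) *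
            ((∫ v in (t + Real.log T)..(t + H - Real.log T), ‖H370.PP a x v‖) +
             ∫ v in (t + Real.log T)..(t + H - Real.log T), ‖H370.PP a x (v + u)‖) +
          H * (Real.log T * Real.exp (-x ^ 2 / 2) + 1) * Real.exp (-x)) := by
  obtain ⟨C1, T1, hC1, hT1, hEF⟩ := ef_sub4 hF ha hld
  obtain ⟨C2, T2, hC2, hT2, hout⟩ := outer16 hF hτ
  refine ⟨2 * C2 + 2 * C1 + C1 ^ 2 + 2, max T1 T2, by positivity, hT1.trans (le_max_left _ _),
    fun T hT t H u ht hu htH h2L hn1 hn2 x hx hx4 => ?_⟩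
  have hTT1 : T1 ≤ T := (le_max_left _ _).trans hT
  have hTT2 : T2 ≤ T := (le_max_right _ _).trans hT
  have hT10 : 10 ≤ T := hT1.trans hTT1
  have hTpos : 0 < T := by linarith
  set L := Real.log T with hL
  have hL1 : 1 ≤ L := by
    rw [hL, Real.le_log_iff_exp_le hTpos]
    linarith [Real.exp_one_lt_d9]
  have hL0 : 0 ≤ L := by linarith
  have hH0 : 0 ≤ H := by linarith
  have ht1 : 1 ≤ t := by linarith
  have htu1 : 1 ≤ t + u := by linarith
  set v1 := t + L with hv1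
  set v2 := t + H - L with hv2
  have hv12 : v1 ≤ v2 := by linarith
  set g := Real.exp (-x ^ 2 / 2) with hg
  have hg0 : 0 < g := Real.exp_pos _
  have hg1 : g ≤ 1 := Real.exp_le_one_iff.2 (by nlinarith [sq_nonneg x])
  set y := Real.exp (-x) with hy
  have hy0 : 0 < y := Real.exp_pos _
  have hy1 : y ≤ 1 := Real.exp_le_one_iff.2 (by linarith)
  set B : ℝ → ℂ := fun v => AA F t (t + H) x v with hB
  set B' : ℝ → ℂ := fun v => AA F (t + u) (t + u + H) x v with hB'
  have hBc : Continuous B := AA_cont hF ht1 x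
  have hBc' : Continuous B' := AA_cont hF htu1 x
  have hBs' : Continuous fun v : ℝ => B' (v + u) :=
    hBc'.comp (by fun_prop : Continuous fun v : ℝ => v + u)
  have hPc := PP_cont ha x
  have hPs : Continuous fun v : ℝ => H370.PP a x (v + u) :=
    hPc.comp (by fun_prop : Continuous fun v : ℝ => v + u)
  have hMc := Mm_cont ha L x
  have hMs : Continuous fun v : ℝ => Mm a L x (v + u) :=
    hMc.comp (by fun_prop : Continuous fun v : ℝ => v + u)
  have hcB : Continuous fun v : ℝ => conj (B v) := Complex.continuous_conj.comp hBc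
  have hcM : Continuous fun v : ℝ => conj (Mm a L x v) := Complex.continuous_conj.comp hMc
  have hcP : Continuous fun v : ℝ => conj (H370.PP a x v) := Complex.continuous_conj.comp hPc
  have hE : ∀ v ∈ Set.Icc v1 v2, ‖B v - Mm a L x v‖ ≤ C1 * y := fun v hv =>
    hEF T hTT1 t (t + H) ht (by linarith) x v hx hx4 hv.1 (by linarith [hv.2])
  have hE' : ∀ v ∈ Set.Icc v1 v2, ‖B' (v + u) - Mm a L x (v + u)‖ ≤ C1 * y := fun v hv =>
    hEF T hTT1 (t + u) (t + u + H) (by linarith) (by linarith) x (v + u) hx hx4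
      (by linarith [hv.1]) (by linarith [hv.2])
  obtain ⟨hint, hid⟩ := corrU_id hF (A := t) (B := t + H) (A' := t + u) (B' := t + u + H)
    ht1 htu1 x u
  have hint' : Integrable fun v : ℝ => conj (B v) * B' (v + u) := hint
  have hid' : ∫ v : ℝ, conj (B v) * B' (v + u) =
      (Real.sqrt Real.pi : ℂ) * cexp (I * x * u) * cu F t (t + H) (t + u) (t + u + H) x u := hid
  -- the outer part
  set Out : ℂ := ∫ v in (Set.Icc v1 v2)ᶜ, conj (B v) * B' (v + u) with hOut
  have hsplit := integral_add_compl (measurableSet_Icc (a := v1) (b := v2)) hint'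
  rw [← hOut, hid', integral_Icc_eq_integral_Ioc, ← intervalIntegral.integral_of_le hv12] at hsplit
  have hOutn : ‖Out‖ ≤ 2 * C2 * (Real.exp (2 * τ * x) * L ^ 3) := by
    have o1 := hout T hTT2 t (t + H) (by linarith) (by linarith) hn1 x hx hx4
    have o2 := hout T hTT2 (t + u) (t + u + H) (by linarith) (by linarith) hn2 x hx hx4
    have e1 : t + u + L = v1 + u := by rw [hv1]; ring
    have e2 : t + u + H - L = v2 + u := by rw [hv2]; ring
    rw [← hL] at o1 o2
    rw [e1, e2, ← outer_shift (fun v => ‖AA F (t + u) (t + u + H) x v‖ ^ 2)] at o2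
    have i1 : Integrable fun v : ℝ => ‖B v‖ ^ 2 := AA_sq_int hF ht1 x
    have i2 : Integrable fun v : ℝ => ‖B' (v + u)‖ ^ 2 :=
      (AA_sq_int hF htu1 x).comp_add_right u
    calc ‖Out‖ ≤ ∫ v in (Set.Icc v1 v2)ᶜ, ‖conj (B v) * B' (v + u)‖ :=
          norm_integral_le_integral_norm _
      _ ≤ ∫ v in (Set.Icc v1 v2)ᶜ, (‖B v‖ ^ 2 + ‖B' (v + u)‖ ^ 2) := by
          refine setIntegral_mono_on hint'.norm.integrableOn (i1.add i2).integrableOn
            measurableSet_Icc.compl fun v _ => ?_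
          rw [norm_mul, RCLike.norm_conj]
          nlinarith [sq_nonneg (‖B v‖ - ‖B' (v + u)‖), norm_nonneg (B v),
            norm_nonneg (B' (v + u))]
      _ = (∫ v in (Set.Icc v1 v2)ᶜ, ‖B v‖ ^ 2) + ∫ v in (Set.Icc v1 v2)ᶜ, ‖B' (v + u)‖ ^ 2 :=
          integral_add i1.integrableOn i2.integrableOn
      _ ≤ _ := by linarith
  -- the inner part
  set I1 := ∫ v in v1..v2, ‖H370.PP a x v‖ with hI1
  set I2 := ∫ v in v1..v2, ‖H370.PP a x (v + u)‖ with hI2
  have hI10 : 0 ≤ I1 := intervalIntegral.integral_nonneg hv12 fun _ _ => norm_nonneg _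
  have hI20 : 0 ≤ I2 := intervalIntegral.integral_nonneg hv12 fun _ _ => norm_nonneg _
  set J2 : ℂ := ∫ v in v1..v2, conj (B v) * B' (v + u) with hJ2
  set J3 : ℂ := ∫ v in v1..v2, conj (Mm a L x v) * Mm a L x (v + u) with hJ3
  have hJ23 : ‖J2 - J3‖ ≤ C1 * y * ((2 * (L * g) + C1 * y) * H + (I1 + I2)) := by
    have e1 : J2 - J3 = ∫ v in v1..v2, (conj (B v) * B' (v + u) -
        conj (Mm a L x v) * Mm a L x (v + u)) := by
      rw [hJ2, hJ3, intervalIntegral.integral_sub]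
      · exact (hcB.mul hBs').intervalIntegrable _ _
      · exact (hcM.mul hMs).intervalIntegrable _ _
    have e2 : ‖J2 - J3‖ ≤ ∫ v in v1..v2, C1 * y * ((2 * (L * g) + C1 * y) +
        (‖H370.PP a x v‖ + ‖H370.PP a x (v + u)‖)) := by
      rw [e1]
      apply intervalIntegral.norm_integral_le_of_norm_le hv12
      · refine Filter.Eventually.of_forall fun v hv => ?_
        have hv' : v ∈ Set.Icc v1 v2 := ⟨hv.1.le, hv.2⟩
        have h1 := hE v hv'
        have h2 := hE' v hv'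
        have h3 := Mm_le a hL0 x v
        have h4 := Mm_le a hL0 x (v + u)
        rw [← hg] at h3 h4
        have e3 : conj (B v) * B' (v + u) - conj (Mm a L x v) * Mm a L x (v + u) =
            conj (B v - Mm a L x v) * (Mm a L x (v + u) + (B' (v + u) - Mm a L x (v + u))) +
              conj (Mm a L x v) * (B' (v + u) - Mm a L x (v + u)) := by
          rw [map_sub]; ring
        rw [e3]
        refine (norm_add_le _ _).trans ?_
        rw [norm_mul, norm_mul, RCLike.norm_conj, RCLike.norm_conj]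
        have h5 : ‖Mm a L x (v + u) + (B' (v + u) - Mm a L x (v + u))‖ ≤
            (L * g + ‖H370.PP a x (v + u)‖) + C1 * y :=
          (norm_add_le _ _).trans (add_le_add h4 h2)
        calc ‖B v - Mm a L x v‖ * ‖Mm a L x (v + u) + (B' (v + u) - Mm a L x (v + u))‖ +
            ‖Mm a L x v‖ * ‖B' (v + u) - Mm a L x (v + u)‖
            ≤ (C1 * y) * ((L * g + ‖H370.PP a x (v + u)‖) + C1 * y) +
              (L * g + ‖H370.PP a x v‖) * (C1 * y) := by gcongr
          _ = _ := by ring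
      · exact (continuous_const.mul (continuous_const.add (hPc.norm.add hPs.norm))).intervalIntegrable
          _ _
    obtain ⟨c0, hc0⟩ : ∃ c0 : ℝ, c0 = 2 * (L * g) + C1 * y := ⟨_, rfl⟩
    have hc00 : 0 ≤ c0 := by rw [hc0]; positivity
    rw [← hc0] at e2 ⊢
    refine e2.trans ?_
    rw [intervalIntegral.integral_const_mul, intervalIntegral.integral_add,
      intervalIntegral.integral_add, intervalIntegral.integral_const, smul_eq_mul]
    · have h6 : (v2 - v1) * c0 ≤ c0 * H := by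
        rw [mul_comm]
        apply mul_le_mul_of_nonneg_left _ hc00
        linarith
      have h7 : 0 ≤ C1 * y := by positivity
      apply mul_le_mul_of_nonneg_left _ h7
      linarith
    · exact hPc.norm.intervalIntegrable _ _
    · exact hPs.norm.intervalIntegrable _ _
    · exact continuous_const.intervalIntegrable _ _
    · exact (hPc.norm.add hPs.norm).intervalIntegrable _ _
  set w2 : ℝ := 1 / (2 * Real.pi) with hw2
  have hw20 : 0 < w2 := by positivity
  have hw21 : w2 ≤ 1 := by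
    rw [hw2, div_le_one (by positivity)]
    have := Real.pi_gt_three
    linarith
  set Cr : ℂ := ∫ v in v1..v2, (cexp (-(I * x * v)) * H370.PP a x (v + u) +
          cexp (I * x * ((v + u : ℝ) : ℂ)) * conj (H370.PP a x v)) with hCr
  have hCrc : Continuous fun v : ℝ => (cexp (-(I * x * v)) * H370.PP a x (v + u) +
          cexp (I * x * ((v + u : ℝ) : ℂ)) * conj (H370.PP a x v)) := by
    have h1 : Continuous fun v : ℝ => cexp (-(I * x * v)) := by fun_prop
    have h2 : Continuous fun v : ℝ => cexp (I * x * ((v + u : ℝ) : ℂ)) := by fun_prop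
    exact (h1.mul hPs).add (h2.mul hcP)
  have hCrn : ‖Cr‖ ≤ I1 + I2 := by
    have e1 : ‖Cr‖ ≤ ∫ v in v1..v2, (‖H370.PP a x v‖ + ‖H370.PP a x (v + u)‖) := by
      rw [hCr]
      apply intervalIntegral.norm_integral_le_of_norm_le hv12
      · refine Filter.Eventually.of_forall fun v _ => ?_
        refine (norm_add_le _ _).trans ?_
        rw [norm_mul, norm_mul, RCLike.norm_conj, norm_e]
        have h1 : ‖cexp (-(I * x * v))‖ = 1 := by
          rw [show -(I * x * (v : ℂ)) = ((-(x * v) : ℝ) : ℂ) * I by push_cast; ring,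
            Complex.norm_exp_ofReal_mul_I]
        rw [h1]
        linarith
      · exact (hPc.norm.add hPs.norm).intervalIntegrable _ _
    rw [intervalIntegral.integral_add (hPc.norm.intervalIntegrable _ _)
      (hPs.norm.intervalIntegrable _ _)] at e1
    exact e1
  have hJ3eq : J3 = ((w2 * (L ^ 2 * Real.exp (-x ^ 2)) : ℝ) : ℂ) * cexp (I * x * u) *
      ((v2 - v1 : ℝ) : ℂ) - ((w2 * (L * g) : ℝ) : ℂ) * Cr + (w2 : ℂ) * Dp a v1 v2 x u := by
    rw [hJ3]
    simp_rw [Mm_mul]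
    rw [intervalIntegral.integral_add, intervalIntegral.integral_sub,
      intervalIntegral.integral_const, intervalIntegral.integral_const_mul,
      intervalIntegral.integral_const_mul, Complex.real_smul]
    · rw [← hw2, ← hg, ← hCr]
      unfold Dp
      ring
    · exact continuous_const.intervalIntegrable _ _
    · exact (continuous_const.mul hCrc).intervalIntegrable _ _
    · exact (continuous_const.sub (continuous_const.mul hCrc)).intervalIntegrable _ _
    · exact (continuous_const.mul (hcP.mul hPs)).intervalIntegrable _ _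
  have hkey : (Real.sqrt Real.pi : ℂ) * cexp (I * x * u) *
      cu F t (t + H) (t + u) (t + u + H) x u -
        ((w2 * (H * (L ^ 2 * Real.exp (-x ^ 2))) : ℝ) : ℂ) * cexp (I * x * u) =
      Out + (J2 - J3) - ((w2 * (L ^ 2 * Real.exp (-x ^ 2)) * (2 * L) : ℝ) : ℂ) * cexp (I * x * u) -
        ((w2 * (L * g) : ℝ) : ℂ) * Cr + (w2 : ℂ) * Dp a v1 v2 x u := by
    rw [← hsplit]
    have e1 : ((v2 - v1 : ℝ) : ℂ) = (H : ℂ) - 2 * (L : ℂ) := by
      rw [hv1, hv2]; push_cast; ring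
    have e2 : J2 + Out - ((w2 * (H * (L ^ 2 * Real.exp (-x ^ 2))) : ℝ) : ℂ) * cexp (I * x * u) =
      Out + (J2 - J3) + (J3 - ((w2 * (H * (L ^ 2 * Real.exp (-x ^ 2))) : ℝ) : ℂ) *
        cexp (I * x * u)) := by ring
    rw [e2, hJ3eq, e1]
    push_cast
    ring
  rw [hkey]
  have hmain : ‖((w2 * (L ^ 2 * Real.exp (-x ^ 2)) * (2 * L) : ℝ) : ℂ) * cexp (I * x * u)‖ ≤
      2 * L ^ 3 := by
    rw [norm_mul, norm_e, mul_one, Complex.norm_real, Real.norm_of_nonneg (by positivity)]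
    have h1 : Real.exp (-x ^ 2) ≤ 1 := Real.exp_le_one_iff.2 (by nlinarith [sq_nonneg x])
    calc w2 * (L ^ 2 * Real.exp (-x ^ 2)) * (2 * L) ≤ 1 * (L ^ 2 * 1) * (2 * L) := by gcongr
      _ = _ := by ring
  have hcr : ‖((w2 * (L * g) : ℝ) : ℂ) * Cr‖ ≤ L * g * (I1 + I2) := by
    rw [norm_mul, Complex.norm_real, Real.norm_of_nonneg (by positivity)]
    calc w2 * (L * g) * ‖Cr‖ ≤ 1 * (L * g) * (I1 + I2) := by gcongr
      _ = _ := by ring
  have hdp : ‖(w2 : ℂ) * Dp a v1 v2 x u‖ ≤ ‖Dp a v1 v2 x u‖ := by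
    rw [norm_mul, Complex.norm_real, Real.norm_of_nonneg hw20.le]
    exact mul_le_of_le_one_left (norm_nonneg _) hw21
  have htri : ‖Out + (J2 - J3) - ((w2 * (L ^ 2 * Real.exp (-x ^ 2)) * (2 * L) : ℝ) : ℂ) *
      cexp (I * x * u) - ((w2 * (L * g) : ℝ) : ℂ) * Cr + (w2 : ℂ) * Dp a v1 v2 x u‖ ≤
      ‖Out‖ + ‖J2 - J3‖ + 2 * L ^ 3 + L * g * (I1 + I2) + ‖Dp a v1 v2 x u‖ := by
    refine (norm_add_le _ _).trans (add_le_add ?_ hdp)
    refine (norm_sub_le _ _).trans (add_le_add ?_ hcr)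
    refine (norm_sub_le _ _).trans (add_le_add ?_ hmain)
    exact norm_add_le _ _
  refine htri.trans ?_
  set W := Real.exp (2 * τ * x) * L ^ 3 with hW
  have hWL : L ^ 3 ≤ W := by
    rw [hW]
    apply le_mul_of_one_le_left (by positivity)
    exact Real.one_le_exp (by positivity)
  have hII : 0 ≤ I1 + I2 := by linarith
  have p1 : 0 ≤ y * (I1 + I2) := by positivity
  have p2 : 0 ≤ L * g * (I1 + I2) := by positivity
  have p3 : 0 ≤ H * (L * g * y) := by positivity
  have p4 : 0 ≤ H * y := by positivity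
  have p5 : 0 ≤ W := by positivity
  have p6 : y * y ≤ y := by nlinarith
  have p7 : C1 ^ 2 * H * (y * y) ≤ C1 ^ 2 * H * y := by gcongr
  have q1 : C1 * y * ((2 * (L * g) + C1 * y) * H + (I1 + I2)) ≤
      2 * C1 * (H * (L * g * y)) + C1 ^ 2 * (H * y) + C1 * (y * (I1 + I2)) := by
    have : C1 * y * ((2 * (L * g) + C1 * y) * H + (I1 + I2)) =
      2 * C1 * (H * (L * g * y)) + C1 ^ 2 * H * (y * y) + C1 * (y * (I1 + I2)) := by ring
    rw [this]
    linarith
  have expand : (2 * C2 + 2 * C1 + C1 ^ 2 + 2) * (W + (L * g + y) * (I1 + I2) +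
      H * (L * g + 1) * y) = (2 * C2 + 2 * C1 + C1 ^ 2 + 2) * W +
      (2 * C2 + 2 * C1 + C1 ^ 2 + 2) * (L * g * (I1 + I2)) +
      (2 * C2 + 2 * C1 + C1 ^ 2 + 2) * (y * (I1 + I2)) +
      (2 * C2 + 2 * C1 + C1 ^ 2 + 2) * (H * (L * g * y)) +
      (2 * C2 + 2 * C1 + C1 ^ 2 + 2) * (H * y) := by ring
  rw [expand]
  have hC0 : 0 ≤ 2 * C2 + 2 * C1 + C1 ^ 2 + 2 := by positivity
  have r1 : (2 * C2 + 2) * W ≤ (2 * C2 + 2 * C1 + C1 ^ 2 + 2) * W := by
    apply mul_le_mul_of_nonneg_right _ p5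
    nlinarith
  have r2 : 1 * (L * g * (I1 + I2)) ≤ (2 * C2 + 2 * C1 + C1 ^ 2 + 2) * (L * g * (I1 + I2)) := by
    apply mul_le_mul_of_nonneg_right _ p2
    nlinarith
  have r3 : C1 * (y * (I1 + I2)) ≤ (2 * C2 + 2 * C1 + C1 ^ 2 + 2) * (y * (I1 + I2)) := by
    apply mul_le_mul_of_nonneg_right _ p1
    nlinarith
  have r4 : 2 * C1 * (H * (L * g * y)) ≤ (2 * C2 + 2 * C1 + C1 ^ 2 + 2) * (H * (L * g * y)) := by
    apply mul_le_mul_of_nonneg_right _ p3
    nlinarith
  have r5 : C1 ^ 2 * (H * y) ≤ (2 * C2 + 2 * C1 + C1 ^ 2 + 2) * (H * y) := by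
    apply mul_le_mul_of_nonneg_right _ p4
    nlinarith
  linarith

end Pool.Agent.W2helper69.U
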