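import Pool.Agent.W2helper69.U.Form
import Pool.Agent.H345R2.A2.JJl

/-! Mean squares of the prime sum and of the correlation of prime sums. -/

set_option autoImplicit false

open Complex Filter Topology Set MeasureTheory
open scoped BigOperators ComplexConjugate

namespace Pool.Agent.W2helper69.U

open H370 H370.A2 H370.AS H370.SI Pool.Agent.W2helper69.PS

/-- crude bound for the diagonal sum -/
lemma VV_crude (κ : ℝ) (hκ : 0 < κ) (hκ1 : κ ≤ 1) : ∃ L0 : ℝ, 40 ≤ L0 ∧ ∀ L : ℝ, L0 ≤ L →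
    ∀ x : ℝ, 0 ≤ x → x ≤ 4 * L → VV x ≤ Real.exp (κ * L) ^ 3 := by
  obtain ⟨L0, hL0, h⟩ := trunc_par κ hκ hκ1
  refine ⟨L0, hL0, fun L hL x hx hxL => ?_⟩
  obtain ⟨e1, e2, h3⟩ := h L hL
  obtain ⟨X, hX1, hXx, hX8, hXl, hXE⟩ := h3 x hx hxL
  have hL40 : 40 ≤ L := hL0.trans hL
  have hκL : 0 ≤ κ * L := by positivity
  set k := Real.exp (κ * L) with hk
  have hk36 : 36 ≤ k := by nlinarith
  have hlogX : 0 ≤ Real.log X := Real.log_natCast_nonneg X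
  have hlam : ∀ n : ℕ, ‖lamC n‖ ≤ ArithmeticFunction.vonMangoldt n := fun n => (lamC_norm n).le
  have h4 := VV_trunc (a := lamC) lamC_norm x (κ * L) X hκL hXx
  have h5 : ∑ n ∈ Finset.Icc 1 X, ‖bb lamC x n‖ ^ 2 ≤ (Real.log X) ^ 2 * (1 + Real.log X) := by
    calc ∑ n ∈ Finset.Icc 1 X, ‖bb lamC x n‖ ^ 2 ≤
        ∑ n ∈ Finset.Icc 1 X, (Real.log X) ^ 2 * (1 / (n : ℝ)) := by
          refine Finset.sum_le_sum fun n hn => ?_
          have h6 := bb_le hlam x X n hn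
          have hn0 : (0 : ℝ) < n := by exact_mod_cast (Finset.mem_Icc.1 hn).1
          calc ‖bb lamC x n‖ ^ 2 ≤ (Real.log X / Real.sqrt n) ^ 2 :=
                pow_le_pow_left₀ (norm_nonneg _) h6 2
            _ = _ := by rw [div_pow, Real.sq_sqrt hn0.le]; ring
      _ = (Real.log X) ^ 2 * ∑ n ∈ Finset.Icc 1 X, 1 / (n : ℝ) := by rw [Finset.mul_sum]
      _ ≤ _ := by
          apply mul_le_mul_of_nonneg_left (harm X) (by positivity)
  have h6 : 4 * (∑' n : ℕ, 1 / (n : ℝ) ^ 2) * (Real.exp (2 + 2 * x) *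
      Real.exp (-(κ * L) ^ 2 / 2)) ≤ 2 := by
    have hS0 : 0 ≤ ∑' n : ℕ, 1 / (n : ℝ) ^ 2 := tsum_nonneg fun n => by positivity
    have h7 : Real.exp (2 + 2 * x) * Real.exp (-(κ * L) ^ 2 / 2) ≤
        Real.exp (4 + 2 * x) * Real.exp (-(κ * L) ^ 2 / 4) := by
      apply mul_le_mul (Real.exp_le_exp.2 (by linarith)) _ (Real.exp_pos _).le (Real.exp_pos _).le
      apply Real.exp_le_exp.2
      nlinarith [sq_nonneg (κ * L)]
    have h8 : Real.exp (-(4 * L)) ≤ 1 := Real.exp_le_one_iff.2 (by linarith)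
    calc _ ≤ 4 * (∑' n : ℕ, 1 / (n : ℝ) ^ 2) * (Real.exp (4 + 2 * x) *
          Real.exp (-(κ * L) ^ 2 / 4)) := by gcongr
      _ = 2 * (2 * (∑' n : ℕ, 1 / (n : ℝ) ^ 2) * (Real.exp (4 + 2 * x) *
          Real.exp (-(κ * L) ^ 2 / 4))) := by ring
      _ ≤ 2 * 1 := by linarith
      _ = 2 := by norm_num
  have h9 : Real.log X ≤ k := by nlinarith [sq_nonneg (Real.log X - 1)]
  have h10 : (Real.log X) ^ 2 * (1 + Real.log X) ≤ k * (1 + k) := by gcongr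
  have h11 : k * (1 + k) + 2 ≤ k ^ 3 := by nlinarith [sq_nonneg k]
  linarith

/-- mean square of the prime sum -/
lemma PP_msc {a : ℕ → ℂ} (ha : ∀ n, ‖a n‖ ≤ ArithmeticFunction.vonMangoldt n)
    (κ : ℝ) (hκ : 0 < κ) (hκ1 : κ ≤ 1) : ∃ L0 : ℝ, 40 ≤ L0 ∧ ∀ L : ℝ, L0 ≤ L →
    ∀ x : ℝ, 0 ≤ x → x ≤ 4 * L → ∀ w1 w2 : ℝ, w1 ≤ w2 →
    ∫ t in w1..w2, ‖H370.PP a x t‖ ^ 2 ≤
      Real.exp (κ * L) ^ 6 * (w2 - w1 + Real.exp x) := by
  obtain ⟨L1, hL1, h1⟩ := VV_crude κ hκ hκ1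
  obtain ⟨L2, hL2, h2⟩ := PP_ms2 ha κ hκ hκ1
  obtain ⟨L3, hL3, h3⟩ := trunc_par κ hκ hκ1
  refine ⟨max L1 (max L2 L3), hL1.trans (le_max_left _ _), fun L hL x hx hxL w1 w2 hw => ?_⟩
  have hLL1 : L1 ≤ L := (le_max_left _ _).trans hL
  have hLL2 : L2 ≤ L := ((le_max_left _ _).trans (le_max_right _ _)).trans hL
  have hLL3 : L3 ≤ L := ((le_max_right _ _).trans (le_max_right _ _)).trans hL
  have hL40 : 40 ≤ L := hL1.trans hLL1
  have hV := h1 L hLL1 x hx hxL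
  have hV0 := VV_nonneg x
  have hP := h2 L hLL2 x hx hxL w1 w2 hw
  obtain ⟨e1, -, -⟩ := h3 L hLL3
  have ek : Real.exp (x + 2 * (κ * L)) = Real.exp (κ * L) ^ 2 * Real.exp x := by
    rw [← Real.exp_nat_mul, ← Real.exp_add]; congr 1; push_cast; ring
  rw [ek] at hP
  set k := Real.exp (κ * L) with hk
  have hk36 : 36 ≤ k := by nlinarith
  set V := w2 - w1 with hVd
  have hV0' : 0 ≤ V := by linarith
  have hex : 0 < Real.exp x := Real.exp_pos x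
  refine hP.trans ?_
  have a1 : V + k ^ 2 * Real.exp x ≤ k ^ 2 * (V + Real.exp x) := by
    have : 1 ≤ k ^ 2 := one_le_pow₀ (by linarith)
    nlinarith
  have a2 : (V + k ^ 2 * Real.exp x) * VV x ≤ (k ^ 2 * (V + Real.exp x)) * k ^ 3 := by gcongr
  have a3 : V ≤ k ^ 5 * (V + Real.exp x) := by
    have h4 : 1 ≤ k ^ 5 := one_le_pow₀ (by linarith)
    calc V ≤ 1 * (V + Real.exp x) := by linarith
      _ ≤ _ := by gcongr
  have a4 : 0 ≤ k ^ 5 * (V + Real.exp x) := by positivity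
  calc 2 * ((V + k ^ 2 * Real.exp x) * VV x) + 2 * V ≤
      2 * ((k ^ 2 * (V + Real.exp x)) * k ^ 3) + 2 * (k ^ 5 * (V + Real.exp x)) := by gcongr
    _ = 4 * (k ^ 5 * (V + Real.exp x)) := by ring
    _ ≤ k * (k ^ 5 * (V + Real.exp x)) := by gcongr; linarith
    _ = _ := by ring

/-- mean square over `u` of the correlation of the prime sums -/
theorem Dp_ms {a : ℕ → ℂ} (ha : ∀ n, ‖a n‖ ≤ ArithmeticFunction.vonMangoldt n)
    (κ : ℝ) (hκ : 0 < κ) (hκ1 : κ ≤ 1) : ∃ L0 : ℝ, 40 ≤ L0 ∧ ∀ L : ℝ, L0 ≤ L →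
    ∀ x : ℝ, 0 ≤ x → x ≤ 4 * L → ∀ v1 v2 u0 u1 : ℝ, v1 ≤ v2 → u0 ≤ u1 →
    ∫ u in u0..u1, ‖Dp a v1 v2 x u‖ ^ 2 ≤
      Real.exp (κ * L) ^ 13 * ((u1 - u0 + Real.exp x) * Real.exp (-x) *
        (v2 - v1 + Real.exp x) ^ 2) := by
  obtain ⟨L1, hL1, h1⟩ := DD_ms ha κ hκ hκ1
  obtain ⟨L2, hL2, h2⟩ := PP_msc ha κ hκ hκ1
  refine ⟨max L1 L2, hL1.trans (le_max_left _ _), fun L hL x hx hxL v1 v2 u0 u1 hv hu => ?_⟩
  have hLL1 : L1 ≤ L := (le_max_left _ _).trans hL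
  have hLL2 : L2 ≤ L := (le_max_right _ _).trans hL
  have hPc := PP_cont ha x
  have hcP : Continuous fun v : ℝ => conj (H370.PP a x v) := Complex.continuous_conj.comp hPc
  have h3 := h1 L hLL1 x hx hxL (fun v => conj (H370.PP a x v)) hcP v1 v2 u0 u1 hv hu
  simp only [RCLike.norm_conj] at h3
  have h4 := h2 L hLL2 x hx hxL v1 v2 hv
  have ek : Real.exp (7 * (κ * L)) = Real.exp (κ * L) ^ 7 := by
    rw [← Real.exp_nat_mul]; congr 1
  rw [ek] at h3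
  set k := Real.exp (κ * L) with hk
  have hk0 : 0 < k := Real.exp_pos _
  have hU : 0 ≤ u1 - u0 := by linarith
  have hV : 0 ≤ v2 - v1 := by linarith
  have hex : 0 < Real.exp x := Real.exp_pos x
  have heX : 0 < Real.exp (-x) := Real.exp_pos _
  unfold Dp
  refine h3.trans ?_
  calc _ ≤ k ^ 7 * ((u1 - u0 + Real.exp x) * Real.exp (-x) * (v2 - v1 + Real.exp x) *
        (k ^ 6 * (v2 - v1 + Real.exp x))) := by gcongr
    _ = _ := by ring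

end Pool.Agent.W2helper69.U
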