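import Pool.Agent.W2helper69.U.Core

/-! The mean square hypothesis from the mean value theorem for each fixed `t`. -/

set_option autoImplicit false

open Complex Filter Topology Set MeasureTheory
open scoped BigOperators ComplexConjugate

namespace Pool.Agent.W2helper69.U

open H370 H370.A2 H370.AS H370.SI Pool.Agent.W2helper69.PS

lemma inner_cont {a : ℕ → ℂ} (ha : ∀ n, ‖a n‖ ≤ ArithmeticFunction.vonMangoldt n) (x v1 v2 p q : ℝ) :
    Continuous fun t : ℝ => ∫ u in p..q, ‖Dp a (t + v1) (t + v2) x u‖ ^ 2 := by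
  have h1 : ∀ t u : ℝ, Dp a (t + v1) (t + v2) x u = Dc a x v1 v2 (x, t, u) := fun t u =>
    Dp_eq le_rfl v1 v2 t u
  simp_rw [h1]
  apply intervalIntegral.continuous_parametric_intervalIntegral_of_continuous'
  have h2 : Continuous fun q : ℝ × ℝ => ((x, q.1, q.2) : ℝ × ℝ × ℝ) := by fun_prop
  exact ((Dc_cont ha x v1 v2).comp h2).norm.pow 2

theorem msh_simple {a : ℕ → ℂ} (ha : ∀ n, ‖a n‖ ≤ ArithmeticFunction.vonMangoldt n)
    (η c μ : ℝ) (hη : 0 < η) (hη1 : η ≤ 1) (hc : 0 < c) (hμ4 : μ ≤ 4)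
    (h1 : μ < 2 * η) (h2 : 2 * μ < 2 * η + c) : MSH a η c μ := by
  intro α0 hα0
  set δ : ℝ := min (min α0 c) (min (2 * η - μ) (2 * η + c - 2 * μ)) / 2 with hδd
  have hδ : 0 < δ := by
    rw [hδd]
    have := lt_min (lt_min hα0 hc) (lt_min (by linarith : 0 < 2 * η - μ)
      (by linarith : 0 < 2 * η + c - 2 * μ))
    positivity
  have d1 : 2 * δ ≤ α0 := by
    rw [hδd]; have := (min_le_left (min α0 c) (min (2 * η - μ) (2 * η + c - 2 * μ))).trans
      (min_le_left _ _); linarith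
  have d2 : 2 * δ ≤ c := by
    rw [hδd]; have := (min_le_left (min α0 c) (min (2 * η - μ) (2 * η + c - 2 * μ))).trans
      (min_le_right _ _); linarith
  have d3 : 2 * δ ≤ 2 * η - μ := by
    rw [hδd]; have := (min_le_right (min α0 c) (min (2 * η - μ) (2 * η + c - 2 * μ))).trans
      (min_le_left _ _); linarith
  have d4 : 2 * δ ≤ 2 * η + c - 2 * μ := by
    rw [hδd]; have := (min_le_right (min α0 c) (min (2 * η - μ) (2 * η + c - 2 * μ))).trans
      (min_le_right _ _); linarith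
  set κ : ℝ := min (δ / 26) 1 with hκd
  have hκ : 0 < κ := lt_min (by positivity) one_pos
  have hκ1 : κ ≤ 1 := min_le_right _ _
  have hκδ : 13 * κ ≤ δ / 2 := by
    have : κ ≤ δ / 26 := min_le_left _ _
    linarith
  obtain ⟨L2, hL2, hms⟩ := Dp_ms ha κ hκ hκ1
  obtain ⟨L3, hL3, hpe⟩ := poly_le_exp 8 (δ / 2) (by positivity)
  obtain ⟨T3, hT3⟩ := (Real.tendsto_log_atTop.eventually_ge_atTop
    (max (max 40 L2) (max L3 (24 / η ^ 4)))).exists_forall_of_atTop
  refine ⟨δ, max 10 T3, hδ, le_max_left _ _, fun T hT H hH hHT p q hp hq hU x hxα hxμ => ?_⟩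
  have hTT3 : T3 ≤ T := (le_max_right _ _).trans hT
  have hT10 : 10 ≤ T := (le_max_left _ _).trans hT
  have hLbig := hT3 T hTT3
  set L := Real.log T with hL
  have hL40 : 40 ≤ L := ((le_max_left _ _).trans (le_max_left _ _)).trans hLbig
  have hLL2 : L2 ≤ L := ((le_max_right _ _).trans (le_max_left _ _)).trans hLbig
  have hLL3 : L3 ≤ L := ((le_max_left _ _).trans (le_max_right _ _)).trans hLbig
  obtain ⟨hcube, -⟩ := cube_le_exp hη hη1 (((le_max_right _ _).trans (le_max_right _ _)).trans hLbig)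
  have hL3' : L ^ 3 ≤ H := hcube.trans hH
  have h2L : 2 * L ≤ H := by nlinarith [sq_nonneg L]
  have hH0 : 0 < H := by nlinarith
  have hL0 : 0 < L := by linarith
  have hx : 0 ≤ x := le_trans (by positivity) hxα
  have hx4 : x ≤ 4 * L := hxμ.trans (by gcongr)
  set U := q - p with hUd
  have hU0 : 0 < U := lt_of_lt_of_le (Real.exp_pos _) hU
  set X := Real.exp x with hX
  set Y := Real.exp (-x) with hY
  have hX0 : 0 < X := Real.exp_pos _
  have hY0 : 0 < Y := Real.exp_pos _
  have hXY : X * Y = 1 := by rw [hX, hY, ← Real.exp_add]; simp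
  set E := Real.exp (-(2 * δ * L)) with hE
  have hE0 : 0 < E := Real.exp_pos _
  have hH2 : Real.exp (2 * η * L) ≤ H ^ 2 := by
    calc Real.exp (2 * η * L) = Real.exp (η * L) ^ 2 := by
          rw [← Real.exp_nat_mul]; congr 1; push_cast; ring
      _ ≤ H ^ 2 := by gcongr
  have a1 : U * H ^ 2 * Y ≤ U * H ^ 2 * E := by
    apply mul_le_mul_of_nonneg_left _ (by positivity)
    rw [hY, hE]
    apply Real.exp_le_exp.2
    nlinarith
  have a2 : U * X ≤ U * H ^ 2 * E := by
    rw [mul_assoc]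
    apply mul_le_mul_of_nonneg_left _ hU0.le
    calc X ≤ Real.exp (2 * η * L) * E := by
          rw [hX, hE, ← Real.exp_add]
          apply Real.exp_le_exp.2
          nlinarith
      _ ≤ H ^ 2 * E := by gcongr
  have a3 : H ^ 2 ≤ U * H ^ 2 * E := by
    have : 1 ≤ U * E := by
      calc (1 : ℝ) ≤ Real.exp ((c - 2 * δ) * L) := Real.one_le_exp (mul_nonneg (by linarith) hL0.le)
        _ = Real.exp (c * L) * E := by rw [hE, ← Real.exp_add]; congr 1; ring
        _ ≤ U * E := by gcongr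
    calc H ^ 2 = H ^ 2 * 1 := by ring
      _ ≤ H ^ 2 * (U * E) := by gcongr
      _ = _ := by ring
  have a4 : X ^ 2 ≤ U * H ^ 2 * E := by
    calc X ^ 2 = Real.exp (2 * x) := by rw [hX, ← Real.exp_nat_mul]; congr 1
      _ ≤ Real.exp (c * L) * Real.exp (2 * η * L) * E := by
          rw [hE, ← Real.exp_add, ← Real.exp_add]
          apply Real.exp_le_exp.2
          nlinarith
      _ ≤ U * H ^ 2 * E := by gcongr
  have hin : ∀ t : ℝ, ∫ u in p..q, ‖Dp a (t + L) (t + (H - L)) x u‖ ^ 2 ≤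
      U * H ^ 2 * Real.exp (-(δ * L)) := by
    intro t
    have m1 := hms L hLL2 x hx hx4 (t + L) (t + (H - L)) p q (by linarith) (by linarith)
    rw [← hUd, ← hX, ← hY] at m1
    refine m1.trans ?_
    have e1 : t + (H - L) - (t + L) + X ≤ H + X := by linarith
    have e10 : 0 ≤ t + (H - L) - (t + L) + X := by linarith
    have e2 : (t + (H - L) - (t + L) + X) ^ 2 ≤ 2 * H ^ 2 + 2 * X ^ 2 := by
      calc _ ≤ (H + X) ^ 2 := by gcongr
        _ ≤ _ := by nlinarith [sq_nonneg (H - X)]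
    have e3 : (U + X) * Y * (2 * H ^ 2 + 2 * X ^ 2) ≤ 8 * (U * H ^ 2 * E) := by
      have : (U + X) * Y * (2 * H ^ 2 + 2 * X ^ 2) =
          2 * (U * H ^ 2 * Y) + 2 * (U * X * (X * Y)) + 2 * (H ^ 2 * (X * Y)) +
            2 * (X ^ 2 * (X * Y)) := by ring
      rw [this, hXY]
      linarith
    have e4 : Real.exp (κ * L) ^ 13 * 8 ≤ Real.exp (δ * L) := by
      have h3 := hpe L hLL3
      have h4 : (8 : ℝ) ≤ 8 * L ^ 3 := by
        have : 1 ≤ L ^ 3 := one_le_pow₀ (by linarith)
        linarith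
      have h5 : Real.exp (κ * L) ^ 13 ≤ Real.exp (δ / 2 * L) := by
        rw [← Real.exp_nat_mul]
        apply Real.exp_le_exp.2
        push_cast
        nlinarith
      calc Real.exp (κ * L) ^ 13 * 8 ≤ Real.exp (δ / 2 * L) * Real.exp (δ / 2 * L) := by
            gcongr
            linarith
        _ = _ := by rw [← Real.exp_add]; congr 1; ring
    calc Real.exp (κ * L) ^ 13 * ((U + X) * Y * (t + (H - L) - (t + L) + X) ^ 2) ≤
        Real.exp (κ * L) ^ 13 * ((U + X) * Y * (2 * H ^ 2 + 2 * X ^ 2)) := by gcongr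
      _ ≤ Real.exp (κ * L) ^ 13 * (8 * (U * H ^ 2 * E)) := by gcongr
      _ = (Real.exp (κ * L) ^ 13 * 8) * (U * H ^ 2 * E) := by ring
      _ ≤ Real.exp (δ * L) * (U * H ^ 2 * E) := by gcongr
      _ = U * H ^ 2 * (Real.exp (δ * L) * E) := by ring
      _ = _ := by
          rw [hE, ← Real.exp_add]; congr 2; ring
  calc ∫ t in T..(2 * T), ∫ u in p..q, ‖Dp a (t + L) (t + (H - L)) x u‖ ^ 2
      ≤ ∫ _ in T..(2 * T), U * H ^ 2 * Real.exp (-(δ * L)) :=
        intervalIntegral.integral_mono_on (by linarith)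
          ((inner_cont ha x L (H - L) p q).intervalIntegrable _ _)
          (continuous_const.intervalIntegrable _ _) fun t _ => hin t
    _ = _ := by
        rw [intervalIntegral.integral_const, smul_eq_mul]
        ring

end Pool.Agent.W2helper69.U
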