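import Pool.Agent.W2helper69.PS.MSD

/-! The mean value theorem in two variables for the correlation of a Dirichlet polynomial. -/

set_option autoImplicit false

open Complex Filter Topology Set MeasureTheory
open scoped BigOperators ComplexConjugate

namespace Pool.Agent.W2helper69.U

open H370 Pool.Agent.W2helper69.PS

/-- the basic oscillation -/
noncomputable def qq (n : ℕ) (v : ℝ) : ℂ := (n : ℂ) ^ (-(v : ℂ) * I)

lemma qq_cont {n : ℕ} (hn : 1 ≤ n) : Continuous fun v : ℝ => qq n v := npow_cont n hn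

lemma qq_eq {n : ℕ} (hn : 1 ≤ n) (v : ℝ) : qq n v = cexp (((-(v * Real.log n) : ℝ) : ℂ) * I) := by
  have hn0 : (n : ℂ) ≠ 0 := by exact_mod_cast (by omega : n ≠ 0)
  unfold qq
  rw [Complex.cpow_def_of_ne_zero hn0, ← Complex.natCast_log]
  congr 1
  push_cast
  ring

lemma qq_norm {n : ℕ} (hn : 1 ≤ n) (v : ℝ) : ‖qq n v‖ = 1 := by
  rw [qq_eq hn, Complex.norm_exp_ofReal_mul_I]

lemma qq_add {n : ℕ} (hn : 1 ≤ n) (v w : ℝ) : qq n (v + w) = qq n v * qq n w := by
  rw [qq_eq hn, qq_eq hn, qq_eq hn, ← Complex.exp_add]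
  congr 1
  push_cast
  ring

/-- a Dirichlet polynomial -/
noncomputable def Pol (β : ℕ → ℂ) (N : ℕ) (v : ℝ) : ℂ := ∑ n ∈ Finset.Icc 1 N, β n * qq n v

lemma Pol_cont (β : ℕ → ℂ) (N : ℕ) : Continuous fun v : ℝ => Pol β N v := by
  unfold Pol
  refine continuous_finsetSum _ fun n hn => ?_
  exact continuous_const.mul (qq_cont (Finset.mem_Icc.1 hn).1)

lemma conj_int (f : ℝ → ℂ) (p q : ℝ) :
    conj (∫ v in p..q, f v) = ∫ v in p..q, conj (f v) := by
  rw [intervalIntegral, intervalIntegral, map_sub, ← integral_conj, ← integral_conj]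

/-- the coefficient -/
noncomputable def cn (β : ℕ → ℂ) (N : ℕ) (w1 w2 t : ℝ) (n : ℕ) : ℂ :=
  ∫ s in w1..w2, conj (Pol β N (t + s)) * qq n s

lemma cn_cont (β : ℕ → ℂ) (N : ℕ) (w1 w2 : ℝ) {n : ℕ} (hn : 1 ≤ n) :
    Continuous fun t : ℝ => cn β N w1 w2 t n := by
  unfold cn
  apply intervalIntegral.continuous_parametric_intervalIntegral_of_continuous'
  have h1 : Continuous fun q : ℝ × ℝ => Pol β N (q.1 + q.2) :=
    (Pol_cont β N).comp (continuous_fst.add continuous_snd)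
  have h2 : Continuous fun q : ℝ × ℝ => qq n q.2 := (qq_cont hn).comp continuous_snd
  exact (Complex.continuous_conj.comp h1).mul h2

/-- the correlation is a Dirichlet polynomial in `u` -/
lemma corr_pol (β : ℕ → ℂ) (N : ℕ) (w1 w2 t u : ℝ) :
    ∫ v in (t + w1)..(t + w2), conj (Pol β N v) * Pol β N (v + u) =
      ∑ n ∈ Finset.Icc 1 N, (β n * (cn β N w1 w2 t n * qq n t)) * qq n u := by
  have h0 := intervalIntegral.integral_comp_add_left
    (fun v => conj (Pol β N v) * Pol β N (v + u)) t (a := w1) (b := w2)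
  rw [← h0]
  have h1 : ∀ s : ℝ, conj (Pol β N (t + s)) * Pol β N (t + s + u) =
      ∑ n ∈ Finset.Icc 1 N, (β n * qq n t * qq n u) * (conj (Pol β N (t + s)) * qq n s) := by
    intro s
    conv_lhs => rw [show Pol β N (t + s + u) = ∑ n ∈ Finset.Icc 1 N, β n * qq n (t + s + u) from rfl]
    rw [Finset.mul_sum]
    refine Finset.sum_congr rfl fun n hn => ?_
    have hn1 := (Finset.mem_Icc.1 hn).1
    rw [qq_add hn1, qq_add hn1]
    ring
  simp_rw [h1]
  rw [intervalIntegral.integral_finsetSum]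
  · refine Finset.sum_congr rfl fun n _ => ?_
    rw [intervalIntegral.integral_const_mul]
    unfold cn
    ring
  · intro n hn
    apply Continuous.intervalIntegrable
    have h2 : Continuous fun s : ℝ => Pol β N (t + s) :=
      (Pol_cont β N).comp (by fun_prop : Continuous fun s : ℝ => t + s)
    exact continuous_const.mul ((Complex.continuous_conj.comp h2).mul
      (qq_cont (Finset.mem_Icc.1 hn).1))

/-- the matrix entries -/
noncomputable def Ph (w1 w2 : ℝ) (m n : ℕ) : ℂ := ∫ s in w1..w2, conj (qq n s) * qq m s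

lemma conj_cn (β : ℕ → ℂ) (N : ℕ) (w1 w2 t : ℝ) {n : ℕ} (hn : 1 ≤ n) :
    conj (cn β N w1 w2 t n) = ∑ m ∈ Finset.Icc 1 N, (β m * Ph w1 w2 m n) * qq m t := by
  unfold cn
  rw [conj_int]
  have h1 : ∀ s : ℝ, conj (conj (Pol β N (t + s)) * qq n s) =
      ∑ m ∈ Finset.Icc 1 N, (β m * qq m t) * (conj (qq n s) * qq m s) := by
    intro s
    rw [map_mul, Complex.conj_conj]
    conv_lhs => rw [show Pol β N (t + s) = ∑ m ∈ Finset.Icc 1 N, β m * qq m (t + s) from rfl]
    rw [Finset.sum_mul]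
    refine Finset.sum_congr rfl fun m hm => ?_
    rw [qq_add (Finset.mem_Icc.1 hm).1]
    ring
  simp_rw [h1]
  rw [intervalIntegral.integral_finsetSum]
  · refine Finset.sum_congr rfl fun m _ => ?_
    rw [intervalIntegral.integral_const_mul]
    unfold Ph
    ring
  · intro m hm
    apply Continuous.intervalIntegrable
    exact continuous_const.mul ((Complex.continuous_conj.comp (qq_cont hn)).mul
      (qq_cont (Finset.mem_Icc.1 hm).1))

/-- the mean value theorem in two variables -/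
theorem two_mv (β : ℕ → ℂ) (N : ℕ) (hN : 1 ≤ N) (B : ℝ) (hB : ∀ n ∈ Finset.Icc 1 N, ‖β n‖ ^ 2 ≤ B)
    {T1 T2 u0 u1 w1 w2 : ℝ} (hT : T1 ≤ T2) (hu : u0 ≤ u1) (hw : w1 ≤ w2) :
    ∫ t in T1..T2, ∫ u in u0..u1,
        ‖∫ v in (t + w1)..(t + w2), conj (Pol β N v) * Pol β N (v + u)‖ ^ 2 ≤
      (u1 - u0 + 8 * N * (1 + Real.log N)) * ((∑ n ∈ Finset.Icc 1 N, ‖β n‖ ^ 2) *
        ((T2 - T1 + 8 * N * (1 + Real.log N)) *
          (B * ((w2 - w1 + 8 * N * (1 + Real.log N)) * (w2 - w1))))) := by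
  set M : ℝ := 8 * N * (1 + Real.log N) with hM
  have hN1 : (1 : ℝ) ≤ N := by exact_mod_cast hN
  have hlog : 0 ≤ Real.log N := Real.log_nonneg hN1
  have hM0 : 0 ≤ M := by rw [hM]; positivity
  have hU : 0 ≤ u1 - u0 + M := by linarith
  have hTT : 0 ≤ T2 - T1 + M := by linarith
  -- the inner integral
  have hin : ∀ t : ℝ, ∫ u in u0..u1,
      ‖∫ v in (t + w1)..(t + w2), conj (Pol β N v) * Pol β N (v + u)‖ ^ 2 ≤
      (u1 - u0 + M) * ∑ n ∈ Finset.Icc 1 N, ‖β n‖ ^ 2 * ‖cn β N w1 w2 t n‖ ^ 2 := by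
    intro t
    simp_rw [corr_pol]
    refine (mean_value (fun n => β n * (cn β N w1 w2 t n * qq n t)) N u0 u1 hu).trans (le_of_eq ?_)
    congr 1
    refine Finset.sum_congr rfl fun n hn => ?_
    rw [norm_mul, norm_mul, qq_norm (Finset.mem_Icc.1 hn).1, mul_one, mul_pow]
  -- the coefficients in mean square
  have hcn : ∀ n ∈ Finset.Icc 1 N, ∫ t in T1..T2, ‖cn β N w1 w2 t n‖ ^ 2 ≤
      (T2 - T1 + M) * (B * ((w2 - w1 + M) * (w2 - w1))) := by
    intro n hn
    have hn1 := (Finset.mem_Icc.1 hn).1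
    have h1 : ∀ t : ℝ, ‖cn β N w1 w2 t n‖ =
        ‖∑ m ∈ Finset.Icc 1 N, (β m * Ph w1 w2 m n) * (m : ℂ) ^ (-(t : ℂ) * I)‖ := by
      intro t
      rw [← RCLike.norm_conj, conj_cn β N w1 w2 t hn1]
      rfl
    simp_rw [h1]
    refine (mean_value (fun m => β m * Ph w1 w2 m n) N T1 T2 hT).trans ?_
    apply mul_le_mul_of_nonneg_left _ hTT
    have hcq : Continuous fun s : ℝ => conj (qq n s) := Complex.continuous_conj.comp (qq_cont hn1)
    have h2 := dual_mv hcq N hN w1 w2 hw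
    have h3 : ∫ s in w1..w2, ‖conj (qq n s)‖ ^ 2 = w2 - w1 := by
      have : ∀ s : ℝ, ‖conj (qq n s)‖ ^ 2 = 1 := fun s => by
        rw [RCLike.norm_conj, qq_norm hn1, one_pow]
      simp_rw [this]
      rw [intervalIntegral.integral_const, smul_eq_mul, mul_one]
    rw [h3] at h2
    have hB0 : 0 ≤ B := (by positivity : 0 ≤ ‖β n‖ ^ 2).trans (hB n hn)
    calc ∑ m ∈ Finset.Icc 1 N, ‖β m * Ph w1 w2 m n‖ ^ 2 ≤
        ∑ m ∈ Finset.Icc 1 N, B * ‖∫ s in w1..w2, conj (qq n s) * (m : ℂ) ^ (-(s : ℂ) * I)‖ ^ 2 := by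
          refine Finset.sum_le_sum fun m hm => ?_
          rw [norm_mul, mul_pow]
          exact mul_le_mul_of_nonneg_right (hB m hm) (by positivity)
      _ = B * ∑ m ∈ Finset.Icc 1 N,
            ‖∫ s in w1..w2, conj (qq n s) * (m : ℂ) ^ (-(s : ℂ) * I)‖ ^ 2 := by
          rw [Finset.mul_sum]
      _ ≤ _ := mul_le_mul_of_nonneg_left h2 hB0
  -- the outer integral
  have hc1 : Continuous fun t : ℝ => ∫ u in u0..u1,
      ‖∫ v in (t + w1)..(t + w2), conj (Pol β N v) * Pol β N (v + u)‖ ^ 2 := by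
    simp_rw [corr_pol]
    apply intervalIntegral.continuous_parametric_intervalIntegral_of_continuous'
    have h2 : Continuous fun q : ℝ × ℝ => ∑ n ∈ Finset.Icc 1 N,
        (β n * (cn β N w1 w2 q.1 n * qq n q.1)) * qq n q.2 := by
      refine continuous_finsetSum _ fun n hn => ?_
      have hn1 := (Finset.mem_Icc.1 hn).1
      exact (continuous_const.mul (((cn_cont β N w1 w2 hn1).comp continuous_fst).mul
        ((qq_cont hn1).comp continuous_fst))).mul ((qq_cont hn1).comp continuous_snd)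
    exact h2.norm.pow 2
  have hc2 : Continuous fun t : ℝ => (u1 - u0 + M) *
      ∑ n ∈ Finset.Icc 1 N, ‖β n‖ ^ 2 * ‖cn β N w1 w2 t n‖ ^ 2 := by
    refine continuous_const.mul (continuous_finsetSum _ fun n hn => ?_)
    exact continuous_const.mul ((cn_cont β N w1 w2 (Finset.mem_Icc.1 hn).1).norm.pow 2)
  calc _ ≤ ∫ t in T1..T2, (u1 - u0 + M) *
        ∑ n ∈ Finset.Icc 1 N, ‖β n‖ ^ 2 * ‖cn β N w1 w2 t n‖ ^ 2 :=
        intervalIntegral.integral_mono_on hT (hc1.intervalIntegrable _ _)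
          (hc2.intervalIntegrable _ _) fun t _ => hin t
    _ = (u1 - u0 + M) * ∑ n ∈ Finset.Icc 1 N, ‖β n‖ ^ 2 *
          ∫ t in T1..T2, ‖cn β N w1 w2 t n‖ ^ 2 := by
        rw [intervalIntegral.integral_const_mul, intervalIntegral.integral_finsetSum]
        · congr 1
          refine Finset.sum_congr rfl fun n _ => ?_
          rw [intervalIntegral.integral_const_mul]
        · intro n hn
          exact (continuous_const.mul
            ((cn_cont β N w1 w2 (Finset.mem_Icc.1 hn).1).norm.pow 2)).intervalIntegrable _ _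
    _ ≤ (u1 - u0 + M) * ∑ n ∈ Finset.Icc 1 N, ‖β n‖ ^ 2 *
          ((T2 - T1 + M) * (B * ((w2 - w1 + M) * (w2 - w1)))) := by
        apply mul_le_mul_of_nonneg_left _ hU
        refine Finset.sum_le_sum fun n hn => ?_
        exact mul_le_mul_of_nonneg_left (hcn n hn) (by positivity)
    _ = _ := by rw [← Finset.sum_mul]

end Pool.Agent.W2helper69.U
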