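import Pool.Agent.W2helper69.U.Core
import Pool.Agent.W2helper69.U.MS1
import Pool.Agent.W2helper69.U.TwoMV

/-! The mean square hypothesis from the mean value theorem in two variables. -/

set_option autoImplicit false

open Complex Filter Topology Set MeasureTheory
open scoped BigOperators ComplexConjugate

namespace Pool.Agent.W2helper69.U

open H370 H370.A2 H370.AS H370.SI Pool.Agent.W2helper69.PS

section

variable {a : ℕ → ℂ} (ha : ∀ n, ‖a n‖ ≤ ArithmeticFunction.vonMangoldt n)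

include ha in
lemma bb_sq_bound (x K : ℝ) (hK : 0 ≤ K) (N : ℕ) : ∀ n ∈ Finset.Icc 1 N, ‖bb a x n‖ ^ 2 ≤
    (Real.log N) ^ 2 * Real.exp (K - x) + 4 * Real.exp (-K ^ 2) := by
  intro n hn
  obtain ⟨hn1, hnX⟩ := Finset.mem_Icc.mp hn
  have hn0 : (0 : ℝ) < n := by exact_mod_cast hn1
  have hb : ‖bb a x n‖ ^ 2 ≤ (ArithmeticFunction.vonMangoldt n) ^ 2 / n *
      Real.exp (-(x - Real.log n) ^ 2) := by
    unfold bb
    rw [norm_mul, norm_mul, norm_inv, Complex.norm_real, Complex.norm_real,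
      Real.norm_of_nonneg (Real.sqrt_nonneg _), Real.norm_of_nonneg (Real.exp_pos _).le,
      mul_pow, mul_pow, inv_pow, Real.sq_sqrt hn0.le, ← Real.exp_nat_mul, ← div_eq_mul_inv]
    have e1 : ((2 : ℕ) : ℝ) * (-(x - Real.log n) ^ 2 / 2) = -(x - Real.log n) ^ 2 := by
      push_cast; ring
    rw [e1]
    have := ha n
    gcongr
  refine hb.trans ?_
  rcases le_or_gt (x - K) (Real.log n) with h | h
  · have h3 : (ArithmeticFunction.vonMangoldt n) ^ 2 / n * Real.exp (-(x - Real.log n) ^ 2) ≤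
        (Real.log N) ^ 2 * Real.exp (K - x) := by
      have h4 : ArithmeticFunction.vonMangoldt n ≤ Real.log N :=
        ArithmeticFunction.vonMangoldt_le_log.trans
          (Real.log_le_log hn0 (by exact_mod_cast hnX))
      have h5 : Real.exp (-(x - Real.log n) ^ 2) ≤ 1 := by
        apply Real.exp_le_one_iff.2
        nlinarith [sq_nonneg (x - Real.log n)]
      have h6 : (1 : ℝ) / n ≤ Real.exp (K - x) := by
        rw [one_div, ← Real.exp_log hn0, ← Real.exp_neg]
        apply Real.exp_le_exp.2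
        linarith
      calc (ArithmeticFunction.vonMangoldt n) ^ 2 / n * Real.exp (-(x - Real.log n) ^ 2)
          ≤ (ArithmeticFunction.vonMangoldt n) ^ 2 / n * 1 := by gcongr
        _ = (ArithmeticFunction.vonMangoldt n) ^ 2 * (1 / n) := by ring
        _ ≤ (Real.log N) ^ 2 * Real.exp (K - x) := by
            have h7 : 0 ≤ ArithmeticFunction.vonMangoldt n :=
              ArithmeticFunction.vonMangoldt_nonneg
            gcongr
    have : 0 ≤ 4 * Real.exp (-K ^ 2) := by positivity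
    linarith
  · have h3 : (ArithmeticFunction.vonMangoldt n) ^ 2 / n * Real.exp (-(x - Real.log n) ^ 2) ≤
        4 * Real.exp (-K ^ 2) := by
      have h4 := vM_le n
      have h7 : 0 ≤ ArithmeticFunction.vonMangoldt n := ArithmeticFunction.vonMangoldt_nonneg
      have h5 : (ArithmeticFunction.vonMangoldt n) ^ 2 / n ≤ 4 := by
        rw [div_le_iff₀ hn0]
        calc (ArithmeticFunction.vonMangoldt n) ^ 2 ≤ (2 * Real.sqrt n) ^ 2 :=
              pow_le_pow_left₀ h7 h4 2
          _ = 4 * n := by rw [mul_pow, Real.sq_sqrt hn0.le]; norm_num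
      have h6 : Real.exp (-(x - Real.log n) ^ 2) ≤ Real.exp (-K ^ 2) := by
        apply Real.exp_le_exp.2
        nlinarith
      gcongr
    have : 0 ≤ (Real.log N) ^ 2 * Real.exp (K - x) := by positivity
    linarith

lemma ptX_Pol (a : ℕ → ℂ) (x t : ℝ) (N : ℕ) : ∑ n ∈ Finset.Icc 1 N, pterm a x t n =
    cexp (((t * x : ℝ) : ℂ) * I) * Pol (bb a x) N t := by
  unfold Pol
  rw [Finset.mul_sum]
  refine Finset.sum_congr rfl fun n hn => ?_
  have hn1 : 1 ≤ n := (Finset.mem_Icc.mp hn).1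
  rw [qq_eq hn1]
  unfold pterm bb
  have h3 : cexp (I * t * (x - Real.log n)) = cexp (((t * x : ℝ) : ℂ) * I) *
      cexp (((-(t * Real.log n) : ℝ) : ℂ) * I) := by
    rw [← Complex.exp_add]
    congr 1
    push_cast
    ring
  rw [h3]; ring

lemma ptX_corr (a : ℕ → ℂ) (x v1 v2 u : ℝ) (N : ℕ) :
    ‖∫ v in v1..v2, conj (∑ n ∈ Finset.Icc 1 N, pterm a x v n) *
      ∑ n ∈ Finset.Icc 1 N, pterm a x (v + u) n‖ =
    ‖∫ v in v1..v2, conj (Pol (bb a x) N v) * Pol (bb a x) N (v + u)‖ := by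
  have h1 : ∀ v : ℝ, conj (∑ n ∈ Finset.Icc 1 N, pterm a x v n) *
      ∑ n ∈ Finset.Icc 1 N, pterm a x (v + u) n =
      cexp (((u * x : ℝ) : ℂ) * I) * (conj (Pol (bb a x) N v) * Pol (bb a x) N (v + u)) := by
    intro v
    rw [ptX_Pol, ptX_Pol, map_mul, ← Complex.exp_conj]
    have h2 : conj (((v * x : ℝ) : ℂ) * I) = -(((v * x : ℝ) : ℂ) * I) := by
      rw [map_mul, Complex.conj_ofReal, Complex.conj_I, mul_neg]
    have h3 : cexp ((((v + u) * x : ℝ) : ℂ) * I) =
        cexp (((v * x : ℝ) : ℂ) * I) * cexp (((u * x : ℝ) : ℂ) * I) := by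
      rw [← Complex.exp_add]; congr 1; push_cast; ring
    have h4 : cexp (-(((v * x : ℝ) : ℂ) * I)) * cexp (((v * x : ℝ) : ℂ) * I) = 1 := by
      rw [← Complex.exp_add, neg_add_cancel, Complex.exp_zero]
    rw [h2, h3]
    linear_combination (cexp (((u * x : ℝ) : ℂ) * I) * conj (Pol (bb a x) N v) *
      Pol (bb a x) N (v + u)) * h4
  simp_rw [h1]
  rw [intervalIntegral.integral_const_mul, norm_mul, Complex.norm_exp_ofReal_mul_I, one_mul]

include ha in
lemma Dp_trunc {x v1 v2 u E S : ℝ} {N : ℕ} (hv : v1 ≤ v2) (hE1 : E ≤ 1)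
    (hE : ∀ t : ℝ, ‖H370.PP a x t - ∑ n ∈ Finset.Icc 1 N, pterm a x t n‖ ≤ E)
    (hS : ∀ t : ℝ, ‖H370.PP a x t‖ ≤ S) :
    ‖Dp a v1 v2 x u‖ ≤ ‖∫ v in v1..v2, conj (Pol (bb a x) N v) * Pol (bb a x) N (v + u)‖ +
      E * (2 * S + 1) * (v2 - v1) := by
  rw [← ptX_corr]
  have hE0 : 0 ≤ E := (norm_nonneg _).trans (hE 0)
  have hS0 : 0 ≤ S := (norm_nonneg _).trans (hS 0)
  have hPc := PP_cont ha x
  have hPs : Continuous fun v : ℝ => H370.PP a x (v + u) :=
    hPc.comp (by fun_prop : Continuous fun v : ℝ => v + u)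
  have hXc := ptX_cont (a := a) x N
  have hXs : Continuous fun v : ℝ => ∑ n ∈ Finset.Icc 1 N, pterm a x (v + u) n :=
    hXc.comp (by fun_prop : Continuous fun v : ℝ => v + u)
  have hcP : Continuous fun v : ℝ => conj (H370.PP a x v) := Complex.continuous_conj.comp hPc
  have hcX : Continuous fun v : ℝ => conj (∑ n ∈ Finset.Icc 1 N, pterm a x v n) :=
    Complex.continuous_conj.comp hXc
  have e1 : Dp a v1 v2 x u - (∫ v in v1..v2, conj (∑ n ∈ Finset.Icc 1 N, pterm a x v n) *
      ∑ n ∈ Finset.Icc 1 N, pterm a x (v + u) n) =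
      ∫ v in v1..v2, (conj (H370.PP a x v) * H370.PP a x (v + u) -
        conj (∑ n ∈ Finset.Icc 1 N, pterm a x v n) *
      ∑ n ∈ Finset.Icc 1 N, pterm a x (v + u) n) := by
    unfold Dp
    rw [intervalIntegral.integral_sub]
    · exact (hcP.mul hPs).intervalIntegrable _ _
    · exact (hcX.mul hXs).intervalIntegrable _ _
  have e2 : ‖∫ v in v1..v2, (conj (H370.PP a x v) * H370.PP a x (v + u) -
        conj (∑ n ∈ Finset.Icc 1 N, pterm a x v n) *
      ∑ n ∈ Finset.Icc 1 N, pterm a x (v + u) n)‖ ≤ E * (2 * S + 1) * (v2 - v1) := by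
    have h := intervalIntegral.norm_integral_le_of_norm_le_const (a := v1) (b := v2)
      (f := fun v => conj (H370.PP a x v) * H370.PP a x (v + u) -
        conj (∑ n ∈ Finset.Icc 1 N, pterm a x v n) *
      ∑ n ∈ Finset.Icc 1 N, pterm a x (v + u) n) (C := E * (2 * S + 1)) (fun v _ => by
        have g1 := hE v
        have g2 := hE (v + u)
        have g3 := hS v
        have g4 := hS (v + u)
        set P := H370.PP a x v
        set P' := H370.PP a x (v + u)
        set X := ∑ n ∈ Finset.Icc 1 N, pterm a x v n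
        set X' := ∑ n ∈ Finset.Icc 1 N, pterm a x (v + u) n
        have g5 : conj P * P' - conj X * X' = conj (P - X) * P' + conj X * (P' - X') := by
          rw [map_sub]; ring
        have g6 : ‖X‖ ≤ S + 1 := by
          have : X = P - (P - X) := by ring
          rw [this]
          exact (norm_sub_le _ _).trans (by linarith)
        rw [g5]
        refine (norm_add_le _ _).trans ?_
        rw [norm_mul, norm_mul, RCLike.norm_conj, RCLike.norm_conj]
        calc ‖P - X‖ * ‖P'‖ + ‖X‖ * ‖P' - X'‖ ≤ E * S + (S + 1) * E := by gcongr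
          _ = _ := by ring)
    rwa [abs_of_nonneg (by linarith)] at h
  have e3 := norm_add_le (∫ v in v1..v2, conj (∑ n ∈ Finset.Icc 1 N, pterm a x v n) *
      ∑ n ∈ Finset.Icc 1 N, pterm a x (v + u) n)
    (Dp a v1 v2 x u - (∫ v in v1..v2, conj (∑ n ∈ Finset.Icc 1 N, pterm a x v n) *
      ∑ n ∈ Finset.Icc 1 N, pterm a x (v + u) n))
  rw [add_sub_cancel, e1] at e3
  linarith

end

end Pool.Agent.W2helper69.U
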