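import Pool.Agent.W2helper69.U.Large

/-! Pointwise bounds for the pair sum minus its main term. -/

set_option autoImplicit false

open Complex Filter Topology Set MeasureTheory
open scoped BigOperators ComplexConjugate

namespace Pool.Agent.W2helper69.U

open H370 H370.A2 H370.AS H370.SI Pool.Agent.W2helper69.PS

/-- the pair sum minus its main term -/
noncomputable def Qu (F : ℂ → ℂ) (T t H x u : ℝ) : ℂ :=
  (Real.sqrt Real.pi : ℂ) * cexp (I * x * u) * cu F t (t + H) (t + u) (t + u + H) x u -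
    ((1 / (2 * Real.pi) * (H * ((Real.log T) ^ 2 * Real.exp (-x ^ 2))) : ℝ) : ℂ) *
      cexp (I * x * u)

lemma Qu_cont (F : ℂ → ℂ) (T t H u : ℝ) : Continuous fun x : ℝ => Qu F T t H x u := by
  unfold Qu
  have := cu_cont F t (t + H) (t + u) (t + u + H) u
  fun_prop

lemma poly_le_exp (A δ : ℝ) (hδ : 0 < δ) : ∃ L0 : ℝ, 1 ≤ L0 ∧ ∀ L : ℝ, L0 ≤ L →
    A * L ^ 3 ≤ Real.exp (δ * L) := by
  refine ⟨max 1 (24 * |A| / δ ^ 4), le_max_left _ _, fun L hL => ?_⟩
  have hL1 : 1 ≤ L := (le_max_left _ _).trans hL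
  have hL2 : 24 * |A| / δ ^ 4 ≤ L := (le_max_right _ _).trans hL
  rw [div_le_iff₀ (by positivity)] at hL2
  have h := Real.pow_div_factorial_le_exp (δ * L) (by positivity) 4
  have h2 : (δ * L) ^ 4 / (Nat.factorial 4 : ℝ) = L ^ 3 * (L * δ ^ 4) / 24 := by
    norm_num [Nat.factorial]
    ring
  rw [h2] at h
  have h3 : 0 ≤ L ^ 3 := by positivity
  have h4 : A * L ^ 3 ≤ |A| * L ^ 3 := by
    gcongr
    exact le_abs_self A
  nlinarith

lemma int_norm_le {g : ℝ → ℂ} (hg : Continuous g) {v1 v2 : ℝ} (hv : v1 ≤ v2) :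
    ∫ v in v1..v2, ‖g v‖ ≤ 1 / 2 * ((v2 - v1) + ∫ v in v1..v2, ‖g v‖ ^ 2) := by
  have h1 : ∫ v in v1..v2, ‖g v‖ ≤ ∫ v in v1..v2, 1 / 2 * (1 + ‖g v‖ ^ 2) := by
    refine intervalIntegral.integral_mono_on hv (hg.norm.intervalIntegrable _ _)
      ((continuous_const.mul (continuous_const.add (hg.norm.pow 2))).intervalIntegrable _ _)
      fun v _ => ?_
    nlinarith [sq_nonneg (‖g v‖ - 1)]
  have h2 : ∫ v in v1..v2, (1 + ‖g v‖ ^ 2) = (v2 - v1) + ∫ v in v1..v2, ‖g v‖ ^ 2 := by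
    rw [intervalIntegral.integral_add, intervalIntegral.integral_const, smul_eq_mul, mul_one]
    · exact continuous_const.intervalIntegrable _ _
    · exact (hg.norm.pow 2).intervalIntegrable _ _
  rw [intervalIntegral.integral_const_mul, h2] at h1
  exact h1

lemma Dp_le {a : ℕ → ℂ} (ha : ∀ n, ‖a n‖ ≤ ArithmeticFunction.vonMangoldt n)
    {v1 v2 : ℝ} (hv : v1 ≤ v2) (x u : ℝ) :
    ‖Dp a v1 v2 x u‖ ≤ 1 / 2 * ((∫ v in v1..v2, ‖H370.PP a x v‖ ^ 2) +
      ∫ v in v1..v2, ‖H370.PP a x (v + u)‖ ^ 2) := by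
  have hPc := PP_cont ha x
  have hPs : Continuous fun v : ℝ => H370.PP a x (v + u) :=
    hPc.comp (by fun_prop : Continuous fun v : ℝ => v + u)
  have h1 : ‖Dp a v1 v2 x u‖ ≤ ∫ v in v1..v2, 1 / 2 * (‖H370.PP a x v‖ ^ 2 +
      ‖H370.PP a x (v + u)‖ ^ 2) := by
    unfold Dp
    apply intervalIntegral.norm_integral_le_of_norm_le hv
    · refine Filter.Eventually.of_forall fun v _ => ?_
      rw [norm_mul, RCLike.norm_conj]
      nlinarith [sq_nonneg (‖H370.PP a x v‖ - ‖H370.PP a x (v + u)‖)]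
    · exact (continuous_const.mul ((hPc.norm.pow 2).add (hPs.norm.pow 2))).intervalIntegrable _ _
  have h2 : ∫ v in v1..v2, (‖H370.PP a x v‖ ^ 2 + ‖H370.PP a x (v + u)‖ ^ 2) =
      (∫ v in v1..v2, ‖H370.PP a x v‖ ^ 2) + ∫ v in v1..v2, ‖H370.PP a x (v + u)‖ ^ 2 := by
    rw [intervalIntegral.integral_add]
    · exact (hPc.norm.pow 2).intervalIntegrable _ _
    · exact (hPs.norm.pow 2).intervalIntegrable _ _
  rw [intervalIntegral.integral_const_mul, h2] at h1
  exact h1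

theorem Qu_small {F : ℂ → ℂ} (hF : GoodL F) {a : ℕ → ℂ}
    (ha : ∀ n, ‖a n‖ ≤ ArithmeticFunction.vonMangoldt n)
    (hld : ∀ s : ℂ, 1 < s.re → 1 ≤ s.im → deriv F s / F s = - ∑' n : ℕ, a n * (n : ℂ) ^ (-s))
    {τ : ℝ} (hτ : 0 ≤ τ) (hτ1 : τ ≤ 1 / 2) (η : ℝ) (hη : 0 < η) (hη1 : η ≤ 1) :
    ∃ C T0 : ℝ, 0 < C ∧ 10 ≤ T0 ∧ ∀ T : ℝ, T0 ≤ T → ∀ t H u : ℝ, T + 1 ≤ t → 0 ≤ u →
      t + u + H ≤ 16 * T - 1 → Real.exp (η * Real.log T) ≤ H →
      Near F τ (Real.log T) t (t + H) → Near F τ (Real.log T) (t + u) (t + u + H) →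
      ∀ x : ℝ, 0 ≤ x → x ≤ η / 2 * Real.log T →
      ‖Qu F T t H x u‖ ≤
        C * (H * (Real.log T * Real.exp (2 * x - x ^ 2 / 2) + VV x + 1)) := by
  obtain ⟨C1, T1, hC1, hT1, hform⟩ := formulaU hF ha hld hτ
  obtain ⟨L2, hL2, hPP⟩ := PP_ms2 ha (η / 4) (by positivity) (by linarith)
  obtain ⟨L3, hL3, hpe⟩ := poly_le_exp 1 (η / 2) (by positivity)
  obtain ⟨T3, hT3⟩ := (Real.tendsto_log_atTop.eventually_ge_atTop
    (max (max 40 L2) (max L3 (24 / η ^ 4)))).exists_forall_of_atTop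
  set CV : ℝ := 4 * Real.exp 1 * S2 + 1 with hCV
  have hS := S2_one
  have hCV0 : 0 < CV := by positivity
  refine ⟨4 + C1 * (4 * CV + 6), max T1 T3, by positivity,
    hT1.trans (le_max_left _ _), fun T hT t H u ht hu htH hH hn1 hn2 x hx hxη => ?_⟩
  have hTT1 : T1 ≤ T := (le_max_left _ _).trans hT
  have hTT3 : T3 ≤ T := (le_max_right _ _).trans hT
  have hLbig := hT3 T hTT3
  set L := Real.log T with hL
  have hL40 : 40 ≤ L := ((le_max_left _ _).trans (le_max_left _ _)).trans hLbig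
  have hLL2 : L2 ≤ L := ((le_max_right _ _).trans (le_max_left _ _)).trans hLbig
  have hLL3 : L3 ≤ L := ((le_max_left _ _).trans (le_max_right _ _)).trans hLbig
  obtain ⟨hcube, -⟩ := cube_le_exp hη hη1 (((le_max_right _ _).trans (le_max_right _ _)).trans hLbig)
  have hL3' : L ^ 3 ≤ H := hcube.trans hH
  have h2L : 2 * L ≤ H := by nlinarith [sq_nonneg L]
  have hH0 : 0 < H := by nlinarith
  have hx4 : x ≤ 4 * L := by nlinarith
  have hVV := VV_nonneg x
  have hf := hform T hTT1 t H u ht hu htH h2L hn1 hn2 x hx hx4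
  rw [← hL] at hf
  set v1 := t + L with hv1
  set v2 := t + H - L with hv2
  have hv12 : v1 ≤ v2 := by linarith
  have hPc := PP_cont ha x
  have hPs : Continuous fun v : ℝ => H370.PP a x (v + u) :=
    hPc.comp (by fun_prop : Continuous fun v : ℝ => v + u)
  have hexpx : Real.exp (x + 2 * (η / 4 * L)) ≤ H := by
    refine le_trans ?_ hH
    apply Real.exp_le_exp.2
    linarith
  have hms : ∀ w1 w2 : ℝ, w1 ≤ w2 → w2 - w1 ≤ H →
      ∫ v in w1..w2, ‖H370.PP a x v‖ ^ 2 ≤ H * (4 * VV x + 2) := by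
    intro w1 w2 hw1 hw2
    refine (hPP L hLL2 x hx hx4 w1 w2 hw1).trans ?_
    have : (w2 - w1 + Real.exp (x + 2 * (η / 4 * L))) * VV x ≤ (H + H) * VV x := by gcongr
    nlinarith
  have hG1 := hms v1 v2 hv12 (by linarith)
  have hG2 : ∫ v in v1..v2, ‖H370.PP a x (v + u)‖ ^ 2 ≤ H * (4 * VV x + 2) := by
    rw [intervalIntegral.integral_comp_add_right (fun v => ‖H370.PP a x v‖ ^ 2)]
    exact hms (v1 + u) (v2 + u) (by linarith) (by linarith)
  have hD := Dp_le ha hv12 x u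
  have hI1 := int_norm_le hPc hv12
  have hI2 := int_norm_le hPs hv12
  set I1 := ∫ v in v1..v2, ‖H370.PP a x v‖ with hI1d
  set I2 := ∫ v in v1..v2, ‖H370.PP a x (v + u)‖ with hI2d
  set e := Real.exp (2 * x - x ^ 2 / 2) with he
  have he0 : 0 < e := Real.exp_pos _
  set g := Real.exp (-x ^ 2 / 2) with hg
  have hg0 : 0 < g := Real.exp_pos _
  have hge : g ≤ e := by
    rw [hg, he]; apply Real.exp_le_exp.2; linarith
  set y := Real.exp (-x) with hy
  have hy0 : 0 < y := Real.exp_pos _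
  have hy1 : y ≤ 1 := Real.exp_le_one_iff.2 (by linarith)
  have hL0 : 0 < L := by linarith
  have hW : Real.exp (2 * τ * x) * L ^ 3 ≤ H := by
    have h1 : Real.exp (2 * τ * x) ≤ Real.exp (η / 2 * L) := by
      apply Real.exp_le_exp.2
      calc 2 * τ * x ≤ 1 * x := by gcongr; linarith
        _ ≤ η / 2 * L := by linarith
    have h2 := hpe L hLL3
    rw [one_mul] at h2
    calc Real.exp (2 * τ * x) * L ^ 3 ≤ Real.exp (η / 2 * L) * Real.exp (η / 2 * L) := by gcongr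
      _ = Real.exp (η * L) := by rw [← Real.exp_add]; congr 1; ring
      _ ≤ H := hH
  have hII : I1 + I2 ≤ 4 * H * (VV x + 1) := by nlinarith
  have hII0 : 0 ≤ I1 + I2 := add_nonneg
    (intervalIntegral.integral_nonneg hv12 fun _ _ => norm_nonneg _)
    (intervalIntegral.integral_nonneg hv12 fun _ _ => norm_nonneg _)
  have hVe : VV x + 1 ≤ CV * Real.exp (2 * x) := by
    have h1 := VV_exp x
    have h2 : 1 ≤ Real.exp (2 * x) := Real.one_le_exp (by linarith)
    rw [hCV, add_mul, one_mul]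
    linarith
  have hgV : g * (VV x + 1) ≤ CV * e := by
    calc g * (VV x + 1) ≤ g * (CV * Real.exp (2 * x)) := by gcongr
      _ = CV * (g * Real.exp (2 * x)) := by ring
      _ = CV * e := by rw [hg, he, ← Real.exp_add]; congr 2; ring
  have hcross : (L * g + y) * (I1 + I2) ≤ 4 * CV * (H * (L * e)) + 4 * (H * (VV x + 1)) := by
    calc (L * g + y) * (I1 + I2) ≤ (L * g + 1) * (4 * H * (VV x + 1)) := by gcongr
      _ = 4 * H * L * (g * (VV x + 1)) + 4 * (H * (VV x + 1)) := by ring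
      _ ≤ 4 * H * L * (CV * e) + 4 * (H * (VV x + 1)) := by gcongr
      _ = _ := by ring
  have hlast : H * (L * g + 1) * y ≤ H * (L * e) + H := by
    calc H * (L * g + 1) * y ≤ H * (L * e + 1) * 1 := by gcongr
      _ = _ := by ring
  have hDn : ‖Dp a v1 v2 x u‖ ≤ 2 * (H * (2 * VV x + 1)) := by linarith
  unfold Qu
  rw [← hL]
  refine hf.trans ?_
  have z1 : 0 ≤ H * (L * e) := by positivity
  have z2 : 0 ≤ H * VV x := by positivity
  have step : C1 * (Real.exp (2 * τ * x) * L ^ 3 + (L * g + y) * (I1 + I2) +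
      H * (L * g + 1) * y) ≤ C1 * (H + (4 * CV * (H * (L * e)) + 4 * (H * (VV x + 1))) +
        (H * (L * e) + H)) := by
    gcongr
  have z3 : 0 ≤ C1 * (H * (L * e)) := by positivity
  have z4 : 0 ≤ C1 * (H * VV x) := by positivity
  have z5 : 0 ≤ C1 * H := by positivity
  have z6 : 0 ≤ C1 * CV * (H * VV x) := by positivity
  have z7 : 0 ≤ C1 * CV * H := by positivity
  have z8 : 0 ≤ C1 * CV * (H * (L * e)) := by positivity
  have expand : (4 + C1 * (4 * CV + 6)) * (H * (L * e + VV x + 1)) =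
      4 * (H * (L * e)) + 4 * (H * VV x) + 4 * H + 6 * (C1 * (H * (L * e))) +
      6 * (C1 * (H * VV x)) + 6 * (C1 * H) + 4 * (C1 * CV * (H * (L * e))) +
      4 * (C1 * CV * (H * VV x)) + 4 * (C1 * CV * H) := by ring
  have expand2 : C1 * (H + (4 * CV * (H * (L * e)) + 4 * (H * (VV x + 1))) +
        (H * (L * e) + H)) = 6 * (C1 * H) + 4 * (C1 * CV * (H * (L * e))) +
        4 * (C1 * (H * VV x)) + C1 * (H * (L * e)) := by ring
  rw [expand]
  rw [expand2] at step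
  linarith

theorem Qu_large {F : ℂ → ℂ} (hF : GoodL F) {a : ℕ → ℂ}
    (ha : ∀ n, ‖a n‖ ≤ ArithmeticFunction.vonMangoldt n)
    (hld : ∀ s : ℂ, 1 < s.re → 1 ≤ s.im → deriv F s / F s = - ∑' n : ℕ, a n * (n : ℂ) ^ (-s))
    {τ : ℝ} (hτ : 0 ≤ τ) (η α0 δ : ℝ) (hη : 0 < η) (hη1 : η ≤ 1) (hτ1 : 16 * τ ≤ η)
    (hδ : 0 < δ) (hδη : 4 * δ ≤ η) (hδα : 2 * δ ≤ α0) :
    ∃ T0 : ℝ, 10 ≤ T0 ∧ ∀ T : ℝ, T0 ≤ T → ∀ t H u : ℝ, T + 1 ≤ t → 0 ≤ u →
      t + u + H ≤ 16 * T - 1 → Real.exp (η * Real.log T) ≤ H →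
      Near F τ (Real.log T) t (t + H) → Near F τ (Real.log T) (t + u) (t + u + H) →
      ∀ x : ℝ, α0 * Real.log T ≤ x → x ≤ 4 * Real.log T →
      ‖Qu F T t H x u‖ ≤ ‖Dp a (t + Real.log T) (t + H - Real.log T) x u‖ +
        H * Real.exp (-(δ * Real.log T)) := by
  obtain ⟨C1, T1, hC1, hT1, hform⟩ := formulaU hF ha hld hτ
  set κ : ℝ := δ / 12 with hκ
  have hκ0 : 0 < κ := by positivity
  obtain ⟨L2, hL2, hPP⟩ := PP_msc ha κ hκ0 (by rw [hκ]; linarith)
  obtain ⟨L3, hL3, hpe⟩ := poly_le_exp (3 * C1) (η / 4) (by positivity)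
  obtain ⟨L4, hL4, hpe4⟩ := poly_le_exp (36 * C1) (δ / 2) (by positivity)
  obtain ⟨T3, hT3⟩ := (Real.tendsto_log_atTop.eventually_ge_atTop
    (max (max 40 L2) (max (max L3 L4) (max (24 / η ^ 4) (2 / δ))))).exists_forall_of_atTop
  refine ⟨max T1 T3, hT1.trans (le_max_left _ _),
    fun T hT t H u ht hu htH hH hn1 hn2 x hxα hx4 => ?_⟩
  have hTT1 : T1 ≤ T := (le_max_left _ _).trans hT
  have hTT3 : T3 ≤ T := (le_max_right _ _).trans hT
  have hLbig := hT3 T hTT3
  set L := Real.log T with hL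
  have hL40 : 40 ≤ L := ((le_max_left _ _).trans (le_max_left _ _)).trans hLbig
  have hLL2 : L2 ≤ L := ((le_max_right _ _).trans (le_max_left _ _)).trans hLbig
  have hLL3 : L3 ≤ L :=
    (((le_max_left _ _).trans (le_max_left _ _)).trans (le_max_right _ _)).trans hLbig
  have hLL4 : L4 ≤ L :=
    (((le_max_right _ _).trans (le_max_left _ _)).trans (le_max_right _ _)).trans hLbig
  have hLη : 24 / η ^ 4 ≤ L :=
    (((le_max_left _ _).trans (le_max_right _ _)).trans (le_max_right _ _)).trans hLbig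
  have hLδ : 2 / δ ≤ L :=
    (((le_max_right _ _).trans (le_max_right _ _)).trans (le_max_right _ _)).trans hLbig
  rw [div_le_iff₀ hδ] at hLδ
  obtain ⟨hcube, -⟩ := cube_le_exp hη hη1 hLη
  have hL3' : L ^ 3 ≤ H := hcube.trans hH
  have h2L : 2 * L ≤ H := by nlinarith [sq_nonneg L]
  have hH0 : 0 < H := by nlinarith
  have hL0 : 0 < L := by linarith
  have hx2 : 2 ≤ x := by nlinarith
  have hx : 0 ≤ x := by linarith
  have hf := hform T hTT1 t H u ht hu htH h2L hn1 hn2 x hx hx4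
  rw [← hL] at hf
  set v1 := t + L with hv1
  set v2 := t + H - L with hv2
  have hv12 : v1 ≤ v2 := by linarith
  have hPc := PP_cont ha x
  have hPs : Continuous fun v : ℝ => H370.PP a x (v + u) :=
    hPc.comp (by fun_prop : Continuous fun v : ℝ => v + u)
  have hG1 := hPP L hLL2 x hx hx4 v1 v2 hv12
  have hG2 := hPP L hLL2 x hx hx4 (v1 + u) (v2 + u) (by linarith)
  have hG2' : ∫ v in v1..v2, ‖H370.PP a x (v + u)‖ ^ 2 =
      ∫ v in (v1 + u)..(v2 + u), ‖H370.PP a x v‖ ^ 2 :=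
    intervalIntegral.integral_comp_add_right (fun v => ‖H370.PP a x v‖ ^ 2) u
  rw [← hG2'] at hG2
  have hI1 := int_norm_le hPc hv12
  have hI2 := int_norm_le hPs hv12
  set I1 := ∫ v in v1..v2, ‖H370.PP a x v‖ with hI1d
  set I2 := ∫ v in v1..v2, ‖H370.PP a x (v + u)‖ with hI2d
  set k := Real.exp (κ * L) with hk
  have hk1 : 1 ≤ k := Real.one_le_exp (by positivity)
  have hk6 : 1 ≤ k ^ 6 := one_le_pow₀ hk1
  set g := Real.exp (-x ^ 2 / 2) with hg
  have hg0 : 0 < g := Real.exp_pos _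
  set y := Real.exp (-x) with hy
  have hy0 : 0 < y := Real.exp_pos _
  have hgy : g ≤ y := by
    rw [hg, hy]; apply Real.exp_le_exp.2; nlinarith
  have hyX : y * Real.exp x = 1 := by rw [hy, ← Real.exp_add]; simp
  have hX0 : 0 < Real.exp x := Real.exp_pos _
  set E := Real.exp (-(2 * δ * L)) with hE
  have hE0 : 0 < E := Real.exp_pos _
  have hyE : y ≤ E := by
    rw [hy, hE]; apply Real.exp_le_exp.2
    nlinarith
  have hHE : 1 ≤ H * E := by
    calc (1 : ℝ) ≤ Real.exp ((η - 2 * δ) * L) := Real.one_le_exp (mul_nonneg (by linarith) hL0.le)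
      _ = Real.exp (η * L) * E := by rw [hE, ← Real.exp_add]; congr 1; ring
      _ ≤ H * E := by gcongr
  have hVH : v2 - v1 ≤ H := by linarith
  have hV0 : 0 ≤ v2 - v1 := by linarith
  have hII0 : 0 ≤ I1 + I2 := add_nonneg
    (intervalIntegral.integral_nonneg hv12 fun _ _ => norm_nonneg _)
    (intervalIntegral.integral_nonneg hv12 fun _ _ => norm_nonneg _)
  have hII : I1 + I2 ≤ 2 * (k ^ 6 * (H + Real.exp x)) := by
    have h1 : k ^ 6 * (v2 - v1 + Real.exp x) ≤ k ^ 6 * (H + Real.exp x) := by gcongr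
    have h3 : H ≤ k ^ 6 * (H + Real.exp x) := by
      calc H ≤ 1 * (H + Real.exp x) := by linarith
        _ ≤ _ := by gcongr
    have h4 : v2 + u - (v1 + u) = v2 - v1 := by ring
    rw [h4] at hG2
    linarith
  have hyII : y * (I1 + I2) ≤ 4 * (k ^ 6 * (H * E)) := by
    calc y * (I1 + I2) ≤ y * (2 * (k ^ 6 * (H + Real.exp x))) := by gcongr
      _ = 2 * (k ^ 6 * (H * y + y * Real.exp x)) := by ring
      _ ≤ 2 * (k ^ 6 * (H * E + H * E)) := by
          rw [hyX]; gcongr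
      _ = _ := by ring
  have hcross : (L * g + y) * (I1 + I2) ≤ 8 * (L * (k ^ 6 * (H * E))) := by
    have h1 : L * g + y ≤ 2 * L * y := by
      have : L * g ≤ L * y := by gcongr
      nlinarith
    calc (L * g + y) * (I1 + I2) ≤ 2 * L * y * (I1 + I2) := by gcongr
      _ = 2 * L * (y * (I1 + I2)) := by ring
      _ ≤ 2 * L * (4 * (k ^ 6 * (H * E))) := by gcongr
      _ = _ := by ring
  have hlast : H * (L * g + 1) * y ≤ 4 * (L * (k ^ 6 * (H * E))) := by
    have hg1 : g ≤ 1 := Real.exp_le_one_iff.2 (by nlinarith [sq_nonneg x])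
    have h1 : L * g + 1 ≤ 2 * L := by nlinarith
    calc H * (L * g + 1) * y ≤ H * (2 * L) * E := by gcongr
      _ = 2 * (L * (1 * (H * E))) := by ring
      _ ≤ 4 * (L * (k ^ 6 * (H * E))) := by
          have h2 : 0 ≤ L * (k ^ 6 * (H * E)) := by positivity
          have h3 : L * (1 * (H * E)) ≤ L * (k ^ 6 * (H * E)) := by gcongr
          linarith
  have hW : C1 * (Real.exp (2 * τ * x) * L ^ 3) ≤ 1 / 3 * (H * Real.exp (-(δ * L))) := by
    have h1 : Real.exp (2 * τ * x) ≤ Real.exp (η / 2 * L) := by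
      apply Real.exp_le_exp.2
      calc 2 * τ * x ≤ 2 * τ * (4 * L) := by gcongr
        _ = 16 * τ * (L / 2) := by ring
        _ ≤ η * (L / 2) := by gcongr
        _ = _ := by ring
    have h2 := hpe L hLL3
    calc C1 * (Real.exp (2 * τ * x) * L ^ 3) = 1 / 3 * (Real.exp (2 * τ * x) * (3 * C1 * L ^ 3)) := by
          ring
      _ ≤ 1 / 3 * (Real.exp (η / 2 * L) * Real.exp (η / 4 * L)) := by gcongr
      _ ≤ 1 / 3 * (Real.exp (η * L) * Real.exp (-(δ * L))) := by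
          rw [← Real.exp_add, ← Real.exp_add]
          apply mul_le_mul_of_nonneg_left _ (by norm_num)
          apply Real.exp_le_exp.2
          nlinarith
      _ ≤ _ := by gcongr
  have hrest : C1 * (12 * (L * (k ^ 6 * (H * E)))) ≤ 1 / 3 * (H * Real.exp (-(δ * L))) := by
    have h1 := hpe4 L hLL4
    have h2 : 36 * C1 * L ≤ 36 * C1 * L ^ 3 := by
      apply mul_le_mul_of_nonneg_left _ (by positivity)
      nlinarith [sq_nonneg L]
    have h3 : k ^ 6 = Real.exp (δ / 2 * L) := by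
      rw [hk, ← Real.exp_nat_mul, hκ]; congr 1; push_cast; ring
    calc C1 * (12 * (L * (k ^ 6 * (H * E)))) = 1 / 3 * ((36 * C1 * L) * (k ^ 6 * (H * E))) := by
          ring
      _ ≤ 1 / 3 * (Real.exp (δ / 2 * L) * (k ^ 6 * (H * E))) := by
          gcongr
          linarith
      _ = 1 / 3 * (H * Real.exp (-(δ * L))) := by
          rw [h3, hE]
          have : Real.exp (δ / 2 * L) * (Real.exp (δ / 2 * L) * (H * Real.exp (-(2 * δ * L)))) =
            H * (Real.exp (δ / 2 * L) * Real.exp (δ / 2 * L) * Real.exp (-(2 * δ * L))) := by ring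
          rw [this, ← Real.exp_add, ← Real.exp_add]
          congr 3
          ring
  unfold Qu
  rw [← hL]
  refine hf.trans ?_
  have step : C1 * (Real.exp (2 * τ * x) * L ^ 3 + (L * g + y) * (I1 + I2) +
      H * (L * g + 1) * y) ≤ C1 * (Real.exp (2 * τ * x) * L ^ 3) +
        C1 * (12 * (L * (k ^ 6 * (H * E)))) := by
    rw [← mul_add]
    apply mul_le_mul_of_nonneg_left _ hC1.le
    linarith
  have hpos : 0 < H * Real.exp (-(δ * L)) := by positivity
  linarith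

end Pool.Agent.W2helper69.U
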