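import Pool.Agent.W2helper69.U.Qb
import Pool.Agent.W2helper69.U.Cont
import Pool.Agent.W2helper69.PS.Main2

/-! Reduction of the smooth pair sum to the correlation sums. -/

set_option autoImplicit false

open Complex Filter Topology Set MeasureTheory
open scoped BigOperators ComplexConjugate

namespace Pool.Agent.W2helper69.U

open H370 H370.A2 H370.AS H370.SI Pool.Agent.W2helper69.PS

/-- the normalised pair correlation function at distance `u` -/
noncomputable def FN (F : ℂ → ℂ) (t H u T α : ℝ) : ℂ :=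
  ((H * Real.log T / (2 * Real.pi) : ℝ) : ℂ)⁻¹ *
    cu F t (t + H) (t + u) (t + u + H) (α * Real.log T) u

lemma FN_cont (F : ℂ → ℂ) (t H u T : ℝ) : Continuous fun α : ℝ => FN F t H u T α := by
  unfold FN
  have h := (cu_cont F t (t + H) (t + u) (t + u + H) u).comp
    (by fun_prop : Continuous fun α : ℝ => α * Real.log T)
  exact continuous_const.mul h

lemma FN_neg {F : ℂ → ℂ} (hF : GoodL F) {t H u T : ℝ} (ht : 1 ≤ t) (htu : 1 ≤ t + u) (α : ℝ) :
    FN F t H u T (-α) = conj (FN F t H u T α) := by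
  unfold FN
  rw [map_mul, map_inv₀, Complex.conj_ofReal, neg_mul, cu_neg hF ht htu]

/-- the Gaussian kernel -/
noncomputable def Gk (L α : ℝ) : ℝ := L / Real.sqrt Real.pi * Real.exp (-(α * L) ^ 2)

lemma FN_Qu {F : ℂ → ℂ} {t H u T α : ℝ} (hH : 0 < H) (hT : 1 < T) :
    ‖FN F t H u T α - Gk (Real.log T) α‖ ≤
      4 / (H * Real.log T) * ‖Qu F T t H (α * Real.log T) u‖ := by
  set L := Real.log T with hL
  have hL0 : 0 < L := Real.log_pos hT
  set p := Real.sqrt Real.pi with hp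
  have hp1 : 1 ≤ p := sqrt_pi_one
  have hp0 : 0 < p := by linarith
  have hpp : p * p = Real.pi := Real.mul_self_sqrt Real.pi_pos.le
  set x := α * L with hx
  set c := cu F t (t + H) (t + u) (t + u + H) x u with hc
  have he : cexp (-(I * x * u)) * cexp (I * x * u) = 1 := by
    rw [← Complex.exp_add, neg_add_cancel, Complex.exp_zero]
  have hpC : (p : ℂ) ≠ 0 := by exact_mod_cast hp0.ne'
  have hHC : (H : ℂ) ≠ 0 := by exact_mod_cast hH.ne'
  have hLC : (L : ℂ) ≠ 0 := by exact_mod_cast hL0.ne'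
  have hpiC : (Real.pi : ℂ) ≠ 0 := by exact_mod_cast Real.pi_pos.ne'
  have key : FN F t H u T α - Gk L α =
      ((2 * p / (H * L) : ℝ) : ℂ) * (cexp (-(I * x * u)) * Qu F T t H x u) := by
    unfold FN Gk Qu
    rw [← hL, ← hx, ← hc, ← hp]
    have e1 : (Real.exp (-(α * L) ^ 2) : ℂ) = (Real.exp (-x ^ 2) : ℂ) := by rw [hx]
    rw [show ((L / p * Real.exp (-(α * L) ^ 2) : ℝ) : ℂ) = (L : ℂ) / p * (Real.exp (-x ^ 2) : ℂ) by
      rw [← hx]; push_cast; ring]
    have e2 : cexp (-(I * x * u)) * ((p : ℂ) * cexp (I * x * u) * c -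
        ((1 / (2 * Real.pi) * (H * (L ^ 2 * Real.exp (-x ^ 2))) : ℝ) : ℂ) * cexp (I * x * u)) =
        (p : ℂ) * c - ((1 / (2 * Real.pi) * (H * (L ^ 2 * Real.exp (-x ^ 2))) : ℝ) : ℂ) := by
      linear_combination ((p : ℂ) * c -
        ((1 / (2 * Real.pi) * (H * (L ^ 2 * Real.exp (-x ^ 2))) : ℝ) : ℂ)) * he
    rw [e2]
    have hppC : (p : ℂ) * p = Real.pi := by exact_mod_cast hpp
    push_cast
    rw [← hppC]
    field_simp
  rw [key, norm_mul, norm_mul, Complex.norm_real, Real.norm_of_nonneg (by positivity)]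
  have h1 : ‖cexp (-(I * x * u))‖ = 1 := by
    rw [show -(I * (x : ℂ) * (u : ℂ)) = ((-(x * u) : ℝ) : ℂ) * I by push_cast; ring,
      Complex.norm_exp_ofReal_mul_I]
  rw [h1, one_mul]
  have hp2 : p ≤ 2 := by
    rw [hp, Real.sqrt_le_left (by norm_num)]
    have := Real.pi_lt_four
    linarith
  gcongr
  linarith

lemma Gk_cont (L : ℝ) : Continuous fun α : ℝ => Gk L α := by unfold Gk; fun_prop

lemma Gk_even (L α : ℝ) : Gk L (-α) = Gk L α := by
  unfold Gk; congr 2; ring

/-- reduction of the integral against the test function -/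
theorem psi_red {F : ℂ → ℂ} (hF : GoodL F) {ψ : ℝ → ℝ} {K μ M e : ℝ} (hψ : Continuous ψ)
    (hK : 0 ≤ K) (hlip : ∀ x, |evp ψ x - ψ 0| ≤ e + K * |x|) (hz : ∀ x, μ ≤ |x| → ψ x = 0)
    (hμ : 0 < μ) (hM : ∀ x, |ψ x| ≤ M) {t H u T : ℝ} (ht : 1 ≤ t) (htu : 1 ≤ t + u) (hH : 0 < H)
    (hT : 1 < T) :
    ‖(∫ α in (-μ)..μ, (ψ α : ℂ) * FN F t H u T α) - (ψ 0 : ℂ)‖ ≤
      8 * M / (H * Real.log T ^ 2) * (∫ x in (0 : ℝ)..(μ * Real.log T), ‖Qu F T t H x u‖) +
        (e + 4 * K / Real.log T) := by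
  set L := Real.log T with hL
  have hL0 : 0 < L := Real.log_pos hT
  have hM0 : 0 ≤ M := (abs_nonneg _).trans (hM 0)
  have hψC : Continuous fun α : ℝ => ((ψ α : ℝ) : ℂ) := Complex.continuous_ofReal.comp hψ
  have hFc := FN_cont F t H u T
  have hGc : Continuous fun α : ℝ => ((Gk L α : ℝ) : ℂ) :=
    Complex.continuous_ofReal.comp (Gk_cont L)
  have hDc : Continuous fun α : ℝ => FN F t H u T α - (Gk L α : ℂ) := hFc.sub hGc
  have hsplit : (∫ α in (-μ)..μ, (ψ α : ℂ) * FN F t H u T α) - (ψ 0 : ℂ) =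
      (∫ α in (-μ)..μ, (ψ α : ℂ) * (FN F t H u T α - (Gk L α : ℂ))) +
      (((∫ α in (-μ)..μ, ψ α * Gk L α) - ψ 0 : ℝ) : ℂ) := by
    have e1 : ∫ α in (-μ)..μ, (ψ α : ℂ) * (FN F t H u T α - (Gk L α : ℂ)) =
        (∫ α in (-μ)..μ, (ψ α : ℂ) * FN F t H u T α) - ∫ α in (-μ)..μ, (ψ α : ℂ) * (Gk L α : ℂ) := by
      rw [← intervalIntegral.integral_sub]
      · refine intervalIntegral.integral_congr fun α _ => ?_
        ring
      · exact (hψC.mul hFc).intervalIntegrable _ _
      · exact (hψC.mul hGc).intervalIntegrable _ _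
    have e2 : ∫ α in (-μ)..μ, (ψ α : ℂ) * (Gk L α : ℂ) = ((∫ α in (-μ)..μ, ψ α * Gk L α : ℝ) : ℂ) := by
      rw [← intervalIntegral.integral_ofReal]
      refine intervalIntegral.integral_congr fun α _ => ?_
      push_cast; ring
    rw [e1, e2]
    push_cast; ring
  rw [hsplit]
  refine (norm_add_le _ _).trans (add_le_add ?_ ?_)
  · -- the error
    have hsym : ∀ α : ℝ, ‖FN F t H u T (-α) - (Gk L (-α) : ℂ)‖ = ‖FN F t H u T α - (Gk L α : ℂ)‖ := by
      intro α
      rw [FN_neg hF ht htu, Gk_even]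
      have : conj (FN F t H u T α) - (Gk L α : ℂ) = conj (FN F t H u T α - (Gk L α : ℂ)) := by
        rw [map_sub, Complex.conj_ofReal]
      rw [this, RCLike.norm_conj]
    have h1 : ‖∫ α in (-μ)..μ, (ψ α : ℂ) * (FN F t H u T α - (Gk L α : ℂ))‖ ≤
        ∫ α in (-μ)..μ, M * ‖FN F t H u T α - (Gk L α : ℂ)‖ := by
      apply intervalIntegral.norm_integral_le_of_norm_le (by linarith)
      · refine Filter.Eventually.of_forall fun α _ => ?_
        rw [norm_mul, Complex.norm_real, Real.norm_eq_abs]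
        exact mul_le_mul_of_nonneg_right (hM α) (norm_nonneg _)
      · exact (continuous_const.mul hDc.norm).intervalIntegrable _ _
    have h2 : ∫ α in (-μ)..μ, M * ‖FN F t H u T α - (Gk L α : ℂ)‖ =
        2 * ∫ α in (0 : ℝ)..μ, M * ‖FN F t H u T α - (Gk L α : ℂ)‖ := by
      rw [int_sym (fun α => M * ‖FN F t H u T α - (Gk L α : ℂ)‖) (continuous_const.mul hDc.norm) μ,
        ← intervalIntegral.integral_const_mul]
      refine intervalIntegral.integral_congr fun α _ => ?_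
      simp only [hsym]
      ring
    have hQc : Continuous fun x : ℝ => ‖Qu F T t H x u‖ := (Qu_cont F T t H u).norm
    have h3 : ∫ α in (0 : ℝ)..μ, M * ‖FN F t H u T α - (Gk L α : ℂ)‖ ≤
        ∫ α in (0 : ℝ)..μ, 4 * M / (H * L) * ‖Qu F T t H (α * L) u‖ := by
      refine intervalIntegral.integral_mono_on hμ.le
        ((continuous_const.mul hDc.norm).intervalIntegrable _ _)
        ((continuous_const.mul (hQc.comp (continuous_mul_const L))).intervalIntegrable _ _)
        fun α _ => ?_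
      have h4 := FN_Qu (F := F) (t := t) (H := H) (u := u) (α := α) hH hT
      rw [← hL] at h4
      calc M * ‖FN F t H u T α - (Gk L α : ℂ)‖ ≤ M * (4 / (H * L) * ‖Qu F T t H (α * L) u‖) := by
            gcongr
        _ = _ := by ring
    have h5 : ∫ α in (0 : ℝ)..μ, 4 * M / (H * L) * ‖Qu F T t H (α * L) u‖ =
        4 * M / (H * L ^ 2) * ∫ x in (0 : ℝ)..(μ * L), ‖Qu F T t H x u‖ := by
      rw [intervalIntegral.integral_const_mul]
      have h7 := intervalIntegral.integral_comp_mul_right (a := 0) (b := μ)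
        (fun x : ℝ => ‖Qu F T t H x u‖) hL0.ne'
      rw [h7, zero_mul, smul_eq_mul]
      field_simp
    rw [h5] at h3
    refine (h1.trans (le_of_eq h2)).trans ?_
    calc _ ≤ 2 * (4 * M / (H * L ^ 2) * ∫ x in (0 : ℝ)..(μ * L), ‖Qu F T t H x u‖) := by gcongr
      _ = _ := by ring
  · -- the main term
    rw [Complex.norm_real, Real.norm_eq_abs]
    have h1 : ∫ α in (-μ)..μ, ψ α * Gk L α =
        2 * (L / Real.sqrt Real.pi) * ∫ α in (0 : ℝ)..μ, evp ψ α * Real.exp (-(α * L) ^ 2) := by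
      rw [int_sym (fun α => ψ α * Gk L α) (hψ.mul (Gk_cont L)) μ,
        ← intervalIntegral.integral_const_mul]
      refine intervalIntegral.integral_congr fun α _ => ?_
      simp only [Gk_even]
      unfold evp Gk
      ring
    have h2 := gauss_main hψ hK hlip hz hμ hL0
    set J := ∫ α in (0 : ℝ)..μ, evp ψ α * Real.exp (-(α * L) ^ 2) with hJ
    set p := Real.sqrt Real.pi with hp
    have hp1 : 1 ≤ p := sqrt_pi_one
    have hp0 : 0 < p := by linarith
    rw [h1]
    have h3 : 2 * (L / p) * J - ψ 0 = 2 * (L / p) * (J - ψ 0 * (p / (2 * L))) := by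
      field_simp
    rw [h3, abs_mul, abs_of_nonneg (by positivity : 0 ≤ 2 * (L / p))]
    calc 2 * (L / p) * |J - ψ 0 * (p / (2 * L))| ≤
        2 * (L / p) * (e * (p / (2 * L)) + 2 * K / L ^ 2) := by gcongr
      _ = e + 4 * K / L * (1 / p) := by field_simp; ring
      _ ≤ e + 4 * K / L * 1 := by
          have : 1 / p ≤ 1 := by rw [div_le_one hp0]; exact hp1
          gcongr
      _ = _ := by ring

end Pool.Agent.W2helper69.U
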